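import Mathlib

/-! Basic facts on leading-term equivalence in a valued field (for MP_f2b4e1_lc). -/

namespace Pool.Agent.HM

variable {K : Type*} [Field K] {Γ : Type*} [LinearOrderedCommGroupWithZero Γ]

/-- `x` and `y` have the same leading term: `x = y` or `|x - y| < |x|`. -/
def rvEq (v : Valuation K Γ) (x y : K) : Prop := x = y ∨ v (x - y) < v x

/-- `C` prepares `X`. -/
def Prep (v : Valuation K Γ) (C : Set K) (X : Set K) : Prop :=
  ∀ x x' : K, (∀ c ∈ C, rvEq v (x - c) (x' - c)) → (x ∈ X ↔ x' ∈ X)

/-- `v a` is smaller than the distance from `z` to `E`. -/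
def Near (v : Valuation K Γ) (E : Set K) (z a : K) : Prop := ∀ d ∈ E, v a < v (z - d)

variable {v : Valuation K Γ}

theorem rvEq.refl (x : K) : rvEq v x x := Or.inl rfl

theorem rvEq.val {x y : K} (h : rvEq v x y) : v x = v y := by
  rcases h with h | h
  · rw [h]
  · have : v (x - (x - y)) = v x := Valuation.map_sub_eq_of_lt_left v h
    rw [← this]; congr 1; ring

theorem rvEq.symm {x y : K} (h : rvEq v x y) : rvEq v y x := by
  have h' := h.val
  rcases h with h | h
  · exact Or.inl h.symm
  · right; rw [Valuation.map_sub_swap, ← h']; exact h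

theorem rvEq.comm {x y : K} : rvEq v x y ↔ rvEq v y x := ⟨rvEq.symm, rvEq.symm⟩

theorem rvEq.trans {x y z : K} (h : rvEq v x y) (h' : rvEq v y z) : rvEq v x z := by
  have hv := h.val
  rcases h with h | h
  · rw [h]; exact h'
  rcases h' with h' | h'
  · rw [← h']; exact Or.inr h
  right
  have : x - z = (x - y) + (y - z) := by ring
  rw [this]
  exact Valuation.map_add_lt v h (by rw [hv]; exact h')

theorem rvEq.zero_left {y : K} (h : rvEq v 0 y) : y = 0 := by
  rcases h with h | h
  · exact h.symm
  · simp at h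

theorem rvEq.zero_right {y : K} (h : rvEq v y 0) : y = 0 := h.symm.zero_left

theorem rvEq.mul_left {x y : K} (c : K) (h : rvEq v x y) : rvEq v (c * x) (c * y) := by
  rcases h with h | h
  · left; rw [h]
  · by_cases hc : c = 0
    · left; simp [hc]
    · right
      rw [← mul_sub, map_mul, map_mul]
      exact mul_lt_mul_of_pos_left h (zero_lt_iff.2 ((Valuation.ne_zero_iff v).2 hc))

theorem rvEq.mul_right {x y : K} (c : K) (h : rvEq v x y) : rvEq v (x * c) (y * c) := by
  rw [mul_comm x, mul_comm y]; exact h.mul_left c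

theorem rvEq.neg {x y : K} (h : rvEq v x y) : rvEq v (-x) (-y) := by
  have := h.mul_left (-1); simpa using this

/-- adding something smaller does not change the leading term -/
theorem rvEq_add_of_lt {a b : K} (h : v b < v a) : rvEq v a (a + b) := by
  right; simpa [Valuation.map_sub_swap] using h

theorem rvEq_of_lt {a b : K} (h : v (a - b) < v a) : rvEq v a b := Or.inr h

theorem rvEq_of_lt' {a b : K} (h : v (a - b) < v b) : rvEq v a b := by
  apply rvEq.symm; right; rw [Valuation.map_sub_swap]; exact h

/-- differences of two elements equivalent to `h` -/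
theorem rvEq.sub_lt {x y h : K} (hx : rvEq v x h) (hy : rvEq v y h) (h0 : h ≠ 0) :
    v (x - y) < v h := by
  have := hx.trans hy.symm
  rcases this with e | e
  · rw [e, sub_self, map_zero]; exact zero_lt_iff.2 ((Valuation.ne_zero_iff v).2 h0)
  · rwa [hx.val] at e

/-- sums of `n` elements with the same leading term -/
theorem rvEq_sum (hn : ∀ n : ℕ, n ≠ 0 → v (n : K) = 1) {h : K} (n : ℕ) (t : ℕ → K)
    (ht : ∀ i < n, rvEq v (t i) h) : rvEq v (∑ i ∈ Finset.range n, t i) (n * h) := by
  by_cases h0 : h = 0
  · left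
    rw [h0, mul_zero]
    apply Finset.sum_eq_zero
    intro i hi
    have := ht i (Finset.mem_range.1 hi)
    rw [h0] at this
    exact this.zero_right
  by_cases hn0 : n = 0
  · left; simp [hn0]
  apply rvEq_of_lt'
  have e1 : ∑ i ∈ Finset.range n, t i - n * h = ∑ i ∈ Finset.range n, (t i - h) := by
    rw [Finset.sum_sub_distrib]; simp
  rw [e1, map_mul, hn n hn0, one_mul]
  apply Valuation.map_sum_lt
  · exact (Valuation.ne_zero_iff v).2 h0
  · intro i hi
    exact (ht i (Finset.mem_range.1 hi)).sub_lt (rvEq.refl h) h0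

theorem Near.rvEq {E : Set K} {z z' : K} (h : Near v E z (z' - z)) :
    ∀ d ∈ E, HM.rvEq v (z - d) (z' - d) := by
  intro d hd
  right
  have := h d hd
  rw [Valuation.map_sub_swap] at this
  convert this using 2; ring

theorem Near.val {E : Set K} {z z' : K} (h : Near v E z (z' - z)) {d : K} (hd : d ∈ E) :
    v (z' - d) = v (z - d) := (h.rvEq d hd).val.symm

theorem Near.move {E : Set K} {z z' a : K} (h : Near v E z (z' - z)) (ha : Near v E z a) :
    Near v E z' a := by
  intro d hd
  rw [h.val hd]; exact ha d hd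

theorem Near.of_le {E : Set K} {z a b : K} (h : Near v E z a) (hb : v b ≤ v a) :
    Near v E z b := fun d hd => lt_of_le_of_lt hb (h d hd)

theorem Near.add {E : Set K} {z a b : K} (h : Near v E z a) (hb : Near v E z b) :
    Near v E z (a + b) := fun d hd => Valuation.map_add_lt v (h d hd) (hb d hd)

theorem Near.neg {E : Set K} {z a : K} (h : Near v E z a) : Near v E z (-a) :=
  h.of_le (by rw [Valuation.map_neg])

theorem Prep.iff_near {E : Set K} {X : Set K} (hP : Prep v E X) {z z' : K}
    (h : Near v E z (z' - z)) : z ∈ X ↔ z' ∈ X := hP z z' h.rvEq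

/-- the class of `a` contains no point of `C`: all its elements are equivalent over `C` -/
theorem rvEq_of_class {C : Set K} {a a1 : K} (h : ∀ c ∈ C, ¬ rvEq v a c) (h1 : rvEq v a a1) :
    ∀ c ∈ C, rvEq v (a - c) (a1 - c) := by
  intro c hc
  rcases h1 with h1 | h1
  · rw [h1]; exact rvEq.refl _
  · right
    have : ¬ v (a - c) < v a := fun hlt => h c hc (Or.inr hlt)
    have e : a - c - (a1 - c) = a - a1 := by ring
    rw [e]
    exact lt_of_lt_of_le h1 (not_lt.1 this)

end Pool.Agent.HM
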