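import Pool.Agent.HM.Stmt

/-! Definability calculus (MP_f2b4e1_lc): `Dfn L K P` says that the predicate `P` on the tuple
type `Γ` is `∅`-definable in the `L`-structure `K`. -/

universe u v w

namespace Pool.Agent.HM

open FirstOrder FirstOrder.Language

/-- Tuple types over `K`: finite products of copies of `K`. -/
class Tup (K : Type w) (Γ : Type w) where
  ι : Type
  fin : Finite ι
  e : Γ ≃ (ι → K)

attribute [instance] Tup.fin

instance Tup.self (K : Type w) : Tup K K where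
  ι := Unit
  fin := inferInstance
  e := (Equiv.funUnique Unit K).symm

instance Tup.prod (K : Type w) (Γ Δ : Type w) [Tup K Γ] [Tup K Δ] : Tup K (Γ × Δ) where
  ι := Tup.ι K Γ ⊕ Tup.ι K Δ
  fin := inferInstance
  e := ((Tup.e (K := K) (Γ := Γ)).prodCongr (Tup.e (K := K) (Γ := Δ))).trans
    (Equiv.sumArrowEquivProdArrow _ _ _).symm

instance Tup.pi (K : Type w) (ι : Type) [Finite ι] : Tup K (ι → K) where
  ι := ι
  fin := inferInstance
  e := Equiv.refl _

variable {L : FirstOrder.Language.{u, v}} {K : Type w} [L.Structure K]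
variable {Γ Δ Θ : Type w} [Tup K Γ] [Tup K Δ] [Tup K Θ]

@[simp] theorem Tup.e_self (x : K) (i : Unit) : Tup.e (K := K) (Γ := K) x i = x := rfl

@[simp] theorem Tup.e_prod (p : Γ × Δ) :
    Tup.e (K := K) p = Sum.elim (Tup.e p.1) (Tup.e p.2) := rfl

@[simp] theorem Tup.e_pi {ι : Type} [Finite ι] (f : ι → K) : Tup.e (K := K) f = f := rfl

variable (L K) in
/-- the predicate `P` is `∅`-definable -/
def Dfn (P : Γ → Prop) : Prop :=
  ∃ φ : L.Formula (Tup.ι K Γ), ∀ g, P g ↔ φ.Realize (Tup.e (K := K) g)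

variable (L K) in
/-- the function `f` is `∅`-definable -/
def DFun (f : Γ → Δ) : Prop := Dfn L K (fun p : Γ × Δ => f p.1 = p.2)

theorem Dfn.congr {P Q : Γ → Prop} (h : Dfn L K P) (hPQ : ∀ g, P g ↔ Q g) : Dfn L K Q := by
  obtain ⟨φ, hφ⟩ := h
  exact ⟨φ, fun g => (hPQ g).symm.trans (hφ g)⟩

theorem Dfn.not {P : Γ → Prop} (h : Dfn L K P) : Dfn L K (fun g => ¬ P g) := by
  obtain ⟨φ, hφ⟩ := h
  exact ⟨φ.not, fun g => (not_congr (hφ g)).trans (by simp)⟩

theorem Dfn.and {P Q : Γ → Prop} (h : Dfn L K P) (h' : Dfn L K Q) :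
    Dfn L K (fun g => P g ∧ Q g) := by
  obtain ⟨φ, hφ⟩ := h
  obtain ⟨ψ, hψ⟩ := h'
  exact ⟨φ ⊓ ψ, fun g => (and_congr (hφ g) (hψ g)).trans (by simp)⟩

theorem Dfn.or {P Q : Γ → Prop} (h : Dfn L K P) (h' : Dfn L K Q) :
    Dfn L K (fun g => P g ∨ Q g) := by
  refine (h.not.and h'.not).not.congr fun g => ?_
  tauto

theorem Dfn.imp {P Q : Γ → Prop} (h : Dfn L K P) (h' : Dfn L K Q) :
    Dfn L K (fun g => P g → Q g) := by
  refine (h.and h'.not).not.congr fun g => ?_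
  tauto

theorem Dfn.iff {P Q : Γ → Prop} (h : Dfn L K P) (h' : Dfn L K Q) :
    Dfn L K (fun g => P g ↔ Q g) := by
  refine ((h.imp h').and (h'.imp h)).congr fun g => ?_
  tauto

theorem Dfn.true : Dfn L K (fun _ : Γ => True) := ⟨⊤, fun g => by simp⟩

theorem Dfn.false : Dfn L K (fun _ : Γ => False) := ⟨⊥, fun g => by simp⟩

theorem Dfn.const (p : Prop) : Dfn L K (fun _ : Γ => p) := by
  by_cases h : p
  · simpa [h] using Dfn.true
  · simpa [h] using Dfn.false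

theorem Dfn.ex {P : Γ → Δ → Prop} (h : Dfn L K (fun p : Γ × Δ => P p.1 p.2)) :
    Dfn L K (fun g => ∃ d, P g d) := by
  obtain ⟨φ, hφ⟩ := h
  refine ⟨Formula.iExs (Tup.ι K Δ) φ, fun g => ?_⟩
  rw [Formula.realize_iExs]
  constructor
  · rintro ⟨d, hd⟩
    exact ⟨Tup.e d, (hφ (g, d)).1 hd⟩
  · rintro ⟨i, hi⟩
    refine ⟨(Tup.e (K := K) (Γ := Δ)).symm i, (hφ (g, _)).2 ?_⟩
    simpa using hi

theorem Dfn.all {P : Γ → Δ → Prop} (h : Dfn L K (fun p : Γ × Δ => P p.1 p.2)) :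
    Dfn L K (fun g => ∀ d, P g d) := by
  refine (Dfn.ex (P := fun g d => ¬ P g d) h.not).not.congr fun g => ?_
  push Not; rfl

theorem Dfn.reindex {P : Δ → Prop} (h : Dfn L K P) {f : Γ → Δ}
    (σ : Tup.ι K Δ → Tup.ι K Γ) (hσ : ∀ g i, Tup.e (K := K) (f g) i = Tup.e (K := K) g (σ i)) :
    Dfn L K (fun g => P (f g)) := by
  obtain ⟨φ, hφ⟩ := h
  refine ⟨φ.relabel σ, fun g => (hφ (f g)).trans ?_⟩
  rw [Formula.realize_relabel]
  have : Tup.e (K := K) (f g) = Tup.e (K := K) g ∘ σ := funext (hσ g)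
  rw [this]

/-- finite conjunctions -/
theorem Dfn.forall_fin {ι : Type*} [Finite ι] {P : ι → Γ → Prop} (h : ∀ i, Dfn L K (P i)) :
    Dfn L K (fun g => ∀ i, P i g) := by
  choose φ hφ using h
  refine ⟨Formula.iInf φ, fun g => ?_⟩
  rw [Formula.realize_iInf]
  exact forall_congr' fun i => hφ i g

theorem Dfn.exists_fin {ι : Type*} [Finite ι] {P : ι → Γ → Prop} (h : ∀ i, Dfn L K (P i)) :
    Dfn L K (fun g => ∃ i, P i g) := by
  choose φ hφ using h
  refine ⟨Formula.iSup φ, fun g => ?_⟩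
  rw [Formula.realize_iSup]
  exact exists_congr fun i => hφ i g

/-- two coordinates are equal -/
theorem Dfn.coord_eq (i j : Tup.ι K Γ) :
    Dfn L K (fun g : Γ => Tup.e (K := K) g i = Tup.e (K := K) g j) :=
  ⟨Term.equal (var i) (var j), fun g => by simp [Formula.Realize, Term.equal]⟩

/-- coordinate functions are definable -/
theorem DFun.coord {f : Γ → Δ}
    (σ : Tup.ι K Δ → Tup.ι K Γ) (hσ : ∀ g i, Tup.e (K := K) (f g) i = Tup.e (K := K) g (σ i)) :
    DFun L K f := by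
  unfold DFun
  refine (Dfn.forall_fin fun i : Tup.ι K Δ =>
    Dfn.coord_eq (Γ := Γ × Δ) (Sum.inl (σ i)) (Sum.inr i)).congr fun p => ?_
  rw [← (Tup.e (K := K) (Γ := Δ)).injective.eq_iff, funext_iff]
  refine forall_congr' fun i => ?_
  rw [hσ]; rfl

theorem Dfn.comp {P : Δ → Prop} {f : Γ → Δ} (hP : Dfn L K P) (hf : DFun L K f) :
    Dfn L K (fun g => P (f g)) := by
  have h1 : Dfn L K (fun p : Γ × Δ => P p.2) := hP.reindex (f := Prod.snd) Sum.inr fun _ _ => rfl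
  refine (Dfn.ex (P := fun (g : Γ) (d : Δ) => f g = d ∧ P d) (hf.and h1)).congr fun g => ?_
  simp

theorem DFun.fst : DFun L K (fun p : Γ × Δ => p.1) := DFun.coord Sum.inl fun _ _ => rfl

theorem DFun.snd : DFun L K (fun p : Γ × Δ => p.2) := DFun.coord Sum.inr fun _ _ => rfl

theorem DFun.id : DFun L K (fun g : Γ => g) := DFun.coord (fun i => i) fun _ _ => rfl

/-- definability of `f` after adding a variable for its value -/
theorem DFun.congr {f h : Γ → Δ} (hf : DFun L K f) (e : ∀ g, f g = h g) : DFun L K h := by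
  have : f = h := funext e
  rwa [← this]

theorem Dfn.prodMk_aux {f : Γ → Δ} (hf : DFun L K f) :
    Dfn L K (fun p : (Γ × Θ) × Δ => f p.1.1 = p.2) :=
  (hf : Dfn L K _).reindex (Γ := (Γ × Θ) × Δ) (f := fun p => (p.1.1, p.2))
    (Sum.elim (fun i => Sum.inl (Sum.inl i)) Sum.inr)
    (by rintro g (i | i) <;> rfl)

theorem DFun.comp {f : Δ → Θ} {h : Γ → Δ} (hf : DFun L K f) (hh : DFun L K h) :
    DFun L K (fun g => f (h g)) := by
  have h1 : Dfn L K (fun p : (Γ × Θ) × Δ => h p.1.1 = p.2) := Dfn.prodMk_aux hh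
  have h2 : Dfn L K (fun p : (Γ × Θ) × Δ => f p.2 = p.1.2) :=
    (hf : Dfn L K _).reindex (Γ := (Γ × Θ) × Δ) (f := fun p => (p.2, p.1.2))
    (Sum.elim Sum.inr (fun i => Sum.inl (Sum.inr i)))
    (by rintro g (i | i) <;> rfl)
  refine (Dfn.ex (P := fun (q : Γ × Θ) (d : Δ) => h q.1 = d ∧ f d = q.2) (h1.and h2)).congr
    fun p => ?_
  simp

theorem DFun.prodMk {f : Γ → Δ} {h : Γ → Θ} (hf : DFun L K f) (hh : DFun L K h) :
    DFun L K (fun g => (f g, h g)) := by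
  have h1 : Dfn L K (fun p : Γ × (Δ × Θ) => f p.1 = p.2.1) :=
    (hf : Dfn L K _).reindex (Γ := Γ × (Δ × Θ)) (f := fun p => (p.1, p.2.1))
    (Sum.elim Sum.inl (fun i => Sum.inr (Sum.inl i)))
    (by rintro g (i | i) <;> rfl)
  have h2 : Dfn L K (fun p : Γ × (Δ × Θ) => h p.1 = p.2.2) :=
    (hh : Dfn L K _).reindex (Γ := Γ × (Δ × Θ)) (f := fun p => (p.1, p.2.2))
    (Sum.elim Sum.inl (fun i => Sum.inr (Sum.inr i)))
    (by rintro g (i | i) <;> rfl)
  refine (h1.and h2).congr fun p => ?_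
  rw [Prod.ext_iff]

theorem DFun.fst' {f : Γ → Δ × Θ} (hf : DFun L K f) : DFun L K (fun g => (f g).1) :=
  DFun.comp DFun.fst hf

theorem DFun.snd' {f : Γ → Δ × Θ} (hf : DFun L K f) : DFun L K (fun g => (f g).2) :=
  DFun.comp DFun.snd hf

theorem DFun.apply {ι : Type} [Finite ι] {f : Γ → (ι → K)} (hf : DFun L K f) (i : ι) :
    DFun L K (fun g => f g i) :=
  DFun.comp (f := fun x : ι → K => x i) (DFun.coord (fun _ => i) fun _ _ => rfl) hf

theorem DFun.pi {ι : Type} [Finite ι] {f : Γ → (ι → K)} (hf : ∀ i, DFun L K (fun g => f g i)) :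
    DFun L K f := by
  refine (Dfn.forall_fin (P := fun (i : ι) (p : Γ × (ι → K)) => f p.1 i = p.2 i)
    fun i => ?_).congr fun p => ?_
  · exact (hf i : Dfn L K _).reindex (Γ := Γ × (ι → K)) (f := fun p => (p.1, p.2 i))
      (Sum.elim Sum.inl (fun _ => Sum.inr i)) (by rintro g (j | j) <;> rfl)
  · exact funext_iff.symm

/-- equality of definable functions is definable -/
theorem Dfn.eq {f h : Γ → Δ} (hf : DFun L K f) (hh : DFun L K h) :
    Dfn L K (fun g => f g = h g) :=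
  Dfn.comp (P := fun p : Γ × Δ => f p.1 = p.2) (f := fun g => (g, h g)) hf
    (DFun.prodMk DFun.id hh)

theorem Dfn.exists_formula {P : Γ → Prop} (h : Dfn L K P) :
    ∃ φ : L.Formula (Tup.ι K Γ), ∀ g, P g ↔ φ.Realize (Tup.e (K := K) g) := h

theorem Dfn.of_formula {P : Γ → Prop} (φ : L.Formula (Tup.ι K Γ))
    (h : ∀ g, P g ↔ φ.Realize (Tup.e (K := K) g)) : Dfn L K P := ⟨φ, h⟩

theorem DFun.graph {f : Γ → Δ} (h : DFun L K f) : Dfn L K (fun p : Γ × Δ => f p.1 = p.2) := h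

/-- the graph criterion -/
theorem DFun.of_graph {f : Γ → Δ} {P : Γ → Δ → Prop}
    (h : Dfn L K (fun p : Γ × Δ => P p.1 p.2)) (hP : ∀ g d, P g d ↔ f g = d) : DFun L K f :=
  h.congr fun p => hP p.1 p.2

attribute [irreducible] DFun Dfn

end Pool.Agent.HM
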