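import Pool.Agent.HM.Calc

/-! Definability calculus, part 2: field operations, valuation, small sets. -/

universe u v w

namespace Pool.Agent.HM

open FirstOrder FirstOrder.Language

variable {L : FirstOrder.Language.{u, v}} {K : Type w} [L.Structure K]
variable {Γ Δ Θ Γ₁ Γ₂ Γ₃ Γ₄ Γ₅ : Type w} [Tup K Γ] [Tup K Δ] [Tup K Θ] [Tup K Γ₁] [Tup K Γ₂]
  [Tup K Γ₃] [Tup K Γ₄] [Tup K Γ₅]

variable (L K) in
/-- a definable family of subsets of `K` -/
def DSet (C : Γ → Set K) : Prop := Dfn L K (fun p : Γ × K => p.2 ∈ C p.1)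

theorem Dfn.comp2 {P : Γ₁ → Γ₂ → Prop} (hP : Dfn L K (fun p : Γ₁ × Γ₂ => P p.1 p.2))
    {f₁ : Γ → Γ₁} {f₂ : Γ → Γ₂} (h₁ : DFun L K f₁) (h₂ : DFun L K f₂) :
    Dfn L K (fun g => P (f₁ g) (f₂ g)) :=
  Dfn.comp (P := fun p : Γ₁ × Γ₂ => P p.1 p.2) (f := fun g => (f₁ g, f₂ g)) hP (h₁.prodMk h₂)

theorem Dfn.comp3 {P : Γ₁ → Γ₂ → Γ₃ → Prop}
    (hP : Dfn L K (fun p : Γ₁ × Γ₂ × Γ₃ => P p.1 p.2.1 p.2.2))
    {f₁ : Γ → Γ₁} {f₂ : Γ → Γ₂} {f₃ : Γ → Γ₃} (h₁ : DFun L K f₁) (h₂ : DFun L K f₂)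
    (h₃ : DFun L K f₃) : Dfn L K (fun g => P (f₁ g) (f₂ g) (f₃ g)) :=
  Dfn.comp (P := fun p : Γ₁ × Γ₂ × Γ₃ => P p.1 p.2.1 p.2.2) (f := fun g => (f₁ g, f₂ g, f₃ g)) hP
    (h₁.prodMk (h₂.prodMk h₃))

theorem Dfn.comp4 {P : Γ₁ → Γ₂ → Γ₃ → Γ₄ → Prop}
    (hP : Dfn L K (fun p : Γ₁ × Γ₂ × Γ₃ × Γ₄ => P p.1 p.2.1 p.2.2.1 p.2.2.2))
    {f₁ : Γ → Γ₁} {f₂ : Γ → Γ₂} {f₃ : Γ → Γ₃} {f₄ : Γ → Γ₄} (h₁ : DFun L K f₁)
    (h₂ : DFun L K f₂) (h₃ : DFun L K f₃) (h₄ : DFun L K f₄) :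
    Dfn L K (fun g => P (f₁ g) (f₂ g) (f₃ g) (f₄ g)) :=
  Dfn.comp (P := fun p : Γ₁ × Γ₂ × Γ₃ × Γ₄ => P p.1 p.2.1 p.2.2.1 p.2.2.2)
    (f := fun g => (f₁ g, f₂ g, f₃ g, f₄ g)) hP (h₁.prodMk (h₂.prodMk (h₃.prodMk h₄)))

theorem DFun.comp2 {F : Γ₁ → Γ₂ → Δ} (hP : DFun L K (fun p : Γ₁ × Γ₂ => F p.1 p.2))
    {f₁ : Γ → Γ₁} {f₂ : Γ → Γ₂} (h₁ : DFun L K f₁) (h₂ : DFun L K f₂) :
    DFun L K (fun g => F (f₁ g) (f₂ g)) :=
  DFun.comp (f := fun p : Γ₁ × Γ₂ => F p.1 p.2) (h := fun g => (f₁ g, f₂ g)) hP (h₁.prodMk h₂)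

theorem DFun.comp3 {F : Γ₁ → Γ₂ → Γ₃ → Δ}
    (hP : DFun L K (fun p : Γ₁ × Γ₂ × Γ₃ => F p.1 p.2.1 p.2.2))
    {f₁ : Γ → Γ₁} {f₂ : Γ → Γ₂} {f₃ : Γ → Γ₃} (h₁ : DFun L K f₁) (h₂ : DFun L K f₂)
    (h₃ : DFun L K f₃) : DFun L K (fun g => F (f₁ g) (f₂ g) (f₃ g)) :=
  DFun.comp (f := fun p : Γ₁ × Γ₂ × Γ₃ => F p.1 p.2.1 p.2.2) (h := fun g => (f₁ g, f₂ g, f₃ g)) hP
    (h₁.prodMk (h₂.prodMk h₃))

theorem Dfn.mem {C : Δ → Set K} (hC : DSet L K C) {f : Γ → Δ} {h : Γ → K} (hf : DFun L K f)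
    (hh : DFun L K h) : Dfn L K (fun g => h g ∈ C (f g)) :=
  Dfn.comp2 (P := fun (d : Δ) (x : K) => x ∈ C d) hC hf hh

theorem DSet.of {P : Γ → K → Prop} (h : Dfn L K (fun p : Γ × K => P p.1 p.2)) :
    DSet L K (fun g => {x | P g x}) := h

theorem DSet.union {C D : Γ → Set K} (hC : DSet L K C) (hD : DSet L K D) :
    DSet L K (fun g => C g ∪ D g) := Dfn.or hC hD

/-- union of a definable family over a definable family -/
theorem DSet.biUnion {C : Γ → Set K} {D : Γ × K → Set K} (hC : DSet L K C) (hD : DSet L K D) :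
    DSet L K (fun g => ⋃ c ∈ C g, D (g, c)) := by
  have h1 : Dfn L K (fun q : (Γ × K) × K => q.2 ∈ C q.1.1) :=
    Dfn.mem hC DFun.fst.fst' DFun.snd
  have h2 : Dfn L K (fun q : (Γ × K) × K => q.1.2 ∈ D (q.1.1, q.2)) :=
    Dfn.mem hD (DFun.fst.fst'.prodMk DFun.snd) DFun.fst.snd'
  refine (Dfn.ex (P := fun (p : Γ × K) (c : K) => c ∈ C p.1 ∧ p.2 ∈ D (p.1, c))
    (h1.and h2)).congr fun p => ?_
  simp

section field

variable [Field K]

/-- `C` has at most `N` elements -/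
def Small (N : ℕ) (C : Set K) : Prop := ∃ t : Fin N → K, ∀ x ∈ C, ∃ i, t i = x

omit [L.Structure K] [Field K] in
theorem Small.finite {N : ℕ} {C : Set K} (h : Small N C) : C.Finite := by
  obtain ⟨t, ht⟩ := h
  exact (Set.finite_range t).subset fun x hx => ht x hx

omit [L.Structure K] [Field K] in
theorem Small.mono {N : ℕ} {C D : Set K} (h : Small N C) (hD : D ⊆ C) : Small N D := by
  obtain ⟨t, ht⟩ := h
  exact ⟨t, fun x hx => ht x (hD hx)⟩

omit [L.Structure K] [Field K] in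
theorem Small.union {N M : ℕ} {C D : Set K} (h : Small N C) (h' : Small M D) :
    Small (N + M) (C ∪ D) := by
  obtain ⟨t, ht⟩ := h
  obtain ⟨s, hs⟩ := h'
  refine ⟨Fin.append t s, ?_⟩
  rintro x (hx | hx)
  · obtain ⟨i, hi⟩ := ht x hx
    exact ⟨Fin.castAdd M i, by simp [hi]⟩
  · obtain ⟨i, hi⟩ := hs x hx
    exact ⟨Fin.natAdd N i, by simp [hi]⟩

omit [L.Structure K] [Field K] in
theorem Small.of_fun {ι : Type*} [Finite ι] : ∃ N, ∀ {C : Set K} (t : ι → K),
    (∀ x ∈ C, ∃ i, t i = x) → Small N C := by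
  obtain ⟨N, ⟨e⟩⟩ := Finite.exists_equiv_fin ι
  refine ⟨N, fun {C} t ht => ⟨t ∘ e.symm, fun x hx => ?_⟩⟩
  obtain ⟨i, hi⟩ := ht x hx
  exact ⟨e i, by simp [hi]⟩

omit [L.Structure K] in
theorem Small.le {N M : ℕ} {C : Set K} (h : Small N C) (hNM : N ≤ M) : Small M C := by
  obtain ⟨t, ht⟩ := h
  refine ⟨fun i => if h : (i : ℕ) < N then t ⟨i, h⟩ else 0, fun x hx => ?_⟩
  obtain ⟨i, hi⟩ := ht x hx
  exact ⟨Fin.castLE hNM i, by simp [hi]⟩

omit [L.Structure K] in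
theorem Small.biUnion {N M : ℕ} {C : Set K} {D : K → Set K} (h : Small N C)
    (h' : ∀ c ∈ C, Small M (D c)) : Small (N * M) (⋃ c ∈ C, D c) := by
  classical
  obtain ⟨t, ht⟩ := h
  have : ∀ c : K, ∃ s : Fin M → K, c ∈ C → ∀ x ∈ D c, ∃ i, s i = x := by
    intro c
    by_cases hc : c ∈ C
    · obtain ⟨s, hs⟩ := h' c hc
      exact ⟨s, fun _ => hs⟩
    · exact ⟨fun _ => 0, fun h => absurd h hc⟩
  choose s hs using this
  refine ⟨fun i => s (t (finProdFinEquiv.symm i).1) (finProdFinEquiv.symm i).2, fun x hx => ?_⟩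
  simp only [Set.mem_iUnion] at hx
  obtain ⟨c, hc, hxc⟩ := hx
  obtain ⟨i, hi⟩ := ht c hc
  obtain ⟨j, hj⟩ := hs c hc x hxc
  exact ⟨finProdFinEquiv (i, j), by simp [hi, hj]⟩

omit [L.Structure K] [Field K] in
theorem Small.singleton (a : K) : Small 1 ({a} : Set K) :=
  ⟨fun _ => a, fun x hx => ⟨0, hx.symm⟩⟩

omit [L.Structure K] [Field K] in
theorem Small.of_finite {C : Set K} (h : C.Finite) : ∃ N, Small N C := by
  obtain ⟨N, ⟨e⟩⟩ := @Finite.exists_equiv_fin C h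
  exact ⟨N, fun i => (e.symm i : K), fun x hx => ⟨e ⟨x, hx⟩, by simp⟩⟩

omit [Field K] in
theorem Dfn.small {C : Γ → Set K} (hC : DSet L K C) (N : ℕ) :
    Dfn L K (fun g => Small N (C g)) := by
  have h1 : Dfn L K (fun q : (Γ × (Fin N → K)) × K => q.2 ∈ C q.1.1) :=
    Dfn.mem hC DFun.fst.fst' DFun.snd
  have h2 : Dfn L K (fun q : (Γ × (Fin N → K)) × K => ∃ i, q.1.2 i = q.2) :=
    Dfn.exists_fin fun i => Dfn.eq (DFun.fst.snd'.apply i) DFun.snd
  exact Dfn.ex (P := fun (g : Γ) (t : Fin N → K) => ∀ x ∈ C g, ∃ i, t i = x)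
    (Dfn.all (P := fun (p : Γ × (Fin N → K)) (x : K) => x ∈ C p.1 → ∃ i, p.2 i = x) (h1.imp h2))

variable [Sym L] {O : ValuationSubring K} [hV : IsVF L K O]

include hV

theorem DFun.add {f h : Γ → K} (hf : DFun L K f) (hh : DFun L K h) :
    DFun L K (fun g => f g + h g) := by
  have : DFun L K (fun p : K × K => p.1 + p.2) := by
    refine DFun.of_graph (P := fun p d => p.1 + p.2 = d) (Dfn.of_formula (Term.equal (Functions.apply₂ (Sym.add : L.Functions 2) (var (Sum.inl (Sum.inl ())))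
      (var (Sum.inl (Sum.inr ())))) (var (Sum.inr ()))) fun g => ?_) fun _ _ => Iff.rfl
    simp only [Formula.Realize, Term.equal, Functions.apply₂, BoundedFormula.realize_bdEqual,
      Term.relabel, Term.realize_func]
    have := hV.add g.1.1 g.1.2
    rw [← this]
    constructor
    · intro h
      refine Eq.trans (congrArg _ ?_) h
      funext i; fin_cases i <;> rfl
    · intro h
      refine Eq.trans (congrArg _ ?_) h
      funext i; fin_cases i <;> rfl
  exact DFun.comp2 this hf hh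

theorem DFun.mul {f h : Γ → K} (hf : DFun L K f) (hh : DFun L K h) :
    DFun L K (fun g => f g * h g) := by
  have : DFun L K (fun p : K × K => p.1 * p.2) := by
    refine DFun.of_graph (P := fun p d => p.1 * p.2 = d) (Dfn.of_formula (Term.equal (Functions.apply₂ (Sym.mul : L.Functions 2) (var (Sum.inl (Sum.inl ())))
      (var (Sum.inl (Sum.inr ())))) (var (Sum.inr ()))) fun g => ?_) fun _ _ => Iff.rfl
    simp only [Formula.Realize, Term.equal, Functions.apply₂, BoundedFormula.realize_bdEqual,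
      Term.relabel, Term.realize_func]
    have := hV.mul g.1.1 g.1.2
    rw [← this]
    constructor
    · intro h
      refine Eq.trans (congrArg _ ?_) h
      funext i; fin_cases i <;> rfl
    · intro h
      refine Eq.trans (congrArg _ ?_) h
      funext i; fin_cases i <;> rfl
  exact DFun.comp2 this hf hh

theorem DFun.zero : DFun L K (fun _ : Γ => (0 : K)) := by
  refine DFun.of_graph (P := fun _ d => d + d = d)
    (Dfn.eq (DFun.add DFun.snd DFun.snd) DFun.snd) fun g d => ?_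
  constructor
  · intro h
    exact (add_eq_left.1 h).symm
  · rintro rfl; simp

theorem DFun.one : DFun L K (fun _ : Γ => (1 : K)) := by
  refine DFun.of_graph (P := fun _ d => d * d = d ∧ ¬ d = 0)
    ((Dfn.eq (DFun.mul DFun.snd DFun.snd) DFun.snd).and (Dfn.eq DFun.snd DFun.zero).not)
    fun g d => ?_
  constructor
  · rintro ⟨h, h0⟩
    exact (mul_right_cancel₀ h0 (h.trans (one_mul d).symm)).symm
  · rintro rfl; simp

theorem DFun.sub {f h : Γ → K} (hf : DFun L K f) (hh : DFun L K h) :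
    DFun L K (fun g => f g - h g) := by
  have : DFun L K (fun p : K × K => p.1 - p.2) := by
    refine DFun.of_graph (P := fun p d => d + p.2 = p.1)
      (Dfn.eq (DFun.add DFun.snd DFun.fst.snd') DFun.fst.fst') fun g d => ?_
    exact eq_sub_iff_add_eq.symm.trans eq_comm
  exact DFun.comp2 this hf hh

theorem DFun.neg {f : Γ → K} (hf : DFun L K f) : DFun L K (fun g => - f g) :=
  (DFun.sub DFun.zero hf).congr fun _ => zero_sub _

theorem DFun.inv {f : Γ → K} (hf : DFun L K f) : DFun L K (fun g => (f g)⁻¹) := by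
  have : DFun L K (fun p : K => p⁻¹) := by
    refine DFun.of_graph (P := fun p d => (p = 0 ∧ d = 0) ∨ p * d = 1)
      (((Dfn.eq DFun.fst DFun.zero).and (Dfn.eq DFun.snd DFun.zero)).or
        (Dfn.eq (DFun.mul DFun.fst DFun.snd) DFun.one)) fun p d => ?_
    constructor
    · rintro (⟨h, h'⟩ | h)
      · rw [h, h', inv_zero]
      · exact inv_eq_of_mul_eq_one_right h
    · rintro rfl
      by_cases h : p = 0
      · left; simp [h]
      · right; exact mul_inv_cancel₀ h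
  exact DFun.comp this hf

theorem DFun.div {f h : Γ → K} (hf : DFun L K f) (hh : DFun L K h) :
    DFun L K (fun g => f g / h g) :=
  (DFun.mul hf (DFun.inv hh)).congr fun _ => (div_eq_mul_inv _ _).symm

theorem DFun.natCast (n : ℕ) : DFun L K (fun _ : Γ => (n : K)) := by
  induction n with
  | zero => exact DFun.zero.congr fun _ => Nat.cast_zero.symm
  | succ n ih => exact (DFun.add ih DFun.one).congr fun _ => (Nat.cast_succ n).symm

theorem DFun.pow {f : Γ → K} (hf : DFun L K f) (n : ℕ) : DFun L K (fun g => f g ^ n) := by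
  induction n with
  | zero => exact DFun.one.congr fun _ => (pow_zero _).symm
  | succ n ih => exact (DFun.mul ih hf).congr fun _ => (pow_succ _ _).symm

theorem DFun.sum_fin {ι : Type} [Fintype ι] {f : ι → Γ → K} (hf : ∀ i, DFun L K (f i)) :
    DFun L K (fun g => ∑ i, f i g) := by
  classical
  have : ∀ s : Finset ι, DFun L K (fun g => ∑ i ∈ s, f i g) := by
    intro s
    induction s using Finset.induction_on with
    | empty => exact DFun.zero.congr fun _ => Finset.sum_empty.symm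
    | insert a s ha ih =>
      exact (DFun.add (hf a) ih).congr fun g => (Finset.sum_insert (f := fun i => f i g) ha).symm
  exact this _

theorem Dfn.memO {f : Γ → K} (hf : DFun L K f) : Dfn L K (fun g => f g ∈ O) := by
  have : Dfn L K (fun p : K => p ∈ O) := by
    refine Dfn.of_formula (Relations.formula₁ (Sym.O : L.Relations 1) (var ())) fun g => ?_
    rw [Formula.realize_rel₁]
    exact (hV.mem g).symm
  exact Dfn.comp this hf

theorem Dfn.vle {f h : Γ → K} (hf : DFun L K f) (hh : DFun L K h) :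
    Dfn L K (fun g => O.valuation (f g) ≤ O.valuation (h g)) := by
  have : Dfn L K (fun p : K × K => ∃ q : K, q ∈ O ∧ p.1 = q * p.2) :=
    Dfn.ex (P := fun (p : K × K) (q : K) => q ∈ O ∧ p.1 = q * p.2)
      ((Dfn.memO DFun.snd).and (Dfn.eq DFun.fst.fst' (DFun.mul DFun.snd DFun.fst.snd')))
  refine Dfn.comp2 (P := fun x y : K => O.valuation x ≤ O.valuation y)
    (this.congr fun p => ?_) hf hh
  constructor
  · rintro ⟨q, hq, h⟩
    rw [h, map_mul]
    exact mul_le_of_le_one_left zero_le ((O.valuation_le_one_iff q).2 hq)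
  · intro h
    by_cases h0 : p.2 = 0
    · refine ⟨0, O.zero_mem, ?_⟩
      rw [h0, map_zero] at h
      have : p.1 = 0 := (Valuation.zero_iff _).1 (le_antisymm h zero_le)
      rw [this, zero_mul]
    · refine ⟨p.1 / p.2, (O.valuation_le_one_iff _).1 ?_, by field_simp⟩
      rw [map_div₀]
      exact div_le_one_of_le₀ h zero_le

theorem Dfn.vlt {f h : Γ → K} (hf : DFun L K f) (hh : DFun L K h) :
    Dfn L K (fun g => O.valuation (f g) < O.valuation (h g)) :=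
  (Dfn.vle hh hf).not.congr fun _ => not_le

theorem Dfn.veq {f h : Γ → K} (hf : DFun L K f) (hh : DFun L K h) :
    Dfn L K (fun g => O.valuation (f g) = O.valuation (h g)) :=
  ((Dfn.vle hf hh).and (Dfn.vle hh hf)).congr fun _ => le_antisymm_iff.symm

theorem Dfn.vle_one {f : Γ → K} (hf : DFun L K f) :
    Dfn L K (fun g => O.valuation (f g) ≤ 1) :=
  (Dfn.vle hf DFun.one).congr fun _ => by rw [map_one]

theorem Dfn.rvEq {f h : Γ → K} (hf : DFun L K f) (hh : DFun L K h) :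
    Dfn L K (fun g => HM.rvEq O.valuation (f g) (h g)) :=
  (Dfn.eq hf hh).or (Dfn.vlt (DFun.sub hf hh) hf)

theorem Dfn.rvlEq {l f h : Γ → K} (hl : DFun L K l) (hf : DFun L K f) (hh : DFun L K h) :
    Dfn L K (fun g => HM.rvlEq O.valuation (l g) (f g) (h g)) :=
  (Dfn.eq hf hh).or ((Dfn.vlt (DFun.sub hf hh) (DFun.mul hl hf)).congr fun _ => by rw [map_mul])

end field

end Pool.Agent.HM
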