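import Pool.Agent.HM.Core

/-! Definability calculus, part 3: all functions and relations of `L` (MP_f2b4e1_lc). -/

universe u v w

namespace Pool.Agent.HM

open FirstOrder FirstOrder.Language

variable {L : FirstOrder.Language.{u, v}} {K : Type w} [L.Structure K]
variable {Γ Δ : Type w} [Tup K Γ] [Tup K Δ]

theorem DFun.funMap {n : ℕ} (F : L.Functions n) {h : Γ → (Fin n → K)} (hh : DFun L K h) :
    DFun L K (fun g => Structure.funMap F (h g)) := by
  have : DFun L K (fun p : Fin n → K => Structure.funMap F p) := by
    refine DFun.of_graph (P := fun p d => Structure.funMap F p = d) (Dfn.of_formula (Term.equal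
      (Term.func F fun i => var (Sum.inl i)) (var (Sum.inr ()))) fun g => ?_) fun _ _ => Iff.rfl
    simp only [Formula.Realize, Term.equal, BoundedFormula.realize_bdEqual,
      Term.relabel, Term.realize_func]
    rfl
  exact DFun.comp this hh

theorem Dfn.relMap {n : ℕ} (R : L.Relations n) {h : Γ → (Fin n → K)} (hh : DFun L K h) :
    Dfn L K (fun g => Structure.RelMap R (h g)) := by
  have : Dfn L K (fun p : Fin n → K => Structure.RelMap R p) := by
    refine Dfn.of_formula (Relations.formula R fun i => var i) fun g => ?_
    rw [Formula.realize_rel]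
    rfl
  exact Dfn.comp this hh

end Pool.Agent.HM
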