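import Pool.Agent.HM.Calc2

/-! CM-9a (MP_f2b4e1_lc): formulas for small and prepares, uniformly in all models. -/

universe u v w

namespace Pool.Agent.HM

open FirstOrder FirstOrder.Language

section

variable {L : FirstOrder.Language.{u, v}} [Sym L] {α : Type}

/-- the sum of two terms -/
def chi_add (s t : L.Term α) : L.Term α := Functions.apply₂ (Sym.add : L.Functions 2) s t

/-- the product of two terms -/
def chi_mul (s t : L.Term α) : L.Term α := Functions.apply₂ (Sym.mul : L.Functions 2) s t

/-- the term is in the valuation ring -/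
def chi_mem (t : L.Term α) : L.Formula α := Relations.formula₁ (Sym.O : L.Relations 1) t

/-- `rvEq (x - c) (x' - c)` -/
noncomputable def chi_rv3 (x x' c : L.Term α) : L.Formula α :=
  (Term.equal x x') ⊔ (Formula.iExs Unit
    ((chi_mem (var (Sum.inr ())) : L.Formula (α ⊕ Unit)) ⊓
      Term.equal (chi_add (x.relabel Sum.inl) (chi_mul (var (Sum.inr ())) (x'.relabel Sum.inl)))
        (chi_add (chi_mul (var (Sum.inr ())) (x.relabel Sum.inl)) (c.relabel Sum.inl)))).not

/-- `rvEq x y` -/
noncomputable def chi_rv2 (x x' : L.Term α) : L.Formula α :=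
  (Term.equal x x') ⊔ (Formula.iExs Unit
    ((chi_mem (var (Sum.inr ())) : L.Formula (α ⊕ Unit)) ⊓
      Term.equal (chi_add (x.relabel Sum.inl) (chi_mul (var (Sum.inr ())) (x'.relabel Sum.inl)))
        (chi_mul (var (Sum.inr ())) (x.relabel Sum.inl)))).not

variable {K : Type w} [L.Structure K] [Field K] {O : ValuationSubring K} [hV : IsVF L K O]

theorem chi_realize_equal (s t : L.Term α) (g : α → K) :
    (Term.equal s t).Realize g ↔ s.realize g = t.realize g := by
  rw [Formula.realize_equal]

include hV in
theorem chi_realize_add (s t : L.Term α) (g : α → K) :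
    (chi_add s t).realize g = s.realize g + t.realize g := by
  unfold chi_add
  rw [Term.realize_functions_apply₂]
  exact hV.add _ _

include hV in
theorem chi_realize_mul (s t : L.Term α) (g : α → K) :
    (chi_mul s t).realize g = s.realize g * t.realize g := by
  unfold chi_mul
  rw [Term.realize_functions_apply₂]
  exact hV.mul _ _

include hV in
theorem chi_realize_mem (t : L.Term α) (g : α → K) :
    (chi_mem t).Realize g ↔ t.realize g ∈ O := by
  unfold chi_mem
  rw [Formula.realize_rel₁]
  exact hV.mem _

omit [L.Structure K] [Sym L] hV in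
/-- `v (a - b) < v a` without subtraction -/
theorem chi_val (a b : K) : O.valuation (a - b) < O.valuation a ↔
    ¬ ∃ q ∈ O, a = q * (a - b) := by
  rw [← not_le, not_iff_not]
  constructor
  · intro h
    by_cases h0 : a - b = 0
    · refine ⟨0, O.zero_mem, ?_⟩
      rw [h0, map_zero] at h
      have : a = 0 := (Valuation.zero_iff _).1 (le_antisymm h zero_le)
      rw [this, zero_mul]
    · refine ⟨a / (a - b), (O.valuation_le_one_iff _).1 ?_, by field_simp⟩
      rw [map_div₀]
      exact div_le_one_of_le₀ h zero_le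
  · rintro ⟨q, hq, h⟩
    rw [h, map_mul, ← h]
    exact mul_le_of_le_one_left zero_le ((O.valuation_le_one_iff q).2 hq)

include hV in
theorem chi_realize_rv3 (x x' c : L.Term α) (g : α → K) :
    (chi_rv3 x x' c).Realize g ↔
      rvEq O.valuation (x.realize g - c.realize g) (x'.realize g - c.realize g) := by
  unfold chi_rv3 rvEq
  rw [Formula.realize_sup, chi_realize_equal, Formula.realize_not, Formula.realize_iExs, chi_val]
  refine or_congr ?_ (not_congr ?_)
  · exact (sub_left_inj).symm
  · constructor
    · rintro ⟨i, hi⟩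
      rw [Formula.realize_inf, chi_realize_mem, chi_realize_equal, chi_realize_add,
        chi_realize_add, chi_realize_mul, chi_realize_mul, Term.realize_relabel,
        Term.realize_relabel, Term.realize_relabel, Term.realize_var] at hi
      refine ⟨i (), hi.1, ?_⟩
      have h2 := hi.2
      simp only [Sum.elim_comp_inl, Sum.elim_inr] at h2
      linear_combination h2
    · rintro ⟨q, hq, h⟩
      refine ⟨fun _ => q, ?_⟩
      rw [Formula.realize_inf, chi_realize_mem, chi_realize_equal, chi_realize_add,
        chi_realize_add, chi_realize_mul, chi_realize_mul, Term.realize_relabel,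
        Term.realize_relabel, Term.realize_relabel, Term.realize_var]
      refine ⟨hq, ?_⟩
      simp only [Sum.elim_comp_inl, Sum.elim_inr]
      linear_combination h

include hV in
theorem chi_realize_rv2 (x x' : L.Term α) (g : α → K) :
    (chi_rv2 x x').Realize g ↔ rvEq O.valuation (x.realize g) (x'.realize g) := by
  unfold chi_rv2 rvEq
  rw [Formula.realize_sup, chi_realize_equal, Formula.realize_not, Formula.realize_iExs, chi_val]
  refine or_congr Iff.rfl (not_congr ?_)
  constructor
  · rintro ⟨i, hi⟩
    rw [Formula.realize_inf, chi_realize_mem, chi_realize_equal, chi_realize_add,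
      chi_realize_mul, chi_realize_mul, Term.realize_relabel,
      Term.realize_relabel, Term.realize_var] at hi
    refine ⟨i (), hi.1, ?_⟩
    have h2 := hi.2
    simp only [Sum.elim_comp_inl, Sum.elim_inr] at h2
    linear_combination h2
  · rintro ⟨q, hq, h⟩
    refine ⟨fun _ => q, ?_⟩
    rw [Formula.realize_inf, chi_realize_mem, chi_realize_equal, chi_realize_add,
      chi_realize_mul, chi_realize_mul, Term.realize_relabel,
      Term.realize_relabel, Term.realize_var]
    refine ⟨hq, ?_⟩
    simp only [Sum.elim_comp_inl, Sum.elim_inr]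
    linear_combination h

end

theorem exists_chi (L : FirstOrder.Language.{u, v}) [Sym L] {ι₁ ι₂ : Type}
    (φ : L.Formula (ι₁ ⊕ (ι₂ ⊕ Unit))) (ψ : L.Formula (ι₁ ⊕ Unit)) (N : ℕ) :
    ∃ χ : L.Formula (ι₁ ⊕ ι₂), ∀ (K : Type w) [L.Structure K] [Field K] (O : ValuationSubring K)
      [IsVF L K O] (y : ι₁ → K) (e : ι₂ → K), χ.Realize (Sum.elim y e) ↔
        (Small N {x | ψ.Realize (Sum.elim y fun _ => x)} ∧
          Prep O.valuation {x | ψ.Realize (Sum.elim y fun _ => x)}
            {x | φ.Realize (Sum.elim y (Sum.elim e fun _ => x))}) := by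
  -- the formula for smallness
  let small : L.Formula (ι₁ ⊕ ι₂) := Formula.iExs (Fin N) (Formula.iAlls Unit
    ((ψ.relabel (Sum.elim (fun i => Sum.inl (Sum.inl (Sum.inl i))) (fun _ => Sum.inr ())) :
      L.Formula (((ι₁ ⊕ ι₂) ⊕ Fin N) ⊕ Unit)).imp
      (Formula.iSup fun i : Fin N => Term.equal (var (Sum.inl (Sum.inr i))) (var (Sum.inr ())))))
  -- the formula for preparation; variables x = first Unit, x' = second Unit, c = third Unit
  let prep : L.Formula (ι₁ ⊕ ι₂) := Formula.iAlls Unit (Formula.iAlls Unit
    ((Formula.iAlls Unit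
      ((ψ.relabel (Sum.elim (fun i => Sum.inl (Sum.inl (Sum.inl (Sum.inl i))))
        (fun _ => Sum.inr ())) : L.Formula ((((ι₁ ⊕ ι₂) ⊕ Unit) ⊕ Unit) ⊕ Unit)).imp
        (chi_rv3 (var (Sum.inl (Sum.inl (Sum.inr ())))) (var (Sum.inl (Sum.inr ())))
          (var (Sum.inr ()))))).imp
      (Formula.iff (φ.relabel (Sum.elim (fun i => Sum.inl (Sum.inl (Sum.inl i)))
          (Sum.elim (fun j => Sum.inl (Sum.inl (Sum.inr j))) (fun _ => Sum.inl (Sum.inr ())))))
        (φ.relabel (Sum.elim (fun i => Sum.inl (Sum.inl (Sum.inl i)))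
          (Sum.elim (fun j => Sum.inl (Sum.inl (Sum.inr j))) (fun _ => Sum.inr ())))))))
  refine ⟨small ⊓ prep, ?_⟩
  intro K _ _ O _ y e
  rw [Formula.realize_inf]
  refine and_congr ?_ ?_
  · show Formula.Realize (Formula.iExs (Fin N) _) _ ↔ _
    rw [Formula.realize_iExs]
    unfold Small
    refine exists_congr fun t => ?_
    rw [Formula.realize_iAlls]
    have key : ∀ i : Unit → K, (Formula.Realize ((ψ.relabel (Sum.elim
        (fun i => Sum.inl (Sum.inl (Sum.inl i))) (fun _ => Sum.inr ())) :
        L.Formula (((ι₁ ⊕ ι₂) ⊕ Fin N) ⊕ Unit)).imp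
        (Formula.iSup fun i : Fin N => Term.equal (var (Sum.inl (Sum.inr i))) (var (Sum.inr ()))))
        (Sum.elim (Sum.elim (Sum.elim y e) t) i) ↔
        (ψ.Realize (Sum.elim y fun _ : Unit => i ()) → ∃ j, t j = i ())) := by
      intro i
      rw [Formula.realize_imp, Formula.realize_relabel, Formula.realize_iSup]
      refine imp_congr ?_ (exists_congr fun j => ?_)
      · have : (Sum.elim (Sum.elim (Sum.elim y e) t) i ∘ Sum.elim
            (fun i => Sum.inl (Sum.inl (Sum.inl i))) (fun _ => Sum.inr ())) =
            Sum.elim y fun _ : Unit => i () := by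
          funext k
          rcases k with k | k <;> rfl
        rw [this]
      · rw [chi_realize_equal]
        rfl
    constructor
    · intro h x hx
      exact (key fun _ => x).mp (h fun _ => x) hx
    · intro h i
      exact (key i).mpr fun hx => h (i ()) hx
  · show Formula.Realize (Formula.iAlls Unit _) _ ↔ _
    rw [Formula.realize_iAlls]
    have key : ∀ i j : Unit → K, (Formula.Realize (Formula.imp (Formula.iAlls Unit
      ((ψ.relabel (Sum.elim (fun i => Sum.inl (Sum.inl (Sum.inl (Sum.inl i))))
        (fun _ => Sum.inr ())) : L.Formula ((((ι₁ ⊕ ι₂) ⊕ Unit) ⊕ Unit) ⊕ Unit)).imp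
        (chi_rv3 (var (Sum.inl (Sum.inl (Sum.inr ())))) (var (Sum.inl (Sum.inr ())))
          (var (Sum.inr ())))))
      (Formula.iff (φ.relabel (Sum.elim (fun i => Sum.inl (Sum.inl (Sum.inl i)))
          (Sum.elim (fun j => Sum.inl (Sum.inl (Sum.inr j))) (fun _ => Sum.inl (Sum.inr ())))))
        (φ.relabel (Sum.elim (fun i => Sum.inl (Sum.inl (Sum.inl i)))
          (Sum.elim (fun j => Sum.inl (Sum.inl (Sum.inr j))) (fun _ => Sum.inr ()))))))
        (Sum.elim (Sum.elim (Sum.elim y e) i) j) ↔
        ((∀ c : K, ψ.Realize (Sum.elim y fun _ => c) →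
          rvEq O.valuation (i () - c) (j () - c)) →
          (φ.Realize (Sum.elim y (Sum.elim e fun _ : Unit => i ())) ↔
            φ.Realize (Sum.elim y (Sum.elim e fun _ : Unit => j ()))))) := by
      intro i j
      rw [Formula.realize_imp, Formula.realize_iAlls, Formula.realize_iff,
        Formula.realize_relabel, Formula.realize_relabel]
      have key2 : ∀ c : Unit → K, (Formula.Realize
          ((ψ.relabel (Sum.elim (fun i => Sum.inl (Sum.inl (Sum.inl (Sum.inl i))))
          (fun _ => Sum.inr ())) : L.Formula ((((ι₁ ⊕ ι₂) ⊕ Unit) ⊕ Unit) ⊕ Unit)).imp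
          (chi_rv3 (var (Sum.inl (Sum.inl (Sum.inr ())))) (var (Sum.inl (Sum.inr ())))
          (var (Sum.inr ())))) (Sum.elim (Sum.elim (Sum.elim (Sum.elim y e) i) j) c) ↔
          (ψ.Realize (Sum.elim y fun _ : Unit => c ()) →
          rvEq O.valuation (i () - c ()) (j () - c ()))) := by
        intro c
        rw [Formula.realize_imp, Formula.realize_relabel, chi_realize_rv3]
        have : (Sum.elim (Sum.elim (Sum.elim (Sum.elim y e) i) j) c ∘ Sum.elim
            (fun i => Sum.inl (Sum.inl (Sum.inl (Sum.inl i)))) (fun _ => Sum.inr ())) =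
            Sum.elim y fun _ : Unit => c () := by
          funext k
          rcases k with k | k <;> rfl
        rw [this]
        rfl
      refine imp_congr ?_ (iff_congr ?_ ?_)
      · constructor
        · intro h c hc
          exact (key2 fun _ => c).mp (h fun _ => c) hc
        · intro h c
          exact (key2 c).mpr fun hc => h (c ()) hc
      · have : (Sum.elim (Sum.elim (Sum.elim y e) i) j ∘ Sum.elim
            (fun i => Sum.inl (Sum.inl (Sum.inl i)))
            (Sum.elim (fun j => Sum.inl (Sum.inl (Sum.inr j))) (fun _ => Sum.inl (Sum.inr ())))) =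
            Sum.elim y (Sum.elim e fun _ : Unit => i ()) := by
          funext k
          rcases k with k | k | k <;> rfl
        rw [this]
      · have : (Sum.elim (Sum.elim (Sum.elim y e) i) j ∘ Sum.elim
            (fun i => Sum.inl (Sum.inl (Sum.inl i)))
            (Sum.elim (fun j => Sum.inl (Sum.inl (Sum.inr j))) (fun _ => Sum.inr ()))) =
            Sum.elim y (Sum.elim e fun _ : Unit => j ()) := by
          funext k
          rcases k with k | k | k <;> rfl
        rw [this]
    unfold Prep
    constructor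
    · intro h x x' hc
      have h1 := h fun _ => x
      rw [Formula.realize_iAlls] at h1
      exact (key (fun _ => x) (fun _ => x')).mp (h1 fun _ => x') hc
    · intro h i
      rw [Formula.realize_iAlls]
      intro j
      exact (key i j).mpr fun hc => h (i ()) (j ()) hc

theorem exists_inv (L : FirstOrder.Language.{u, v}) [Sym L] {ι₁ ι₂ : Type} [Finite ι₁] [Finite ι₂]
    (φ : L.Formula (ι₁ ⊕ (ι₂ ⊕ Unit))) :
    ∃ θ : L.Sentence, ∀ (K : Type w) [L.Structure K] [Field K] (O : ValuationSubring K)
      [IsVF L K O], K ⊨ θ ↔ ∀ (y : ι₁ → K) (e e' : ι₂ → K),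
        (∀ i, rvEq O.valuation (e i) (e' i)) → ∀ x : K,
          φ.Realize (Sum.elim y (Sum.elim e fun _ => x)) →
          φ.Realize (Sum.elim y (Sum.elim e' fun _ => x)) := by
  let B : Type := ι₁ ⊕ (ι₂ ⊕ (ι₂ ⊕ Unit))
  let body : L.Formula (Empty ⊕ B) :=
    (Formula.iInf fun i : ι₂ => (chi_rv2 (var (Sum.inr (Sum.inr (Sum.inl i))))
      (var (Sum.inr (Sum.inr (Sum.inr (Sum.inl i))))) : L.Formula (Empty ⊕ B))).imp
    ((φ.relabel (Sum.elim (fun i => Sum.inr (Sum.inl i)) (Sum.elim
      (fun j => Sum.inr (Sum.inr (Sum.inl j)))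
      (fun _ => Sum.inr (Sum.inr (Sum.inr (Sum.inr ()))))))).imp
    (φ.relabel (Sum.elim (fun i => Sum.inr (Sum.inl i)) (Sum.elim
      (fun j => Sum.inr (Sum.inr (Sum.inr (Sum.inl j))))
      (fun _ => Sum.inr (Sum.inr (Sum.inr (Sum.inr ()))))))))
  refine ⟨Formula.iAlls B body, ?_⟩
  intro K _ _ O _
  show Formula.Realize (Formula.iAlls B body) _ ↔ _
  rw [Formula.realize_iAlls]
  have key : ∀ (d : Empty → K) (b : B → K), Formula.Realize body (Sum.elim d b) ↔
      ((∀ i, rvEq O.valuation (b (Sum.inr (Sum.inl i))) (b (Sum.inr (Sum.inr (Sum.inl i))))) →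
        φ.Realize (Sum.elim (fun i => b (Sum.inl i)) (Sum.elim (fun j => b (Sum.inr (Sum.inl j)))
          fun _ : Unit => b (Sum.inr (Sum.inr (Sum.inr ()))))) →
        φ.Realize (Sum.elim (fun i => b (Sum.inl i)) (Sum.elim
          (fun j => b (Sum.inr (Sum.inr (Sum.inl j))))
          fun _ : Unit => b (Sum.inr (Sum.inr (Sum.inr ())))))) := by
    intro d b
    show Formula.Realize (Formula.imp _ (Formula.imp _ _)) _ ↔ _
    rw [Formula.realize_imp, Formula.realize_imp, Formula.realize_iInf, Formula.realize_relabel,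
      Formula.realize_relabel]
    refine imp_congr (forall_congr' fun i => ?_) (imp_congr ?_ ?_)
    · rw [chi_realize_rv2]
      rfl
    · have : (Sum.elim d b ∘ Sum.elim (fun i => Sum.inr (Sum.inl i)) (Sum.elim
          (fun j => Sum.inr (Sum.inr (Sum.inl j)))
          (fun _ => Sum.inr (Sum.inr (Sum.inr (Sum.inr ())))))) =
          (Sum.elim (fun i => b (Sum.inl i)) (Sum.elim (fun j => b (Sum.inr (Sum.inl j)))
          fun _ : Unit => b (Sum.inr (Sum.inr (Sum.inr ()))))) := by
        funext k
        rcases k with k | k | k <;> rfl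
      rw [this]
    · have : (Sum.elim d b ∘ Sum.elim (fun i => Sum.inr (Sum.inl i)) (Sum.elim
          (fun j => Sum.inr (Sum.inr (Sum.inr (Sum.inl j))))
          (fun _ => Sum.inr (Sum.inr (Sum.inr (Sum.inr ())))))) =
          (Sum.elim (fun i => b (Sum.inl i)) (Sum.elim
          (fun j => b (Sum.inr (Sum.inr (Sum.inl j))))
          fun _ : Unit => b (Sum.inr (Sum.inr (Sum.inr ()))))) := by
        funext k
        rcases k with k | k | k <;> rfl
      rw [this]
  constructor
  · intro h y e e' he x hx
    exact (key _ (Sum.elim y (Sum.elim e (Sum.elim e' fun _ => x)))).mp (h _) he hx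
  · intro h b
    exact (key _ b).mpr fun he hx => h _ _ _ he _ hx

end Pool.Agent.HM
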