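import Pool.Agent.HM.Core

/-! RV-codes of the elements of finite sets in definable families (MP_f2b4e1_lc, row CM-2). -/

universe u v w

namespace Pool.Agent.HM

open FirstOrder FirstOrder.Language

section pure

variable {K : Type*} [Field K]

/-- the mean of a finite set -/
noncomputable def mean (S : Set K) : K := (∑ᶠ s ∈ S, s) / (S.ncard : K)

theorem mean_range {k : ℕ} {t : Fin k → K} (ht : Function.Injective t) {S : Set K}
    (hS : ∀ x, x ∈ S ↔ ∃ i, t i = x) : mean S = (∑ i, t i) / (k : K) := by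
  have e : S = Set.range t := by
    ext x
    rw [hS]
    rfl
  have e2 : (Set.range t).ncard = k := by
    rw [← Set.image_univ, Set.ncard_image_of_injective _ ht, Set.ncard_univ]
    simp
  rw [mean, e, finsum_mem_range ht, finsum_eq_sum_of_fintype, e2]

omit [Field K] in
theorem Small.exists_enum {M : ℕ} {S : Set K} (h : Small M S) :
    ∃ (k : Fin (M + 1)) (t : Fin (k : ℕ) → K), Function.Injective t ∧
      ∀ x, x ∈ S ↔ ∃ i, t i = x := by
  have hf : S.Finite := h.finite
  obtain ⟨t0, ht0⟩ := h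
  have hle : Nat.card S ≤ M := by
    have h1 : S ⊆ t0 '' Set.univ := fun x hx => by
      obtain ⟨i, hi⟩ := ht0 x hx
      exact ⟨i, trivial, hi⟩
    have h2 : S.ncard ≤ (t0 '' Set.univ).ncard :=
      Set.ncard_le_ncard h1 (Set.toFinite _)
    have h3 : (t0 '' Set.univ).ncard ≤ (Set.univ : Set (Fin M)).ncard :=
      Set.ncard_image_le (Set.toFinite _)
    rw [Set.ncard_univ, Nat.card_eq_fintype_card, Fintype.card_fin] at h3
    exact h2.trans h3
  have : Finite S := hf
  let e := Finite.equivFin S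
  refine ⟨⟨Nat.card S, Nat.lt_succ_of_le hle⟩, fun i => (e.symm i : K), ?_, ?_⟩
  · intro i j hij
    exact e.symm.injective (Subtype.ext hij)
  · intro x
    constructor
    · intro hx
      exact ⟨e ⟨x, hx⟩, congrArg Subtype.val (e.symm_apply_apply ⟨x, hx⟩)⟩
    · rintro ⟨i, rfl⟩
      exact (e.symm i).2

omit [Field K] in
theorem Small.of_omit {M : ℕ} {S D : Set K} (h : Small (M + 1) S) {s : K} (hs : s ∈ S)
    (hD : D ⊆ S) (hsD : s ∉ D) : Small M D := by
  obtain ⟨t, ht⟩ := h
  obtain ⟨i0, hi0⟩ := ht s hs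
  refine ⟨fun j => t (i0.succAbove j), fun x hx => ?_⟩
  obtain ⟨i, hi⟩ := ht x (hD hx)
  have hne : i ≠ i0 := by
    rintro rfl
    exact hsD (by rw [← hi0, hi]; exact hx)
  obtain ⟨j, hj⟩ := Fin.exists_succAbove_eq hne
  exact ⟨j, (congrArg t hj).trans hi⟩

/-- the mean of a set with at most one element is this element -/
theorem mean_of_small_one {S : Set K} (h : Small 1 S) {s : K} (hs : s ∈ S) : mean S = s := by
  have hS : ∀ x, x ∈ S ↔ ∃ i : Fin 1, (fun _ : Fin 1 => s) i = x := by
    obtain ⟨t, ht⟩ := h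
    intro x
    constructor
    · intro hx
      obtain ⟨i, hi⟩ := ht x hx
      obtain ⟨j, hj⟩ := ht s hs
      have : i = j := Subsingleton.elim _ _
      exact ⟨0, by rw [← hi, this, hj]⟩
    · rintro ⟨i, rfl⟩
      exact hs
  rw [mean_range (t := fun _ : Fin 1 => s) (fun i j _ => Subsingleton.elim i j) hS]
  simp

variable {Γ₀ : Type*} [LinearOrderedCommGroupWithZero Γ₀] {v : Valuation K Γ₀}

/-- not all differences with the mean have the same leading term -/
theorem exists_not_rvEq_mean (hn : EqChar v) {M : ℕ} {S : Set K} (h : Small M S)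
    (h1 : ¬ Small 1 S) (κ : K) : ∃ s ∈ S, ¬ rvEq v (s - mean S) κ := by
  by_contra hcon
  push Not at hcon
  obtain ⟨k, t, ht, hS⟩ := h.exists_enum
  have hm := mean_range ht hS
  have hall : ∀ i, rvEq v (t i - mean S) κ := fun i => hcon (t i) ((hS _).2 ⟨i, rfl⟩)
  by_cases hk : (k : ℕ) = 0
  · apply h1
    refine ⟨fun _ => 0, fun x hx => ?_⟩
    obtain ⟨i, -⟩ := (hS x).1 hx
    exact absurd i.2 (by omega)
  have hkK : ((k : ℕ) : K) ≠ 0 := hn.ne hk
  have hsum : ∑ i, (t i - mean S) = 0 := by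
    rw [Finset.sum_sub_distrib, Finset.sum_const, Finset.card_univ, Fintype.card_fin,
      nsmul_eq_mul, hm, mul_div_cancel₀ _ hkK, sub_self]
  have hrv : rvEq v (∑ i, (t i - mean S)) ((k : ℕ) * κ) := by
    have h2 := rvEq_sum (v := v) hn (h := κ) (k : ℕ)
      (fun i => if h : i < (k : ℕ) then t ⟨i, h⟩ - mean S else 0) (fun i hi => by
        simp only [dif_pos hi]
        exact hall ⟨i, hi⟩)
    rw [Finset.sum_range] at h2
    simpa using h2
  rw [hsum] at hrv
  have hκ : κ = 0 := by
    have h3 := hrv.zero_left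
    rcases mul_eq_zero.1 h3 with h4 | h4
    · exact absurd h4 hkK
    · exact h4
  apply h1
  refine ⟨fun _ => mean S, fun x hx => ⟨0, ?_⟩⟩
  have h5 := hcon x hx
  rw [hκ] at h5
  exact (sub_eq_zero.1 h5.zero_right).symm

end pure

section

variable {L : FirstOrder.Language.{u, v}} {K : Type w} [L.Structure K] [Field K] [Sym L]
variable {O : ValuationSubring K} [hV : IsVF L K O]

include hV

theorem DFun.mean {Γ : Type w} [Tup K Γ] {M : ℕ} {C : Γ → Set K} (hC : DSet L K C)
    (hM : ∀ y, Small M (C y)) : DFun L K (fun y => HM.mean (C y)) := by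
  refine DFun.of_graph (P := fun y d => ∃ k : Fin (M + 1), ∃ t : Fin (k : ℕ) → K,
    (∀ i j, t i = t j → i = j) ∧ (∀ x, x ∈ C y ↔ ∃ i, t i = x) ∧
      d = (∑ i, t i) / ((k : ℕ) : K)) ?_ ?_
  · apply Dfn.exists_fin; intro _; apply Dfn.ex; apply Dfn.and; apply Dfn.forall_fin; intro _
    apply Dfn.forall_fin; intro _; apply Dfn.imp; apply Dfn.eq; apply DFun.apply; apply DFun.snd
    apply DFun.apply; apply DFun.snd; apply Dfn.const; apply Dfn.and; apply Dfn.all; apply Dfn.iff
    apply Dfn.mem; assumption; apply DFun.fst'; apply DFun.fst'; apply DFun.fst; apply DFun.snd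
    apply Dfn.exists_fin; intro _; apply Dfn.eq; apply DFun.apply; apply DFun.snd'; apply DFun.fst
    apply DFun.snd; apply Dfn.eq; apply DFun.snd'; apply DFun.fst; apply DFun.div
    apply DFun.sum_fin; intro _; apply DFun.apply; apply DFun.snd; apply DFun.natCast
  · intro y d
    constructor
    · rintro ⟨k, t, h1, h2, rfl⟩
      exact mean_range (fun i j h => h1 i j h) h2
    · rintro rfl
      obtain ⟨k, t, h1, h2⟩ := (hM y).exists_enum
      exact ⟨k, t, fun i j h => h1 h, h2, mean_range h1 h2⟩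

theorem codes_aux (hn : EqChar O.valuation) (M : ℕ) : ∀ {Γ : Type w} [Tup K Γ] {C : Γ → Set K}
    (_ : DSet L K C) (_ : ∀ y, Small M (C y)),
    ∃ (r : ℕ) (f : Γ → (Fin r → K) → K), DFun L K (fun p : Γ × (Fin r → K) => f p.1 p.2) ∧
      (∀ y κ κ', trvEq O κ κ' → f y κ = f y κ') ∧ (∀ y, ∀ s ∈ C y, ∃ κ, f y κ = s) ∧
      ∀ y y' κ, C y = C y' → f y κ = f y' κ := by
  induction M with
  | zero =>
    intro Γ _ C hC hM
    refine ⟨0, fun _ _ => 0, ?_, fun _ _ _ _ => rfl, ?_, fun _ _ _ _ => rfl⟩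
    · exact (DFun.zero : DFun L K (fun _ : Γ × (Fin 0 → K) => (0 : K)))
    · intro y s hs
      obtain ⟨t, ht⟩ := hM y
      obtain ⟨i, -⟩ := ht s hs
      exact i.elim0
  | succ M ih =>
    intro Γ _ C hC hM
    have hm : DFun L K (fun y => HM.mean (C y)) := DFun.mean hC hM
    classical
    let C' : Γ × K → Set K := fun p =>
      {s | s ∈ C p.1 ∧ rvEq O.valuation (s - HM.mean (C p.1)) p.2 ∧ ¬ Small 1 (C p.1)}
    have hs1 : Dfn L K (fun y : Γ => Small 1 (C y)) := Dfn.small hC 1
    have hC' : DSet L K C' := by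
      refine DSet.of (P := fun (p : Γ × K) (s : K) => s ∈ C p.1 ∧
        rvEq O.valuation (s - HM.mean (C p.1)) p.2 ∧ ¬ Small 1 (C p.1)) ?_
      apply Dfn.and; apply Dfn.mem; assumption; apply DFun.fst'; apply DFun.fst; apply DFun.snd
      apply Dfn.and; apply Dfn.rvEq; apply DFun.sub; apply DFun.snd; apply DFun.comp hm
      apply DFun.fst'; apply DFun.fst; apply DFun.snd'; apply DFun.fst; apply Dfn.not
      apply Dfn.comp hs1; apply DFun.fst'; apply DFun.fst
    have hM' : ∀ p, Small M (C' p) := by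
      intro p
      by_cases h1 : Small 1 (C p.1)
      · refine ⟨fun _ => 0, fun x hx => absurd h1 hx.2.2⟩
      · obtain ⟨s, hs, hs'⟩ := exists_not_rvEq_mean hn (hM p.1) h1 p.2
        exact (hM p.1).of_omit hs (fun x hx => hx.1) (fun hx => hs' hx.2.1)
    obtain ⟨r, f, hf, hinv, hcov, hset⟩ := ih hC' hM'
    refine ⟨r + 1, fun y κ => if Small 1 (C y) then HM.mean (C y)
      else f (y, κ 0) (fun i => κ i.succ), ?_, ?_, ?_, ?_⟩
    · refine DFun.of_graph (P := fun (p : Γ × (Fin (r + 1) → K)) (d : K) =>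
        (Small 1 (C p.1) ∧ HM.mean (C p.1) = d) ∨
          (¬ Small 1 (C p.1) ∧ f (p.1, p.2 0) (fun i => p.2 i.succ) = d)) ?_ ?_
      · have h1 : DFun L K (fun q : (Γ × (Fin (r + 1) → K)) × K =>
            (fun i : Fin r => q.1.2 i.succ)) := DFun.pi fun i => by
                apply DFun.apply; apply DFun.snd'; apply DFun.fst
        have h2 : DFun L K (fun q : (Γ × (Fin (r + 1) → K)) × K =>
            f (q.1.1, q.1.2 0) (fun i => q.1.2 i.succ)) := by
          refine DFun.comp2 (F := fun (g : Γ × K) (κ : Fin r → K) => f g κ) hf ?_ h1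
          apply DFun.prodMk; apply DFun.fst'; apply DFun.fst; apply DFun.apply; apply DFun.snd'
          apply DFun.fst
        have h3 : Dfn L K (fun q : (Γ × (Fin (r + 1) → K)) × K => Small 1 (C q.1.1)) :=
          Dfn.comp (P := fun y => Small 1 (C y))
            (f := fun q : (Γ × (Fin (r + 1) → K)) × K => q.1.1) hs1 (by
                apply DFun.fst'; apply DFun.fst)
        have h4 : DFun L K (fun q : (Γ × (Fin (r + 1) → K)) × K => HM.mean (C q.1.1)) :=
          DFun.comp (f := fun y => HM.mean (C y))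
            (h := fun q : (Γ × (Fin (r + 1) → K)) × K => q.1.1) hm (by
                apply DFun.fst'; apply DFun.fst)
        exact (h3.and (Dfn.eq h4 DFun.snd)).or (h3.not.and (Dfn.eq h2 DFun.snd))
      · intro p d
        by_cases h1 : Small 1 (C p.1)
        · simp [h1]
        · simp [h1]
    · intro y κ κ' h
      have h0 := trvEq_pi.1 h
      show (if Small 1 (C y) then HM.mean (C y) else f (y, κ 0) (fun i => κ i.succ))
        = (if Small 1 (C y) then HM.mean (C y) else f (y, κ' 0) (fun i => κ' i.succ))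
      split_ifs
      · rfl
      · rw [hinv (y, κ 0) (fun i => κ i.succ) (fun i => κ' i.succ)
          (trvEq_pi.2 fun i => h0 i.succ)]
        refine hset _ _ _ ?_
        ext s
        show (s ∈ C y ∧ rvEq O.valuation (s - HM.mean (C y)) (κ 0) ∧ ¬ Small 1 (C y)) ↔
          (s ∈ C y ∧ rvEq O.valuation (s - HM.mean (C y)) (κ' 0) ∧ ¬ Small 1 (C y))
        refine and_congr_right fun _ => and_congr_left fun _ => ?_
        exact ⟨fun h => h.trans (h0 0), fun h => h.trans (h0 0).symm⟩
    · intro y s hs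
      by_cases h1 : Small 1 (C y)
      · exact ⟨fun _ => 0, by simp only [if_pos h1]; exact mean_of_small_one h1 hs⟩
      · obtain ⟨κ, hκ⟩ := hcov (y, s - HM.mean (C y)) s ⟨hs, rvEq.refl _, h1⟩
        refine ⟨Fin.cons (s - HM.mean (C y)) κ, ?_⟩
        simp only [if_neg h1, Fin.cons_zero, Fin.cons_succ]
        exact hκ
    · intro y y' κ h
      show (if Small 1 (C y) then HM.mean (C y) else f (y, κ 0) (fun i => κ i.succ))
        = (if Small 1 (C y') then HM.mean (C y') else f (y', κ 0) (fun i => κ i.succ))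
      rw [h]
      split_ifs
      · rfl
      · refine hset _ _ _ ?_
        ext s
        show (s ∈ C y ∧ rvEq O.valuation (s - HM.mean (C y)) (κ 0) ∧ ¬ Small 1 (C y)) ↔
          (s ∈ C y' ∧ rvEq O.valuation (s - HM.mean (C y')) (κ 0) ∧ ¬ Small 1 (C y'))
        rw [h]

omit hV in
theorem codes [IsVF L K O] (hn : EqChar O.valuation) {Γ : Type w} [Tup K Γ] {M : ℕ}
    {C : Γ → Set K} (hC : DSet L K C) (hM : ∀ y, Small M (C y)) :
    ∃ (r : ℕ) (f : Γ → (Fin r → K) → K), DFun L K (fun p : Γ × (Fin r → K) => f p.1 p.2) ∧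
      (∀ y κ κ', trvEq O κ κ' → f y κ = f y κ') ∧ ∀ y, ∀ s ∈ C y, ∃ κ, f y κ = s := by
  obtain ⟨r, f, h1, h2, h3, -⟩ := codes_aux hn M hC hM
  exact ⟨r, f, h1, h2, h3⟩

end

end Pool.Agent.HM
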