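import Pool.Agent.HM.Core

/-! CM-5: closure properties of `Tame` (MP_f2b4e1_lc). -/

universe u v w

namespace Pool.Agent.HM

open FirstOrder FirstOrder.Language

variable {L : FirstOrder.Language.{u, v}} {K : Type w} [L.Structure K] [Field K] [Sym L]
variable {O : ValuationSubring K} [IsVF L K O]
variable {Oc : ValuationSubring K} {Γ Δ : Type w} [Tup K Γ] [Tup K Δ]

omit [Sym L] [IsVF L K O] in
theorem Tame.mono {R R' : Γ → Γ → Prop} (h : Tame L O Oc R) (hR : ∀ g g', R g g' → R' g g') :
    Tame L O Oc R' := by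
  obtain ⟨F, hF⟩ := h
  exact ⟨F, fun g g' hg => hR g g' (hF g g' hg)⟩

omit [Sym L] [IsVF L K O] in
theorem Tame.and {R R' : Γ → Γ → Prop} (h : Tame L O Oc R) (h' : Tame L O Oc R') :
    Tame L O Oc (fun g g' => R g g' ∧ R' g g') := by
  obtain ⟨F, hF⟩ := h
  obtain ⟨F', hF'⟩ := h'
  refine ⟨F ++ F', fun g g' hg => ⟨hF g g' fun G hG => hg G (List.mem_append_left _ hG),
    hF' g g' fun G hG => hg G (List.mem_append_right _ hG)⟩⟩

omit [Sym L] [IsVF L K O] in
theorem Tame.symm {R : Γ → Γ → Prop} (h : Tame L O Oc R) :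
    Tame L O Oc (fun g g' => R g' g) := by
  obtain ⟨F, hF⟩ := h
  exact ⟨F, fun g g' hg => hF g' g fun G hG e l hl hl' => (hg G hG e l hl hl').symm⟩

omit [Sym L] [IsVF L K O] in
theorem Tame.comp {R : Δ → Δ → Prop} (h : Tame L O Oc R) {f : Γ → Δ} (hf : DFun L K f) :
    Tame L O Oc (fun g g' => R (f g) (f g')) := by
  obtain ⟨F, hF⟩ := h
  let pull : GF L O Δ → GF L O Γ := fun G =>
    { m := G.m
      X := fun g e l => G.X (f g) e l
      dfn := Dfn.comp3 (P := fun (d : Δ) (e : Fin G.m → K) (l : K) => G.X d e l) G.dfn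
        (DFun.comp hf DFun.fst) DFun.snd.fst' DFun.snd.snd'
      inv := fun y e e' l l' h0 h1 h2 h3 => G.inv (f y) e e' l l' h0 h1 h2 h3 }
  refine ⟨F.map pull, fun g g' hg => hF _ _ fun G hG e l hl hl' => ?_⟩
  exact hg (pull G) (List.mem_map_of_mem hG) e l hl hl'

omit [Sym L] [IsVF L K O] in
theorem Tame.of_dfn {P : Γ → Prop} (h : Dfn L K P) :
    Tame L O Oc (fun g g' => (P g ↔ P g')) := by
  let G : GF L O Γ :=
    { m := 0
      X := fun g _ _ => P g
      dfn := Dfn.comp h DFun.fst
      inv := fun _ _ _ _ _ _ _ _ _ h => h }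
  refine ⟨[G], fun g g' hg => ?_⟩
  exact hg G (List.mem_singleton.2 rfl) (fun _ => 0) 1 (by rw [map_one]) (by rw [map_one])

theorem Tame.memOc (hO : O ≤ Oc) {f : Γ → K} (hf : DFun L K f) :
    Tame L O Oc (fun g g' => (f g ∈ Oc ↔ f g' ∈ Oc)) := by
  let G : GF L O Γ :=
    { m := 0
      X := fun g _ l => O.valuation (l * f g) ≤ 1
      dfn := Dfn.vle_one (DFun.mul DFun.snd.snd' (DFun.comp hf DFun.fst))
      inv := fun y _ _ l l' _ _ h2 _ h => by
        rw [map_mul, ← h2, ← map_mul]
        exact h }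
  have key : ∀ g, f g ∈ Oc ↔ ∃ l : K, O.valuation l ≤ 1 ∧ Oc.valuation l = 1 ∧
      O.valuation (l * f g) ≤ 1 := by
    intro g
    constructor
    · intro h
      by_cases h1 : f g ∈ O
      · refine ⟨1, by rw [map_one], by rw [map_one], ?_⟩
        rw [one_mul]
        exact (O.valuation_le_one_iff _).2 h1
      · have h0 : f g ≠ 0 := by
          intro h0
          rw [h0] at h1
          exact h1 O.zero_mem
        have h2 : 1 < O.valuation (f g) := by
          rw [← not_le]
          exact fun h => h1 ((O.valuation_le_one_iff _).1 h)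
        have h3 : O.valuation (f g)⁻¹ ≤ 1 := by
          rw [map_inv₀]
          exact inv_le_one_of_one_le₀ h2.le
        have h4 : (f g)⁻¹ ∈ Oc := hO ((O.valuation_le_one_iff _).1 h3)
        have h5 : Oc.valuation (f g)⁻¹ ≤ 1 := (Oc.valuation_le_one_iff _).2 h4
        have h6 : Oc.valuation (f g) ≤ 1 := (Oc.valuation_le_one_iff _).2 h
        refine ⟨(f g)⁻¹, h3, ?_, ?_⟩
        · refine le_antisymm h5 ?_
          rw [map_inv₀]
          exact (one_le_inv₀ (zero_lt_iff.2 ((Valuation.ne_zero_iff _).2 h0))).2 h6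
        · rw [inv_mul_cancel₀ h0, map_one]
    · rintro ⟨l, _, h2, h3⟩
      have h4 : l * f g ∈ Oc := hO ((O.valuation_le_one_iff _).1 h3)
      have h5 : Oc.valuation (l * f g) ≤ 1 := (Oc.valuation_le_one_iff _).2 h4
      rw [map_mul, h2, one_mul] at h5
      exact (Oc.valuation_le_one_iff _).1 h5
  refine ⟨[G], fun g g' hg => ?_⟩
  show f g ∈ Oc ↔ f g' ∈ Oc
  rw [key g, key g']
  refine exists_congr fun l => and_congr_right fun h1 => and_congr_right fun h2 => ?_
  exact hg G (List.mem_singleton.2 rfl) (fun _ => 0) l h1 h2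

/-- the good family `f g ~_{|l|} e` -/
theorem Tame.rvEqC (hO : O ≤ Oc) {f : Γ → K} (hf : DFun L K f) :
    Tame L O Oc (fun g g' => rvEq Oc.valuation (f g) (f g')) := by
  let G : GF L O Γ :=
    { m := 1
      X := fun g e l => rvlEq O.valuation l (f g) (e 0)
      dfn := Dfn.rvlEq DFun.snd.snd' (DFun.comp hf DFun.fst) (DFun.snd.fst'.apply 0)
      inv := fun y e e' l l' h0 h1 h2 h3 h => by
        have h3' := h3 0
        have hlt : ∀ x : K, O.valuation l * O.valuation x ≤ O.valuation x := fun x =>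
          mul_le_of_le_one_left zero_le h1
        rcases h with h | h
        · rw [h]
          rcases h3' with h3' | h3'
          · exact Or.inl h3'
          · right; rw [← h2]; exact h3'
        · have hv : O.valuation (e 0) = O.valuation (f y) := by
            have h4 : O.valuation (f y - (f y - e 0)) = O.valuation (f y) :=
              Valuation.map_sub_eq_of_lt_left _ (lt_of_lt_of_le h (hlt _))
            rw [← h4]; congr 1; ring
          right
          rw [← h2]
          rcases h3' with h3' | h3'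
          · rw [← h3']; exact h
          · have e1 : f y - e' 0 = (f y - e 0) + (e 0 - e' 0) := by ring
            rw [e1]
            exact Valuation.map_add_lt _ h (by rw [hv] at h3'; exact h3') }
  refine ⟨[G], fun g g' hg => ?_⟩
  apply rvEq.symm
  have h1 : ∀ l, O.valuation l ≤ 1 → Oc.valuation l = 1 →
      rvlEq O.valuation l (f g') (f g) := fun l hl hl' =>
    (hg G (List.mem_singleton.2 rfl) (fun _ => f g) l hl hl').1 (Or.inl rfl)
  by_cases he : f g' = f g
  · exact Or.inl he
  have hd : f g' - f g ≠ 0 := sub_ne_zero.2 he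
  have h2 : ∀ l, O.valuation l ≤ 1 → Oc.valuation l = 1 →
      O.valuation (f g' - f g) < O.valuation l * O.valuation (f g') := fun l hl hl' => by
    rcases h1 l hl hl' with h | h
    · exact absurd h he
    · exact h
  right
  by_contra hc
  rw [not_lt] at hc
  have h3 := h2 1 (by rw [map_one]) (by rw [map_one])
  rw [map_one, one_mul] at h3
  have h0 : f g' ≠ 0 := by
    intro h0
    rw [h0, map_zero] at h3
    exact absurd h3 (not_lt.2 zero_le)
  have hv0 : O.valuation (f g') ≠ 0 := (Valuation.ne_zero_iff _).2 h0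
  have hw0 : Oc.valuation (f g') ≠ 0 := (Valuation.ne_zero_iff _).2 h0
  have h4 : O.valuation ((f g' - f g) / f g') ≤ 1 := by
    rw [map_div₀]
    exact div_le_one_of_le₀ h3.le zero_le
  have h5 : Oc.valuation ((f g' - f g) / f g') ≤ 1 :=
    (Oc.valuation_le_one_iff _).2 (hO ((O.valuation_le_one_iff _).1 h4))
  have h6 : Oc.valuation ((f g' - f g) / f g') = 1 := by
    refine le_antisymm h5 ?_
    rw [map_div₀]
    exact (one_le_div₀ (zero_lt_iff.2 hw0)).2 hc
  have h7 := h2 _ h4 h6
  rw [map_div₀, div_mul_cancel₀ _ hv0] at h7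
  exact lt_irrefl _ h7

end Pool.Agent.HM
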