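import Pool.Agent.HM.Core
import Pool.Agent.HM.Codes
import Pool.Agent.HM.TameBasic

/-! The forth lemma for tame relations (MP_f2b4e1_lc, row CM-6). -/

universe u v w

namespace Pool.Agent.HM

open FirstOrder FirstOrder.Language

namespace Forth

section val

variable {K : Type*} [Field K] {Γ₀ : Type*} [LinearOrderedCommGroupWithZero Γ₀]
variable {v : Valuation K Γ₀}

theorem rvlEq_refl (l x : K) : rvlEq v l x x := Or.inl rfl

theorem rvlEq_rvEq {l x y : K} (hl : v l ≤ 1) (h : rvlEq v l x y) : rvEq v x y := by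
  rcases h with h | h
  · exact Or.inl h
  · right
    refine h.trans_le ?_
    calc v l * v x ≤ 1 * v x := by gcongr
      _ = v x := one_mul _

theorem rvlEq_symm {l x y : K} (hl : v l ≤ 1) (h : rvlEq v l x y) : rvlEq v l y x := by
  have h1 := (rvlEq_rvEq hl h).val
  rcases h with h | h
  · exact Or.inl h.symm
  · right
    rw [Valuation.map_sub_swap, ← h1]; exact h

theorem rvlEq_trans {l x y z : K} (hl : v l ≤ 1) (h : rvlEq v l x y) (h' : rvlEq v l y z) :
    rvlEq v l x z := by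
  have h1 := (rvlEq_rvEq hl h).val
  rcases h with h | h
  · rw [h]; exact h'
  rcases h' with h' | h'
  · rw [← h']; exact Or.inr h
  right
  have : x - z = (x - y) + (y - z) := by ring
  rw [this]
  exact Valuation.map_add_lt v h (by rw [h1]; exact h')

theorem rvlEq_le {l l' x y : K} (hl : v l' ≤ v l) (h : rvlEq v l' x y) : rvlEq v l x y := by
  rcases h with h | h
  · exact Or.inl h
  · right
    refine h.trans_le ?_
    gcongr

theorem PrepL_mono {l l' : K} {C C' X : Set K} (hl : v l' ≤ v l) (hC : C ⊆ C')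
    (h : PrepL v l C X) : PrepL v l' C' X :=
  fun x x' hx => h x x' fun c hc => rvlEq_le hl (hx c (hC hc))

/-- a nearest point of a finite nonempty set -/
theorem exists_nearest {C : Set K} (hC : C.Finite) (h0 : C.Nonempty) (y : K) :
    ∃ c0 ∈ C, ∀ c ∈ C, v (y - c0) ≤ v (y - c) := by
  obtain ⟨c0, h1, h2⟩ := hC.exists_minimalFor (fun c => v (y - c)) C h0
  exact ⟨c0, h1, fun c hc => by
    rcases le_total (v (y - c0)) (v (y - c)) with h | h
    · exact h
    · exact h2 hc h⟩

end val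

section

variable {L : FirstOrder.Language.{u, v}} {K : Type w} [L.Structure K] [Field K] [Sym L]
variable {O : ValuationSubring K} [IsVF L K O]
variable {Oc : ValuationSubring K} {Γ Δ : Type w} [Tup K Γ] [Tup K Δ]

/-- one set of centres and one exponent for a list of good families on `Γ × K` -/
theorem exists_common (hML : ∀ m, MLProp L K O m) (F : List (GF L O (Γ × K))) :
    ∃ (N M : ℕ) (C : Γ → Set K), 1 ≤ N ∧ DSet L K C ∧ (∀ g, Small M (C g)) ∧
      (∀ g, (0 : K) ∈ C g) ∧
      ∀ G ∈ F, ∀ g e l, l ≠ 0 → O.valuation l ≤ 1 →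
        PrepL O.valuation (l ^ N) (C g) {y | G.X (g, y) e l} := by
  induction F with
  | nil =>
    refine ⟨1, 1, fun _ => {0}, le_rfl, ?_, fun g => Small.singleton 0, fun g => rfl, ?_⟩
    · exact Dfn.eq DFun.snd DFun.zero
    · intro G hG; simp at hG
  | cons G F ih =>
    obtain ⟨N, M, C, hN, hC, hM, h0, hP⟩ := ih
    obtain ⟨N', M', C', hC', hM', hP'⟩ := hML G.m Γ (fun g e l => {y | G.X (g, y) e l})
      (Dfn.comp3 (P := G.X) G.dfn (DFun.fst.prodMk DFun.snd.snd'.snd') DFun.snd.fst'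
        DFun.snd.snd'.fst')
      (fun y e e' l l' h1 h2 h3 h4 x hx => G.inv (y, x) e e' l l' h1 h2 h3 h4 hx)
    refine ⟨N + N', M + M', fun g => C g ∪ C' g, by omega, hC.union hC',
      fun g => (hM g).union (hM' g), fun g => Or.inl (h0 g), ?_⟩
    have hpow : ∀ l : K, O.valuation l ≤ 1 → ∀ a b : ℕ, a ≤ b →
        O.valuation (l ^ b) ≤ O.valuation (l ^ a) := by
      intro l hl a b hab
      rw [map_pow, map_pow]
      exact pow_le_pow_right_of_le_one' hl hab
    intro G1 hG1 g e l hl0 hl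
    rcases List.mem_cons.1 hG1 with h | h
    · subst h
      exact PrepL_mono (hpow l hl _ _ (by omega)) (fun x hx => Or.inr hx) (hP' g e l hl0 hl)
    · exact PrepL_mono (hpow l hl _ _ (by omega)) (fun x hx => Or.inl hx) (hP G1 h g e l hl0 hl)

/-- the parameter tuple -/
def pk {r m : ℕ} (e : Fin (r + 1 + m) → K) : Fin r → K := fun i =>
  e (Fin.castAdd m (Fin.castAdd 1 i))
def pr {r m : ℕ} (e : Fin (r + 1 + m) → K) : K := e (Fin.castAdd m (Fin.natAdd r 0))
def pe {r m : ℕ} (e : Fin (r + 1 + m) → K) : Fin m → K := fun i => e (Fin.natAdd (r + 1) i)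

/-- the new family, for a family `X` that is `G.X` or its negation -/
def SX {r m : ℕ} (N : ℕ) (f : Γ → (Fin r → K) → K) (X : Γ × K → (Fin m → K) → K → Prop)
    (O : ValuationSubring K) (g : Γ) (e : Fin (r + 1 + m) → K) (l' : K) : Prop :=
  ∃ l : K, l ≠ 0 ∧ O.valuation l ≤ 1 ∧ O.valuation (l ^ N) = O.valuation l' ∧
    ∀ y : K, rvlEq O.valuation l' (pr e) (y - f g (pk e)) → X (g, y) (pe e) l

omit [Tup K Γ] [L.Structure K] [Sym L] [IsVF L K O] in
theorem SX_inv {r m N : ℕ} (hN : 1 ≤ N) {f : Γ → (Fin r → K) → K}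
    (hf : ∀ y κ κ', trvEq O κ κ' → f y κ = f y κ')
    {X : Γ × K → (Fin m → K) → K → Prop}
    (hX : ∀ y e e' l l', l ≠ 0 → O.valuation l ≤ 1 → O.valuation l = O.valuation l' →
      (∀ i, rvlEq O.valuation l (e i) (e' i)) → X y e l → X y e' l')
    (y : Γ) (e e' : Fin (r + 1 + m) → K) (l l' : K) (_h0 : l ≠ 0) (hl : O.valuation l ≤ 1)
    (hll : O.valuation l = O.valuation l')
    (he : ∀ i, rvlEq O.valuation l (e i) (e' i)) (h : SX N f X O y e l) : SX N f X O y e' l' := by
  obtain ⟨l1, h1, h2, h3, h4⟩ := h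
  refine ⟨l1, h1, h2, h3.trans hll, fun z hz => ?_⟩
  have hk : f y (pk e) = f y (pk e') := hf y _ _ fun i => rvlEq_rvEq hl (he _)
  have hz' : rvlEq O.valuation l (pr e) (z - f y (pk e)) := by
    rw [hk]
    refine rvlEq_trans hl (he _) (rvlEq_le ?_ hz)
    rw [hll]
  refine hX (y, z) (pe e) (pe e') l1 l1 h1 h2 rfl (fun i => rvlEq_le ?_ (he _)) (h4 z hz')
  rw [← h3, map_pow]
  calc O.valuation l1 ^ N ≤ O.valuation l1 ^ 1 := pow_le_pow_right_of_le_one' h2 hN
    _ = O.valuation l1 := pow_one _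

theorem SX_dfn {r m N : ℕ} {f : Γ → (Fin r → K) → K}
    (hf : DFun L K (fun p : Γ × (Fin r → K) => f p.1 p.2))
    {X : Γ × K → (Fin m → K) → K → Prop}
    (hX : Dfn L K (fun p : (Γ × K) × (Fin m → K) × K => X p.1 p.2.1 p.2.2)) :
    Dfn L K (fun p : Γ × (Fin (r + 1 + m) → K) × K => SX N f X O p.1 p.2.1 p.2.2) := by
  have hpk : DFun L K (fun e : Fin (r + 1 + m) → K => pk e) := DFun.pi fun i => DFun.id.apply _
  have hpe : DFun L K (fun e : Fin (r + 1 + m) → K => pe e) := DFun.pi fun i => DFun.id.apply _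
  have hpr : DFun L K (fun e : Fin (r + 1 + m) → K => pr e) := DFun.id.apply _
  unfold SX
  apply Dfn.ex; apply Dfn.and; apply Dfn.not; apply Dfn.eq; apply DFun.snd; apply DFun.zero
  apply Dfn.and; apply Dfn.vle_one; apply DFun.snd; apply Dfn.and; apply Dfn.veq
  apply DFun.pow; apply DFun.snd; apply DFun.snd'; apply DFun.snd'; apply DFun.fst
  apply Dfn.all; apply Dfn.imp; apply Dfn.rvlEq; apply DFun.snd'; apply DFun.snd'
  apply DFun.fst'; apply DFun.fst; apply hpr.comp; apply DFun.fst'; apply DFun.snd'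
  apply DFun.fst'; apply DFun.fst; apply DFun.sub; apply DFun.snd; apply DFun.comp2 hf
  apply DFun.fst'; apply DFun.fst'; apply DFun.fst; apply hpk.comp; apply DFun.fst'
  apply DFun.snd'; apply DFun.fst'; apply DFun.fst; apply Dfn.comp3 hX; apply DFun.prodMk
  apply DFun.fst'; apply DFun.fst'; apply DFun.fst; apply DFun.snd; apply hpe.comp
  apply DFun.fst'; apply DFun.snd'; apply DFun.fst'; apply DFun.fst; apply DFun.snd'
  apply DFun.fst

/-- the good family from a good family on `Γ × K` -/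
def GFpos {r N : ℕ} (hN : 1 ≤ N) {f : Γ → (Fin r → K) → K}
    (hfd : DFun L K (fun p : Γ × (Fin r → K) => f p.1 p.2))
    (hf : ∀ y κ κ', trvEq O κ κ' → f y κ = f y κ') (G : GF L O (Γ × K)) : GF L O Γ where
  m := r + 1 + G.m
  X := SX N f G.X O
  dfn := SX_dfn hfd G.dfn
  inv := SX_inv hN hf G.inv

/-- the good family from the negation of a good family on `Γ × K` -/
def GFneg {r N : ℕ} (hN : 1 ≤ N) {f : Γ → (Fin r → K) → K}
    (hfd : DFun L K (fun p : Γ × (Fin r → K) => f p.1 p.2))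
    (hf : ∀ y κ κ', trvEq O κ κ' → f y κ = f y κ') (G : GF L O (Γ × K)) : GF L O Γ where
  m := r + 1 + G.m
  X := SX N f (fun y e l => ¬ G.X y e l) O
  dfn := SX_dfn hfd G.dfn.not
  inv := SX_inv hN hf fun y e e' l l' h0 h1 h2 h3 h4 h5 => h4 (G.inv y e' e l' l
    (fun h => h0 (by
      have := h2; rw [h, map_zero] at this
      exact (Valuation.zero_iff _).1 this))
    (by rw [← h2]; exact h1) h2.symm
    (fun i => rvlEq_symm (by rw [← h2]; exact h1) (rvlEq_le h2.le (h3 i))) h5)

omit [Tup K Γ] [L.Structure K] [Sym L] [IsVF L K O] in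
/-- transfer of one family from `(g, y)` to `(g', y')` -/
theorem SX_transfer {r m N : ℕ} (hN : 1 ≤ N) {f : Γ → (Fin r → K) → K}
    {X : Γ × K → (Fin m → K) → K → Prop}
    (hX : ∀ y e l l', l ≠ 0 → O.valuation l ≤ 1 → O.valuation l = O.valuation l' →
      X y e l → X y e l')
    {C : Set K} {g g' : Γ} {y : K} {κ : Fin r → K} {e : Fin m → K} {l : K} (h0 : l ≠ 0)
    (hl : O.valuation l ≤ 1)
    (hP : PrepL O.valuation (l ^ N) C {y | X (g, y) e l})
    (hnear : ∀ c ∈ C, O.valuation (y - f g κ) ≤ O.valuation (y - c))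
    (hSS : ∀ E : Fin (r + 1 + m) → K, SX N f X O g E (l ^ N) → SX N f X O g' E (l ^ N))
    (h : X (g, y) e l) : X (g', f g' κ + (y - f g κ)) e l := by
  let E : Fin (r + 1 + m) → K := Fin.append (Fin.append κ (fun _ => y - f g κ)) e
  have hk : pk E = κ := by funext i; simp [pk, E]
  have hr : pr E = y - f g κ := by simp [pr, E]
  have he : pe E = e := by funext i; simp [pe, E]
  have h1 : SX N f X O g E (l ^ N) := by
    refine ⟨l, h0, hl, rfl, fun z hz => ?_⟩
    rw [he]
    rw [hr, hk] at hz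
    refine (hP y z fun c hc => ?_).1 h
    rcases hz with hz | hz
    · left; linear_combination hz
    · right
      have e1 : y - c - (z - c) = y - f g κ - (z - f g κ) := by ring
      rw [e1]
      refine hz.trans_le ?_
      have := hnear c hc
      gcongr
  obtain ⟨l1, h2, h3, h4, h5⟩ := hSS E h1
  rw [hk, hr, he] at h5
  have h6 := h5 (f g' κ + (y - f g κ)) (by left; ring)
  refine hX _ _ l1 l h2 h3 ?_ h6
  rw [map_pow, map_pow] at h4
  exact (pow_left_inj₀ zero_le zero_le (by omega)).1 h4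

end

end Forth

section

open Forth

variable {L : FirstOrder.Language.{u, v}} {K : Type w} [L.Structure K] [Field K] [Sym L]
variable {O : ValuationSubring K} [IsVF L K O]
variable {Oc : ValuationSubring K} {Γ Δ : Type w} [Tup K Γ] [Tup K Δ]

theorem Tame.forth (hn : EqChar O.valuation) (hML : ∀ m, MLProp L K O m) (hO : O ≤ Oc)
    {R : Γ × K → Γ × K → Prop} (h : Tame L O Oc R) :
    Tame L O Oc (fun g g' => ∀ y : K, ∃ y' : K, R (g, y) (g', y')) := by
  obtain ⟨F, hF⟩ := h
  obtain ⟨N, M, C, hN, hC, hM, h0, hP⟩ := exists_common hML F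
  obtain ⟨r, f, hfd, hfi, hfs⟩ := codes hn hC hM
  refine ⟨F.map (GFpos hN hfd hfi) ++ F.map (GFneg hN hfd hfi), fun g g' hgg y => ?_⟩
  obtain ⟨c0, hc0, hnear⟩ := exists_nearest (v := O.valuation) (hM g).finite ⟨0, h0 g⟩ y
  obtain ⟨κ, rfl⟩ := hfs g c0 hc0
  refine ⟨f g' κ + (y - f g κ), hF _ _ fun G hG e l hl hlc => ?_⟩
  have hl0 : l ≠ 0 := by
    rintro rfl
    simp at hlc
  have hl1 : O.valuation (l ^ N) ≤ 1 := by
    rw [map_pow]; exact pow_le_one' hl N
  have hlc1 : Oc.valuation (l ^ N) = 1 := by rw [map_pow, hlc, one_pow]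
  constructor
  · intro hx
    exact SX_transfer hN (fun y e l l' h1 h2 h3 => G.inv y e e l l' h1 h2 h3
      fun i => rvlEq_refl _ _) hl0 hl (hP G hG g e l hl0 hl) hnear
      (fun E => (hgg (GFpos hN hfd hfi G) (List.mem_append_left _ (List.mem_map_of_mem hG)) E
        (l ^ N) hl1 hlc1).1) hx
  · intro hx
    by_contra hx'
    refine SX_transfer (X := fun y e l => ¬ G.X y e l) hN ?_ hl0 hl ?_ hnear
      (fun E => (hgg (GFneg hN hfd hfi G) (List.mem_append_right _ (List.mem_map_of_mem hG)) E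
        (l ^ N) hl1 hlc1).1) hx' hx
    · intro y e l l' h1 h2 h3 h4 h5
      refine h4 (G.inv y e e l' l (fun h => h1 ?_) (by rw [← h3]; exact h2) h3.symm
        (fun i => rvlEq_refl _ _) h5)
      rw [h, map_zero] at h3
      exact (Valuation.zero_iff _).1 h3
    · intro x x' hxx
      exact not_congr (hP G hG g e l hl0 hl x x' hxx)

theorem Tame.forthN (hn : EqChar O.valuation) (hML : ∀ m, MLProp L K O m) (hO : O ≤ Oc) {n : ℕ}
    {R : Γ × (Fin n → K) → Γ × (Fin n → K) → Prop} (h : Tame L O Oc R) :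
    Tame L O Oc (fun g g' => ∀ y : Fin n → K, ∃ y' : Fin n → K, R (g, y) (g', y')) := by
  induction n with
  | zero =>
    have hf : DFun L K (fun g : Γ => (g, (fun i => i.elim0 : Fin 0 → K))) :=
      DFun.id.prodMk (DFun.pi fun i => i.elim0)
    refine (h.comp hf).mono fun g g' hg y => ⟨y, ?_⟩
    have : y = fun i => i.elim0 := Subsingleton.elim _ _
    rw [this]; exact hg
  | succ n ih =>
    have hf : DFun L K (fun p : (Γ × (Fin n → K)) × K =>
        (p.1.1, (Fin.snoc p.1.2 p.2 : Fin (n + 1) → K))) := by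
      refine DFun.fst.fst'.prodMk (DFun.pi fun i => ?_)
      refine Fin.lastCases ?_ (fun j => ?_) i
      · simpa using DFun.snd
      · simpa using DFun.fst.snd'.apply j
    refine (ih (Tame.forth hn hML hO (h.comp hf))).mono fun g g' hg y => ?_
    obtain ⟨y', hy'⟩ := hg (Fin.init y)
    obtain ⟨z', hz'⟩ := hy' (y (Fin.last n))
    refine ⟨Fin.snoc y' z', ?_⟩
    simpa using hz'

end

end Pool.Agent.HM
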