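import Pool.Agent.HM.TameBasic
import Pool.Agent.HM.Forth
import Pool.Agent.HM.Calc3

/-! MP_f2b4e1_lc, row CM-7: all `L_c`-formulas are tame (helper6). -/

universe u v w

namespace Pool.Agent.HM

open FirstOrder FirstOrder.Language

variable {L : FirstOrder.Language.{u, v}} {K : Type w} [L.Structure K] [Field K] [Sym L]
variable {O : ValuationSubring K} [IsVF L K O] {Oc : ValuationSubring K}

omit [Sym L] [IsVF L K O] in
/-- terms of `L_c` are definable functions of `L` -/
theorem form_term (Oc : ValuationSubring K) {ι : Type} [Finite ι] {n : ℕ}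
    (t : (Lc L).Term (ι ⊕ Fin n)) :
    letI := strC Oc
    DFun L K (fun g : (ι → K) × (Fin n → K) => t.realize (Sum.elim g.1 g.2)) := by
  let := strC Oc
  induction t with
  | var i =>
    rcases i with i | j
    · exact DFun.apply DFun.fst i
    · exact DFun.apply DFun.snd j
  | func f ts ih =>
    rcases f with f | f
    · refine (DFun.funMap f (DFun.pi ih)).congr fun g => ?_
      rfl
    · exact nomatch f

theorem tame_formula (hn : EqChar O.valuation) (hML : ∀ m, MLProp L K O m) (hO : O ≤ Oc)
    {ι : Type} [Finite ι] {n : ℕ} (φ : (Lc L).BoundedFormula ι n) :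
    letI := strC Oc
    Tame L O Oc (fun g g' : (ι → K) × (Fin n → K) =>
      (φ.Realize g.1 g.2 ↔ φ.Realize g'.1 g'.2)) := by
  let := strC Oc
  induction φ with
  | falsum =>
    exact Tame.of_dfn (P := fun _ => False) Dfn.false
  | equal t₁ t₂ =>
    exact Tame.of_dfn (Dfn.eq (form_term Oc t₁) (form_term Oc t₂))
  | rel R ts =>
    rcases R with R | R
    · exact Tame.of_dfn (Dfn.relMap R (DFun.pi fun i => form_term Oc (ts i)))
    · cases R
      exact Tame.memOc hO (form_term Oc (ts 0))
  | imp f₁ f₂ ih₁ ih₂ =>
    refine (ih₁.and ih₂).mono fun g g' h => ?_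
    simp only [BoundedFormula.realize_imp]
    rw [h.1, h.2]
  | @all n f ih =>
    have hs : DFun L K (fun p : ((ι → K) × (Fin n → K)) × K =>
        ((p.1.1, Fin.snoc p.1.2 p.2) : (ι → K) × (Fin (n + 1) → K))) := by
      refine DFun.prodMk DFun.fst.fst' (DFun.pi fun i => ?_)
      refine Fin.lastCases ?_ (fun j => ?_) i
      · exact DFun.snd.congr fun p => by simp
      · exact (DFun.apply DFun.fst.snd' j).congr fun p => by simp
    have h1 := ih.comp hs
    refine ((Tame.forth hn hML hO h1).and (Tame.forth hn hML hO h1).symm).mono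
      fun g g' h => ?_
    simp only [BoundedFormula.realize_all]
    constructor
    · intro h2 a
      obtain ⟨b, hb⟩ := h.2 a
      exact hb.2 (h2 b)
    · intro h2 a
      obtain ⟨b, hb⟩ := h.1 a
      exact hb.2 (h2 b)

end Pool.Agent.HM
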