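import Pool.Agent.HM.TameBasic
import Pool.Agent.HM.Forth
import Pool.Agent.HM.Form

/-! CM-8: sets definable in `L_c` over `A ∪ RV_c` are prepared for the coarse valuation
(MP_f2b4e1_lc). -/

universe u v w

namespace Pool.Agent.HM

open FirstOrder FirstOrder.Language

variable {L : FirstOrder.Language.{u, v}} {K : Type w} [L.Structure K] [Field K] [Sym L]
variable {O : ValuationSubring K} [IsVF L K O]
variable {Oc : ValuationSubring K}

omit [L.Structure K] [Sym L] [IsVF L K O] in
theorem cp_val_le (hO : O ≤ Oc) {a b : K} (h : O.valuation a ≤ O.valuation b) :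
    Oc.valuation a ≤ Oc.valuation b := ValuationSubring.monotone_mapOfLE O Oc hO h

omit [Sym L] [IsVF L K O] in
theorem cp_forall_fin {Γ : Type w} [Tup K Γ] {n : ℕ} {R : Fin n → Γ → Γ → Prop}
    (h : ∀ i, Tame L O Oc (R i)) : Tame L O Oc (fun g g' => ∀ i, R i g g') := by
  choose F hF using h
  exact ⟨(List.finRange n).flatMap F, fun g g' hg i => hF i g g' (fun G hG =>
    hg G (List.mem_flatMap.2 ⟨i, List.mem_finRange i, hG⟩))⟩

omit [Field K] [Sym L] in
theorem cp_definable {p : ℕ} {C : (Fin p → K) → Set K} (hC : DSet L K C) {A : Set K}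
    (a : Fin p → K) (ha : ∀ i, a i ∈ A) : A.Definable₁ L (C a) := by
  obtain ⟨φ, hφ⟩ := (hC : Dfn L K _).exists_formula
  refine Set.definable_iff_exists_formula_sum.2
    ⟨φ.relabel (Sum.elim (fun i => Sum.inl ⟨a i, ha i⟩) (fun _ => Sum.inr 0)), ?_⟩
  ext x
  have h1 := hφ (a, x 0)
  simp only [Set.mem_ofPred_eq, Formula.realize_relabel]
  refine h1.trans (iff_of_eq (congrArg _ ?_))
  funext i
  rcases i with i | i <;> rfl

omit [Field K] [Sym L] in
theorem cp_dset {ι : Type*} {p : ℕ} (l : List ι) (C : ι → (Fin p → K) → Set K)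
    (hC : ∀ i, DSet L K (C i)) : DSet L K (fun a => {x | ∃ i ∈ l, x ∈ C i a}) := by
  induction l with
  | nil =>
    refine DSet.of ((Dfn.const False).congr fun p => ?_)
    simp
  | cons j l ih =>
    have h1 : Dfn L K (fun p : (Fin _ → K) × K => p.2 ∈ C j p.1) := hC j
    have h2 : Dfn L K (fun p : (Fin _ → K) × K => ∃ i ∈ l, p.2 ∈ C i p.1) := ih
    refine DSet.of ((h1.or h2).congr fun p => ?_)
    simp

theorem coarse_prep (hn : EqChar O.valuation) (hML : ∀ m, MLProp L K O m) (hO : O ≤ Oc)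
    (A X : Set K) (l : K) (hl : Oc.valuation l ≤ 1)
    (hX : letI := strC Oc; DefOver (Lc L) Oc l 0 A X) :
    letI := strC Oc
    ∃ C : Set K, C.Finite ∧ A.Definable₁ (Lc L) C ∧ PrepL Oc.valuation l C X := by
  let := strC Oc
  obtain ⟨n, z, w, Z, hZ, hX⟩ := hX
  obtain ⟨A0, hA0, hZ0⟩ := Set.definable_iff_finitely_definable.1 hZ
  rw [Set.definable_iff_exists_formula_sum] at hZ0
  obtain ⟨φ, hφ⟩ := hZ0
  obtain ⟨p, ⟨e⟩⟩ := Finite.exists_equiv_fin (↥(A0 : Set K))
  set a : Fin p → K := fun i => (e.symm i : K) with ha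
  have haA : ∀ i, a i ∈ A := fun i => hA0 (e.symm i).2
  let ψ : (Lc L).Formula (Fin p ⊕ (Fin 1 ⊕ (Fin n ⊕ Fin 0))) := φ.relabel (Sum.map e id)
  have hψ : ∀ v : Fin 1 ⊕ (Fin n ⊕ Fin 0) → K, v ∈ Z ↔ ψ.Realize (Sum.elim a v) := by
    intro v
    rw [hφ]
    simp only [Set.mem_ofPred_eq, ψ, Formula.realize_relabel]
    refine iff_of_eq (congrArg _ ?_)
    funext i
    rcases i with i | i
    · simp [a]
    · rfl
  -- the tame relation
  have h1 := tame_formula (L := L) (K := K) (O := O) (Oc := Oc) hn hML hO (n := 0) ψ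
  let f : ((Fin p → K) × K) × (Fin n → K) →
      ((Fin p ⊕ (Fin 1 ⊕ (Fin n ⊕ Fin 0))) → K) × (Fin 0 → K) :=
    fun g => (Sum.elim g.1.1 (Sum.elim (fun _ => g.1.2) (Sum.elim g.2 w)), w)
  have hf : DFun L K f := by
    refine DFun.prodMk (DFun.pi ?_) (DFun.pi fun i => i.elim0)
    rintro (i | i | i | i)
    · exact DFun.fst.fst'.apply i
    · exact DFun.fst.snd'
    · exact DFun.snd.apply i
    · exact i.elim0
  have h2 := h1.comp hf
  have h3 : Tame L O Oc (fun g g' : ((Fin p → K) × K) × (Fin n → K) =>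
      ∀ i, rvEq Oc.valuation (g.2 i) (g'.2 i)) :=
    cp_forall_fin fun i => Tame.rvEqC hO (DFun.snd.apply i)
  obtain ⟨F, hF⟩ := Tame.forthN hn hML hO (h2.and h3)
  have hP : ∀ G : GF L O ((Fin p → K) × K), ∃ (N M : ℕ) (C : (Fin p → K) → Set K),
      DSet L K C ∧ (∀ y, Small M (C y)) ∧ ∀ y e l, l ≠ 0 → O.valuation l ≤ 1 →
        PrepL O.valuation (l ^ N) (C y) {x | G.X (y, x) e l} := by
    intro G
    refine hML G.m (Fin p → K) (fun y e l => {x | G.X (y, x) e l}) ?_ ?_
    · exact Dfn.comp3 (P := fun g e l => G.X g e l) G.dfn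
        (f₁ := fun p : (Fin p → K) × (Fin G.m → K) × K × K => (p.1, p.2.2.2))
        (f₂ := fun p => p.2.1) (f₃ := fun p => p.2.2.1)
        (DFun.fst.prodMk DFun.snd.snd'.snd') DFun.snd.fst' DFun.snd.snd'.fst'
    · intro y e e' l l' h0 h1 h2 h3 x hx
      exact G.inv (y, x) e e' l l' h0 h1 h2 h3 hx
  choose N M C hCd hCs hCp using hP
  refine ⟨{x | ∃ G ∈ F, x ∈ C G a}, ?_, ?_, ?_⟩
  · have h4 : {x | ∃ G ∈ F, x ∈ C G a} = ⋃ G ∈ {G | G ∈ F}, C G a := by
      ext x
      simp
    rw [h4]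
    exact Set.Finite.biUnion (List.finite_toSet F) fun G _ => (hCs G a).finite
  · have h5 : A.Definable₁ L {x | ∃ G ∈ F, x ∈ C G a} := cp_definable (cp_dset F C hCd) a haA
    exact h5.map_expansion LHom.sumInl
  · intro x x' hxx
    have h6 : ∀ G ∈ F, ∀ e l, O.valuation l ≤ 1 → Oc.valuation l = 1 →
        (G.X (a, x) e l ↔ G.X (a, x') e l) := by
      intro G hG e l' hl1 hl2
      have hl0 : l' ≠ 0 := by
        rintro rfl
        rw [map_zero] at hl2
        exact zero_ne_one hl2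
      refine hCp G a e l' hl0 hl1 x x' fun c hc => ?_
      rcases hxx c ⟨G, hG, hc⟩ with h | h
      · exact Or.inl h
      · right
        by_contra hcon
        rw [not_lt, ← map_mul] at hcon
        have h7 := cp_val_le hO hcon
        rw [map_mul, map_pow, hl2, one_pow, one_mul] at h7
        exact absurd (h.trans_le (mul_le_of_le_one_left zero_le hl)) (not_lt.2 h7)
    have h8 := hF (a, x) (a, x') h6
    have key : ∀ x x' : K, (∀ y : Fin n → K, ∃ y' : Fin n → K,
        (BoundedFormula.Realize ψ (f ((a, x), y)).1 (f ((a, x), y)).2 ↔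
          BoundedFormula.Realize ψ (f ((a, x'), y')).1 (f ((a, x'), y')).2) ∧
        ∀ i, rvEq Oc.valuation (y i) (y' i)) → (x ∈ X ↔ x' ∈ X) := by
      intro x x' h
      obtain ⟨y', hy1, hy2⟩ := h z
      have h9 : x ∈ X ↔ Sum.elim ![x] (Sum.elim z w) ∈ Z :=
        hX z w (fun i => Or.inl rfl) (fun j => j.elim0) x
      have h10 : x' ∈ X ↔ Sum.elim ![x'] (Sum.elim y' w) ∈ Z :=
        hX y' w (fun i => by
          rcases hy2 i with h | h
          · exact Or.inl h
          · right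
            rw [map_one, one_mul]
            exact h) (fun j => j.elim0) x'
      have h11 : ∀ t : K, ![t] = fun _ : Fin 1 => t := fun t => by
        funext i
        fin_cases i
        rfl
      rw [h9, h10, hψ, hψ, h11, h11]
      have h12 : w = default := funext fun i => i.elim0
      simp only [f] at hy1
      rw [Formula.Realize, Formula.Realize]
      rw [← h12]
      exact hy1
    exact key x x' h8

end Pool.Agent.HM
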