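import Pool.Agent.HM.Core
import Pool.Agent.HM.Chi

/-! CM-9b (MP_f2b4e1_lc): compactness, `HMin -> HProp`. -/

universe u v w

namespace Pool.Agent.HM

open FirstOrder FirstOrder.Language

/-- compactness for finitely many variables -/
theorem cm9_compact {L : FirstOrder.Language.{u, v}} {α : Type} (K : Type (max u v w))
    [L.Structure K] [Nonempty K] {P : Type*} (χ : P → L.Formula α)
    (h : ∀ s : Finset P, ∃ a : α → K, ∀ p ∈ s, ¬ (χ p).Realize a) :
    ∃ (K' : Type (max u v w)) (_ : L.Structure K') (_ : Nonempty K'),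
      Theory.Model K' (L.completeTheory K) ∧ ∃ a : α → K', ∀ p, ¬ (χ p).Realize a := by
  let T : Option P → (L[[α]]).Theory := fun o => o.elim
    ((L.lhomWithConstants α).onTheory (L.completeTheory K))
    (fun p => {Formula.not (Formula.equivSentence (χ p))})
  have hsat : Theory.IsSatisfiable (⋃ o, T o) := by
    rw [Theory.isSatisfiable_iUnion_iff_isSatisfiable_iUnion_finset]
    intro s
    obtain ⟨a, ha⟩ := h (Finset.eraseNone s)
    let : (constantsOn α).Structure K := constantsOn.structure a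
    have hm : K ⊨ ⋃ o ∈ s, T o := by
      rw [Theory.model_iff]
      intro φ hφ
      simp only [Set.mem_iUnion] at hφ
      obtain ⟨o, ho, hφ⟩ := hφ
      rcases o with _ | p
      · have : K ⊨ (L.lhomWithConstants α).onTheory (L.completeTheory K) :=
          (LHom.onTheory_model _ _).2 inferInstance
        exact this.realize_of_mem φ hφ
      · have hφ' : φ = Formula.not (Formula.equivSentence (χ p)) := hφ
        rw [hφ', Sentence.realize_not]
        intro hc
        exact ha p (Finset.mem_eraseNone.2 ho) ((Formula.realize_equivSentence _ _).1 hc)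
    exact Theory.Model.isSatisfiable K
  obtain ⟨M⟩ := hsat
  let M' : Theory.ModelType.{max 0 u, v, max u v w} (⋃ o, T o) := M.ulift
  refine ⟨M', (L.lhomWithConstants α).reduct M', M'.nonempty', ?_⟩
  let : L.Structure M' := (L.lhomWithConstants α).reduct M'
  have hexp : (L.lhomWithConstants α).IsExpansionOn M' := LHom.isExpansionOn_reduct _ _
  have hmod : ∀ o, ∀ φ ∈ T o, M' ⊨ φ := fun o φ hφ =>
    M'.is_model.realize_of_mem φ (Set.mem_iUnion.2 ⟨o, hφ⟩)
  refine ⟨?_, fun a => (L.con a : M'), fun p hp => ?_⟩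
  · have h1 : M' ⊨ (L.lhomWithConstants α).onTheory (L.completeTheory K) :=
      ⟨fun φ hφ => hmod none φ hφ⟩
    exact (LHom.onTheory_model _ _).1 h1
  · have h1 := hmod (some p) (Formula.not (Formula.equivSentence (χ p))) rfl
    rw [Sentence.realize_not] at h1
    exact h1 ((Formula.realize_equivSentence _ _).2 hp)

theorem cm9_rvl {K : Type*} [Field K] {Γ : Type*} [LinearOrderedCommGroupWithZero Γ]
    {v : Valuation K Γ} {x y : K} : rvlEq v 1 x y ↔ rvEq v x y := by
  unfold rvlEq rvEq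
  rw [map_one, one_mul]

/-- one point in one model -/
theorem cm9_point {L : FirstOrder.Language.{u, v}} [Sym L] {T : L.Theory}
    (h : HMin.{u, v, w} T 0) {ι₁ ι₂ : Type} [Finite ι₂]
    (φ : L.Formula (ι₁ ⊕ (ι₂ ⊕ Unit)))
    (K : Type (max u v w)) [L.Structure K] [Field K] (O : ValuationSubring K) [IsVF L K O]
    (hK : T.Model K)
    (hinv : ∀ (y : ι₁ → K) (e e' : ι₂ → K), (∀ i, rvEq O.valuation (e i) (e' i)) → ∀ x : K,
      φ.Realize (Sum.elim y (Sum.elim e fun _ => x)) →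
      φ.Realize (Sum.elim y (Sum.elim e' fun _ => x)))
    (y : ι₁ → K) (e : ι₂ → K) :
    ∃ (ψ : L.Formula (ι₁ ⊕ Unit)) (N : ℕ), Small N {x | ψ.Realize (Sum.elim y fun _ => x)} ∧
      Prep O.valuation {x | ψ.Realize (Sum.elim y fun _ => x)}
        {x | φ.Realize (Sum.elim y (Sum.elim e fun _ => x))} := by
  obtain ⟨n, ⟨eqv⟩⟩ := Finite.exists_equiv_fin ι₂
  let A : Set K := Set.range y
  let Z : Set (Fin 1 ⊕ (Fin n ⊕ Fin 0) → K) := {u | φ.Realize (Sum.elim y (Sum.elim
    (fun j => u (Sum.inr (Sum.inl (eqv j)))) fun _ => u (Sum.inl 0)))}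
  have hZ : A.Definable L Z := by
    rw [Set.definable_iff_exists_formula_sum]
    let σ : ι₁ ⊕ (ι₂ ⊕ Unit) → A ⊕ (Fin 1 ⊕ (Fin n ⊕ Fin 0)) :=
      Sum.elim (fun i => Sum.inl ⟨y i, Set.mem_range_self i⟩) (Sum.elim
      (fun j => Sum.inr (Sum.inr (Sum.inl (eqv j)))) fun _ => Sum.inr (Sum.inl 0))
    refine ⟨φ.relabel σ, ?_⟩
    ext u
    rw [Set.mem_ofPred_eq, Set.mem_ofPred_eq, Formula.realize_relabel]
    have : (Sum.elim (fun a : A => (a : K)) u ∘ σ) =
      Sum.elim y (Sum.elim (fun j => u (Sum.inr (Sum.inl (eqv j)))) fun _ => u (Sum.inl 0)) := by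
      funext k
      rcases k with k | k | k <;> rfl
    rw [this]
  have hD : DefOver L O 1 0 A {x | φ.Realize (Sum.elim y (Sum.elim e fun _ => x))} := by
    refine ⟨n, e ∘ eqv.symm, Fin.elim0, Z, hZ, ?_⟩
    intro z' w' hz _ x
    have hz' : ∀ i, rvEq O.valuation (e i) (z' (eqv i)) := by
      intro i
      have := cm9_rvl.1 (hz (eqv i))
      simpa using this
    constructor
    · intro hx
      exact hinv y e (fun j => z' (eqv j)) hz' x hx
    · intro hx
      exact hinv y (fun j => z' (eqv j)) e (fun i => (hz' i).symm) x hx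
  obtain ⟨C, hCfin, hCdef, hCprep⟩ := h K O hK 1 one_ne_zero (by rw [map_one]) A _ hD
  obtain ⟨N, hN⟩ := Small.of_finite hCfin
  rw [Set.Definable₁, Set.definable_iff_exists_formula_sum] at hCdef
  obtain ⟨ψ0, hψ0⟩ := hCdef
  have hsel : ∀ a : A, ∃ i, y i = a := fun a => a.2
  choose sel hsel using hsel
  let τ : A ⊕ Fin 1 → ι₁ ⊕ Unit := Sum.elim (fun a => Sum.inl (sel a)) fun _ => Sum.inr ()
  have hψ : {x | (ψ0.relabel τ).Realize (Sum.elim y fun _ => x)} = C := by
    ext x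
    rw [Set.mem_ofPred_eq, Formula.realize_relabel]
    have h1 : (Sum.elim y (fun _ : Unit => x) ∘ τ) =
        Sum.elim (fun a : A => (a : K)) (fun _ : Fin 1 => x) := by
      funext k
      rcases k with k | k
      · exact hsel k
      · rfl
    rw [h1]
    have h2 : (fun _ : Fin 1 => x) ∈ {s : Fin 1 → K | s 0 ∈ C} ↔
      ψ0.Realize (Sum.elim (fun a : A => (a : K)) (fun _ : Fin 1 => x)) := by
      rw [hψ0]
      rfl
    exact h2.symm
  refine ⟨ψ0.relabel τ, N, ?_, ?_⟩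
  · rw [hψ]; exact hN
  · rw [hψ]
    intro x x' hx
    exact hCprep x x' fun c hc => cm9_rvl.2 (hx c hc)

theorem cm9_small {K P : Type*} [Field K] (n : P → ℕ) (E : P → Set K) (s : Finset P) :
    Small (∑ p ∈ s, n p) {x | ∃ p : s, Small (n p) (E p) ∧ x ∈ E p} := by
  classical
  induction s using Finset.induction_on with
  | empty =>
    refine ⟨fun _ => 0, ?_⟩
    rintro x ⟨⟨p, hp⟩, _⟩
    exact absurd hp (Finset.notMem_empty p)
  | insert a s ha ih =>
    rw [Finset.sum_insert ha]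
    have h1 : Small (n a) {x | Small (n a) (E a) ∧ x ∈ E a} := by
      by_cases h : Small (n a) (E a)
      · exact h.mono fun x hx => hx.2
      · exact ⟨fun _ => 0, fun x hx => absurd hx.1 h⟩
    refine (h1.union ih).mono ?_
    rintro x ⟨⟨p, hp⟩, hx1, hx2⟩
    rcases Finset.mem_insert.1 hp with hp | hp
    · left
      subst hp
      exact ⟨hx1, hx2⟩
    · right
      exact ⟨⟨p, hp⟩, hx1, hx2⟩

theorem hprop_of_hmin {L : FirstOrder.Language.{u, v}} [Sym L] {T : L.Theory}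
    (hT : EqCharZeroTheory.{u, v, w} T) (h : HMin.{u, v, w} T 0)
    (K : Type (max u v w)) [L.Structure K] [Field K] (O : ValuationSubring K) [IsVF L K O]
    (hK : T.Model K) : HProp L K O := by
  intro Γ Δ _ _ X hX hinv
  obtain ⟨φ, hφ⟩ := hX.exists_formula
  let ι₁ : Type := Tup.ι K Γ
  let ι₂ : Type := Tup.ι K Δ
  let φ' : L.Formula (ι₁ ⊕ (ι₂ ⊕ Unit)) := φ
  have hφ1 : ∀ (y : Γ) (e : Δ) (x : K), x ∈ X y e ↔
      φ'.Realize (Sum.elim (Tup.e (K := K) y) (Sum.elim (Tup.e (K := K) e) fun _ => x)) :=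
    fun y e x => hφ (y, e, x)
  have hφ2 : ∀ (y : ι₁ → K) (e : ι₂ → K) (x : K),
      x ∈ X ((Tup.e (K := K)).symm y) ((Tup.e (K := K)).symm e) ↔
      φ'.Realize (Sum.elim y (Sum.elim e fun _ => x)) := by
    intro y e x
    rw [hφ1, Equiv.apply_symm_apply, Equiv.apply_symm_apply]
  obtain ⟨θ, hθ⟩ := exists_inv.{u, v, max u v w} L φ'
  have hθK : K ⊨ θ := by
    rw [hθ K O]
    intro y e e' he x hx
    rw [← hφ2] at hx ⊢
    refine hinv _ _ _ ?_ x hx
    intro i
    rw [Equiv.apply_symm_apply, Equiv.apply_symm_apply]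
    exact he i
  choose χ hχ using fun p : L.Formula (ι₁ ⊕ Unit) × ℕ =>
    exists_chi.{u, v, max u v w} L φ' p.1 p.2
  have hfin : ∃ s : Finset (L.Formula (ι₁ ⊕ Unit) × ℕ), ∀ (y : ι₁ → K) (e : ι₂ → K),
      ∃ p ∈ s, (χ p).Realize (Sum.elim y e) := by
    by_contra hcon
    push Not at hcon
    obtain ⟨K', sK', nK', hK', a, ha⟩ := cm9_compact K χ (fun s => by
      obtain ⟨y, e, h1⟩ := hcon s
      exact ⟨Sum.elim y e, h1⟩)
    have hT' : T.Model K' := hK'.mono (Theory.model_iff_subset_completeTheory.1 hK)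
    obtain ⟨F', O', hO', _⟩ := hT K' hT'
    have hθ' : K' ⊨ θ := hK'.realize_of_mem θ ((mem_completeTheory (φ := θ)).2 hθK)
    obtain ⟨ψ, N, h1, h2⟩ := cm9_point h φ' K' O' hT' ((hθ K' O').1 hθ')
      (fun i => a (Sum.inl i)) (fun i => a (Sum.inr i))
    have h3 := (hχ (ψ, N) K' O' _ _).2 ⟨h1, h2⟩
    have h4 : (Sum.elim (fun i => a (Sum.inl i)) (fun i => a (Sum.inr i))) = a := by
      funext k
      rcases k with k | k <;> rfl
    rw [h4] at h3
    exact ha (ψ, N) h3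
  obtain ⟨s, hs⟩ := hfin
  let D : (L.Formula (ι₁ ⊕ Unit) × ℕ) → Γ → Set K :=
    fun p y => {x | p.1.Realize (Sum.elim (Tup.e (K := K) y) fun _ => x)}
  have hD : ∀ p, DSet L K (D p) := fun p => Dfn.of_formula p.1 (fun g => Iff.rfl)
  refine ⟨∑ p ∈ s, p.2, fun y => {x | ∃ p : s, Small p.1.2 (D p.1 y) ∧ x ∈ D p.1 y}, ?_, ?_, ?_⟩
  · have h1 : ∀ p : s, Dfn L K (fun g : Γ × K => Small p.1.2 (D p.1 g.1) ∧ g.2 ∈ D p.1 g.1) :=
      fun p => (Dfn.comp (Dfn.small (hD p.1) p.1.2) DFun.fst).and (hD p.1)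
    exact Dfn.exists_fin h1
  · intro y
    exact cm9_small (fun p : L.Formula (ι₁ ⊕ Unit) × ℕ => p.2) (fun p => D p y) s
  · intro y e
    obtain ⟨p, hp, hr⟩ := hs (Tup.e (K := K) y) (Tup.e (K := K) e)
    obtain ⟨h1, h2⟩ := (hχ p K O _ _).1 hr
    intro x x' hx
    rw [hφ1, hφ1]
    exact h2 x x' fun c hc => hx c ⟨⟨p, hp⟩, h1, hc⟩

end Pool.Agent.HM
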