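import Pool.Agent.HM.Local

/-! The local theorem, part 2: slopes. -/

namespace Pool.Agent.HM

variable {K : Type*} [Field K] {Γ : Type*} [LinearOrderedCommGroupWithZero Γ]
variable {v : Valuation K Γ}

/-- hypotheses on `f` and the finite set `D0` -/
structure Loc (v : Valuation K Γ) (f : K → K) (D0 : Set K) : Prop where
  hn : EqChar v
  P0 : ∀ a h, Prep v D0 {z | ∀ a1, rvEq v a a1 → rvEq v (f (z + a1) - f z) h}
  A2 : ∀ b z, ∃ C : Set K, C.Finite ∧ ∀ h, Prep v C
    {a | rvEq v ((f (z + a) - b * (z + a)) - (f z - b * z)) h}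

theorem Loc.A1 {f : K → K} {D0 : Set K} (L : Loc v f D0) :
    ∀ z, ∃ C : Set K, C.Finite ∧ ∀ h, Prep v C {a | rvEq v (f (z + a) - f z) h} := by
  intro z
  simpa using L.A2 0 z

theorem Loc.J {f : K → K} {D0 : Set K} (L : Loc v f D0) {z z' a a' : K}
    (hz : Near v D0 z (z' - z)) (ha : Near v D0 z a) (haa : rvEq v a a') :
    rvEq v (f (z + a) - f z) (f (z' + a') - f z') := stepJ L.hn L.P0 L.A1 hz ha haa

theorem Loc.J0 {f : K → K} {D0 : Set K} (L : Loc v f D0) {z a a' : K}
    (ha : Near v D0 z a) (haa : rvEq v a a') :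
    rvEq v (f (z + a) - f z) (f (z + a') - f z) := by
  apply L.J _ ha haa
  apply ha.of_le; simp

theorem Loc.J1 {f : K → K} {D0 : Set K} (L : Loc v f D0) {z z' a : K}
    (hz : Near v D0 z (z' - z)) (ha : Near v D0 z a) :
    rvEq v (f (z + a) - f z) (f (z' + a) - f z') := L.J hz ha (rvEq.refl _)

theorem Loc.mul {f : K → K} {D0 : Set K} (L : Loc v f D0) {z a : K}
    (ha : Near v D0 z a) (n : ℕ) :
    rvEq v (f (z + n * a) - f z) (n * (f (z + a) - f z)) := by
  rw [telescope f z a n]
  apply rvEq_sum L.hn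
  intro i _
  apply rvEq.symm
  apply L.J1 _ ha
  apply ha.of_le
  rw [add_sub_cancel_left]
  exact L.hn.val_mul_le _ _

/-- Step 2: the slope is locally constant to the left -/
theorem Loc.slope {f : K → K} {D0 : Set K} (L : Loc v f D0) {z a0 : K}
    (ha0 : Near v D0 z a0) (hne : f (z + a0) - f z ≠ 0) :
    ∃ t, v t < v a0 ∧ ∀ a', a' ≠ 0 → v t ≤ v a' → v a' < v a0 →
      rvEq v (f (z + a') - f z) (((f (z + a0) - f z) / a0) * a') := by
  have ha : a0 ≠ 0 := by
    intro h; apply hne; rw [h]; simp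
  set b := (f (z + a0) - f z) / a0 with hb
  have hb0 : b ≠ 0 := div_ne_zero hne ha
  have hba : b * a0 = f (z + a0) - f z := by rw [hb]; field_simp
  obtain ⟨C, hCf, hCP⟩ := L.A2 b z
  obtain ⟨n, hn0, hnC⟩ := exists_good_mul L.hn hCf ha
  set η := (f (z + n * a0) - b * (z + n * a0)) - (f z - b * z) with hη
  have hgood : ∀ a1, rvEq v (n * a0) a1 →
      rvEq v ((f (z + a1) - b * (z + a1)) - (f z - b * z)) η := by
    intro a1 h1
    exact (hCP η (n * a0) a1 (rvEq_of_class hnC h1)).1 (rvEq.refl _)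
  have hba0 : v (b * a0) ≠ 0 := (Valuation.ne_zero_iff v).2 (mul_ne_zero hb0 ha)
  -- the size of `η`
  have hηlt : v η < v (b * a0) := by
    have h1 := L.mul ha0 n
    rw [← hba] at h1
    have e : η = (f (z + n * a0) - f z) - n * (b * a0) := by rw [hη]; ring
    have h2 := h1.symm
    rcases h2 with h2 | h2
    · rw [e, ← h2, sub_self, map_zero]; exact zero_lt_iff.2 hba0
    · rw [Valuation.map_sub_swap, L.hn.val_mul hn0] at h2
      rw [e]; exact h2
  refine ⟨η / b, ?_, ?_⟩
  · rw [map_div₀]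
    rw [map_mul] at hηlt
    rw [div_lt_iff₀ (zero_lt_iff.2 ((Valuation.ne_zero_iff v).2 hb0)), mul_comm]
    exact hηlt
  · intro a' ha'0 hta' ha'
    have hlt : v a' < v ((n : K) * a0) := by rw [L.hn.val_mul hn0]; exact ha'
    have h1 := hgood (n * a0 + a') (rvEq_add_of_lt hlt)
    have hba' : v (b * a') ≠ 0 := (Valuation.ne_zero_iff v).2 (mul_ne_zero hb0 ha'0)
    set z' := z + n * a0 with hz'
    have hz'near : Near v D0 z (z' - z) := by
      apply ha0.of_le; rw [hz', add_sub_cancel_left]; exact L.hn.val_mul_le _ _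
    have hsmall : v ((f (z' + a') - f z') - b * a') < v (b * a') := by
      have e : (f (z' + a') - f z') - b * a'
          = ((f (z + (n * a0 + a')) - b * (z + (n * a0 + a'))) - (f z - b * z)) - η := by
        rw [hη, hz', show z + (n : K) * a0 + a' = z + (n * a0 + a') by ring]; ring
      rw [e]
      by_cases hη0 : η = 0
      · rw [hη0] at h1
        rw [h1.zero_right, hη0, sub_self, map_zero]; exact zero_lt_iff.2 hba'
      · refine lt_of_lt_of_le (h1.sub_lt (rvEq.refl _) hη0) ?_
        have : v η = v b * v (η / b) := by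
          rw [← map_mul]; congr 1; field_simp
        rw [this, map_mul]
        gcongr
    exact (L.J1 hz'near (ha0.of_le ha'.le)).trans (rvEq_of_lt' hsmall)

end Pool.Agent.HM
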