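import Pool.Agent.HM.Calc2
import Pool.Agent.HM.Local2

/-! Core definitions for the proof of MP_f2b4e1_lc. -/

universe u v w

namespace Pool.Agent.HM

open FirstOrder FirstOrder.Language

/-- all hypotheses on `f`, `D0` used for step 3 of the local theorem -/
structure Loc2 {K : Type*} [Field K] {Γ : Type*} [LinearOrderedCommGroupWithZero Γ]
    (v : Valuation K Γ) (f : K → K) (D0 : Set K) : Prop extends Loc v f D0 where
  nt : ∃ π : K, π ≠ 0 ∧ v π < 1
  A3 : ∀ b, ∃ E : Set K, E.Finite ∧ ∀ a h, Prep v E {z | ∀ a1, rvEq v a a1 →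
    rvEq v ((f (z + a1) - b * (z + a1)) - (f z - b * z)) h}
  P8 : ∀ β c, Prep v D0 {z | ∀ b, rvEq v β b → ∃ a, v a = v c ∧ f (z + a) - f z = b * a}

/-- all hypotheses of the local theorem -/
structure LocFull {K : Type*} [Field K] {Γ : Type*} [LinearOrderedCommGroupWithZero Γ]
    (v : Valuation K Γ) (f : K → K) (D0 D : Set K) (k : ℕ) : Prop extends Loc2 v f D0 where
  D0fin : D0.Finite
  Dfin : D.Finite
  zero_mem : (0 : K) ∈ D0
  A7 : ∀ z, ∃ C : Set K, Small k C ∧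
    ∀ c, Prep v C {b | ∃ a, v a = v c ∧ f (z + a) - f z = b * a}
  PD : ∀ d ∈ D0, ∀ e, Prep v D {y | ∃ x, rvEq v e (x - d) ∧ f x = y}

/-- conclusion of the local theorem at the point `z0` -/
def LocConcl {K : Type*} [Field K] {Γ : Type*} [LinearOrderedCommGroupWithZero Γ]
    (v : Valuation K Γ) (f : K → K) (D0 D : Set K) (k : ℕ) (z0 : K) : Prop :=
  (∃ w ∈ D, ∀ a, Near v D0 z0 a → f (z0 + a) = w) ∨
  ((∀ z a, Near v D0 z0 (z - z0) → Near v D0 z0 a → ∀ n : ℕ, n ≠ 0 →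
      v (f (z + n * a) - f z) = v (f (z0 + a) - f z0)) ∧
   (∀ a, Near v D0 z0 a → a ≠ 0 → ∀ x, (∃ z, Near v D0 z0 (z - z0) ∧ f z = x) → ∀ d ∈ D0,
      ∃ d' ∈ D, v (x - d') * v a ^ k ≤ v (f (z0 + a) - f z0) * v (z0 - d) ^ k) ∧
   (∀ x, (¬ ∃ z, Near v D0 z0 (z - z0) ∧ f z = x) → ∀ z, Near v D0 z0 (z - z0) →
      ∃ d' ∈ D, v (x - d') ≤ v (x - f z)))

section

variable {K : Type w} [Field K] (O : ValuationSubring K)

/-- coordinatewise equality of leading terms -/
def trvEq {Δ : Type w} [Tup K Δ] (d d' : Δ) : Prop :=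
  ∀ i, rvEq O.valuation (Tup.e (K := K) d i) (Tup.e (K := K) d' i)

variable {O}

theorem trvEq_self {x y : K} : trvEq O x y ↔ rvEq O.valuation x y :=
  ⟨fun h => h (), fun h _ => h⟩

theorem trvEq_prod {Δ Θ : Type w} [Tup K Δ] [Tup K Θ] {p q : Δ × Θ} :
    trvEq O p q ↔ trvEq O p.1 q.1 ∧ trvEq O p.2 q.2 :=
  ⟨fun h => ⟨fun i => h (Sum.inl i), fun i => h (Sum.inr i)⟩,
   fun h i => by rcases i with i | i; exacts [h.1 i, h.2 i]⟩

theorem trvEq_pi {ι : Type} [Finite ι] {p q : ι → K} :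
    trvEq O p q ↔ ∀ i, rvEq O.valuation (p i) (q i) := Iff.rfl

theorem trvEq.symm {Δ : Type w} [Tup K Δ] {d d' : Δ} (h : trvEq O d d') : trvEq O d' d :=
  fun i => (h i).symm

theorem trvEq.refl {Δ : Type w} [Tup K Δ] (d : Δ) : trvEq O d d := fun _ => rvEq.refl _

end

section

variable (L : FirstOrder.Language.{u, v}) (K : Type w) [L.Structure K] [Field K]
variable (O : ValuationSubring K)

/-- (H): `∅`-definable families whose parameter `e` only matters through `rv e` are prepared,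
uniformly in `y` and for all `e` at once, by a `∅`-definable family of small sets. -/
def HProp : Prop :=
  ∀ (Γ Δ : Type w) [Tup K Γ] [Tup K Δ] (X : Γ → Δ → Set K),
    Dfn L K (fun p : Γ × Δ × K => p.2.2 ∈ X p.1 p.2.1) →
    (∀ y e e', trvEq O e e' → ∀ x ∈ X y e, x ∈ X y e') →
    ∃ (N : ℕ) (C : Γ → Set K), DSet L K C ∧ (∀ y, Small N (C y)) ∧
      ∀ y e, Prep O.valuation (C y) (X y e)

/-- Main lemma with `m` parameters from `RV_λ`. -/
def MLProp (m : ℕ) : Prop :=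
  ∀ (Γ : Type w) [Tup K Γ] (X : Γ → (Fin m → K) → K → Set K),
    Dfn L K (fun p : Γ × (Fin m → K) × K × K => p.2.2.2 ∈ X p.1 p.2.1 p.2.2.1) →
    (∀ y e e' l l', l ≠ 0 → O.valuation l ≤ 1 → O.valuation l = O.valuation l' →
      (∀ i, rvlEq O.valuation l (e i) (e' i)) → ∀ x ∈ X y e l, x ∈ X y e' l') →
    ∃ (N M : ℕ) (C : Γ → Set K), DSet L K C ∧ (∀ y, Small M (C y)) ∧
      ∀ y e l, l ≠ 0 → O.valuation l ≤ 1 → PrepL O.valuation (l ^ N) (C y) (X y e l)

end

section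

variable (L : FirstOrder.Language.{u, v}) {K : Type w} [L.Structure K] [Field K]
variable (O Oc : ValuationSubring K)

/-- a good family of predicates on `Γ` -/
structure GF (Γ : Type w) [Tup K Γ] where
  m : ℕ
  X : Γ → (Fin m → K) → K → Prop
  dfn : Dfn L K (fun p : Γ × (Fin m → K) × K => X p.1 p.2.1 p.2.2)
  inv : ∀ y e e' l l', l ≠ 0 → O.valuation l ≤ 1 → O.valuation l = O.valuation l' →
      (∀ i, rvlEq O.valuation l (e i) (e' i)) → X y e l → X y e' l'

/-- `R` follows from equality of the truth values of finitely many good families, for all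
parameters `e` and all units `l` of `Oc` with `|l| ≤ 1`. -/
def Tame {Γ : Type w} [Tup K Γ] (R : Γ → Γ → Prop) : Prop :=
  ∃ F : List (GF L O Γ), ∀ g g',
    (∀ G ∈ F, ∀ e l, O.valuation l ≤ 1 → Oc.valuation l = 1 → (G.X g e l ↔ G.X g' e l)) → R g g'

end

end Pool.Agent.HM
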