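import Pool.Agent.HM.Uniq

/-! MP_f2b4e1_lc: coarse h-minimality implies h-minimality. -/

universe u v w

namespace Pool.Agent.HM

open FirstOrder FirstOrder.Language

namespace RevAux

/-- the language map which reads `O_c` as `O` -/
def toL (L : FirstOrder.Language.{u, v}) [s : Sym L] : LO →ᴸ L where
  onFunction := fun {n} f => nomatch n, f
  onRelation := fun {n} r => match n, r with
    | _, CRel.c => s.O

theorem toL_exp {L : FirstOrder.Language.{u, v}} [Sym L] (K : Type w) [L.Structure K] [Field K]
    (O : ValuationSubring K) [IsVF L K O] :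
    letI := strC O
    (toL L).IsExpansionOn K := by
  let _ := strC O
  refine @LHom.IsExpansionOn.mk _ _ _ _ _ _ (fun f => nomatch f) fun {n} r x => ?_
  cases r
  have h := IsVF.mem (L := L) (K := K) (O := O) (x 0)
  have hx : x = ![x 0] := by
    funext i
    rw [Subsingleton.elim i 0]
    rfl
  apply propext
  change Structure.RelMap (Sym.O : L.Relations 1) x ↔ x 0 ∈ O
  rw [← h, ← hx]

/-- `{0}` is definable -/
theorem zero_definable {L : FirstOrder.Language.{u, v}} [Sym L] (K : Type w) [L.Structure K]
    [Field K] (O : ValuationSubring K) [IsVF L K O] (A : Set K) :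
    A.Definable₁ L ({0} : Set K) := by
  refine (Set.Definable.mono ?_ (Set.empty_subset A))
  rw [Set.empty_definable_iff]
  let t : L.Term (Fin 1) := Term.var 0
  refine ⟨Term.equal (Functions.apply₂ (Sym.add : L.Functions 2) t t) t, ?_⟩
  ext x
  have h : x 0 + x 0 = x 0 ↔ x 0 = 0 := by
    constructor
    · intro h
      simpa using h
    · intro h
      rw [h, add_zero]
  simp only [Set.mem_ofPred_eq, Set.mem_singleton_iff, Formula.realize_equal, t,
    Term.realize_functions_apply₂, Term.realize_var]
  rw [IsVF.add (L := L) (K := K) (O := O), h]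

end RevAux

open RevAux in
theorem hmin_of_coarsMin {L : FirstOrder.Language.{u, v}} [Sym L] {T : L.Theory}
    (hT : EqCharZeroTheory.{u, v, w} T) (h : CoarsMin.{u, v, w} T 0) : HMin.{u, v, w} T 0 := by
  intro K _ _ O _ hK l hl0 hl A X hX
  by_cases htop : O = ⊤
  · refine ⟨{0}, Set.finite_singleton 0, zero_definable K O A, ?_⟩
    intro x x' hx
    have h1 := hx 0 rfl
    rw [sub_zero, sub_zero] at h1
    by_cases hxx : x = x'
    · rw [hxx]
    · rcases h1 with h1 | h1
      · rw [h1]
      exfalso
      have hv : ∀ y : K, O.valuation y ≤ 1 := by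
        intro y
        rw [O.valuation_le_one_iff, htop]
        exact ValuationSubring.mem_top y
      have hne : x - x' ≠ 0 := by
        intro h2
        rw [h2, map_zero] at h1
        exact hxx (sub_eq_zero.1 h2)
      have h3 : 1 ≤ O.valuation (x - x') := by
        have h4 := hv (x - x')⁻¹
        rw [map_inv₀] at h4
        have h5 : 0 < O.valuation (x - x') := zero_lt_iff.2 ((Valuation.ne_zero_iff _).2 hne)
        exact (inv_le_one₀ h5).1 h4
      have h6 : O.valuation l * O.valuation x ≤ 1 := mul_le_one' (hv l) (hv x)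
      exact absurd (h1.trans_le h6) (not_lt.2 h3)
  · let _ := strC O
    have h0 := hT.charZero K O hK
    have h1 := h K O hK O le_rfl htop h0
    let sC : Sym (Lc L) := symC L
    have hVF : IsVF (Lc L) K O :=
      { add := fun x y => IsVF.add (L := L) (O := O) x y
        mul := fun x y => IsVF.mul (L := L) (O := O) x y
        mem := fun x => Iff.rfl }
    have hmod : ((Lc L).completeTheory K).Model K := inferInstance
    have hX' : DefOver (Lc L) O l 0 A X := by
      obtain ⟨n, z, w, Z, hZ, h2⟩ := hX
      exact ⟨n, z, w, Z, hZ.map_expansion (LHom.sumInl : L →ᴸ Lc L), h2⟩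
    obtain ⟨C, hC, hCd, hCp⟩ := h1 K O hmod l hl0 hl A X hX'
    refine ⟨C, hC, ?_, hCp⟩
    have hexp : (toL L).IsExpansionOn K := toL_exp K O
    exact Set.Definable.map_expansion hCd ((LHom.id L).sumElim (toL L))

end Pool.Agent.HM
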