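import Pool.Agent.HM.Core

/-! MP_f2b4e1_lc, CM-0: the field structure and the valuation ring of a model are unique. -/

universe u v w

namespace Pool.Agent.HM

open FirstOrder FirstOrder.Language

theorem eqChar_of_charZero {K : Type w} [Field K] (O : ValuationSubring K)
    (h : CharZero (IsLocalRing.ResidueField O)) : EqChar O.valuation := by
  intro n hn
  have h1 : IsUnit ((n : ℕ) : O) := by
    rw [← IsLocalRing.residue_ne_zero_iff_isUnit, map_natCast]
    exact Nat.cast_ne_zero.mpr hn
  have h2 := (O.valuation_eq_one_iff ((n : ℕ) : O)).mp h1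
  exact_mod_cast h2

/-- A field structure is determined by addition and multiplication. -/
theorem cm0_field_ext : ∀ (K : Type*) (F1 F2 : Field K), F1.toCommRing = F2.toCommRing → F1 = F2 := by
  intro K F1 F2 h
  rcases F1 with @⟨c1, i1, d1, z1, hd1, ha1, hb1, hc1, nt1, nn1, rc1, mi1, iz1, nd1, nq1, nqd1, rd1, q1, qd1⟩
  rcases F2 with @⟨c2, i2, d2, z2, hd2, ha2, hb2, hc2, nt2, nn2, rc2, mi2, iz2, nd2, nq2, nqd2, rd2, q2, qd2⟩
  subst h
  have e1 : i1 = i2 := by
    rcases i1 with ⟨i1⟩
    rcases i2 with ⟨i2⟩
    congr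
    funext x
    by_cases hx : x = 0
    · subst hx
      exact iz1.trans iz2.symm
    · have h1 : x * i1 x = 1 := mi1 x hx
      have h2 : x * i2 x = 1 := mi2 x hx
      calc i1 x = i1 x * (x * i2 x) := by rw [h2, mul_one]
        _ = (x * i1 x) * i2 x := by ring
        _ = i2 x := by rw [h1, one_mul]
  subst e1
  have e2 : d1 = d2 := by
    rcases d1 with ⟨d1⟩
    rcases d2 with ⟨d2⟩
    congr
    funext x y
    exact (hd1 x y).trans (hd2 x y).symm
  subst e2
  have e3 : z1 = z2 := by
    rcases z1 with ⟨z1⟩
    rcases z2 with ⟨z2⟩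
    congr
    have key : ∀ (n : ℕ) (x : K), z1 (n : ℤ) x = z2 (n : ℤ) x := by
      intro n
      induction n with
      | zero => intro x; exact (ha1 x).trans (ha2 x).symm
      | succ n ih =>
        intro x
        have h1 := hb1 n x
        have h2 := hb2 n x
        refine h1.trans (Eq.trans ?_ h2.symm)
        exact congrArg (· * x) (ih x)
    funext n x
    cases n with
    | ofNat n => exact key n x
    | negSucc n =>
      have h1 := hc1 n x
      have h2 := hc2 n x
      refine h1.trans (Eq.trans ?_ h2.symm)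
      exact congrArg (·⁻¹) (key (n + 1) x)
  subst e3
  have e4 : nn1 = nn2 := by
    rcases nn1 with ⟨nn1⟩
    rcases nn2 with ⟨nn2⟩
    congr
    funext q
    exact (nd1 q).trans (nd2 q).symm
  subst e4
  have e5 : rc1 = rc2 := by
    rcases rc1 with ⟨rc1⟩
    rcases rc2 with ⟨rc2⟩
    congr
    funext q
    exact (rd1 q).trans (rd2 q).symm
  subst e5
  have e6 : nq1 = nq2 := by
    funext q x
    exact (nqd1 q x).trans (nqd2 q x).symm
  subst e6
  have e7 : q1 = q2 := by
    funext q x
    exact (qd1 q x).trans (qd2 q x).symm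
  subst e7
  rfl

theorem EqCharZeroTheory.exists_valuationSubring {L : FirstOrder.Language.{u, v}} [Sym L]
    {T : L.Theory} (hT : EqCharZeroTheory.{u, v, w} T)
    (K : Type (max u v w)) [L.Structure K] [F : Field K]
    (hadd : ∀ x y : K, Structure.funMap (Sym.add : L.Functions 2) ![x, y] = x + y)
    (hmul : ∀ x y : K, Structure.funMap (Sym.mul : L.Functions 2) ![x, y] = x * y)
    (hK : T.Model K) :
    ∃ O : ValuationSubring K, IsVF L K O ∧ CharZero (IsLocalRing.ResidueField O) := by
  have : Nonempty K := ⟨0⟩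
  obtain ⟨F', O, hO, hc⟩ := hT K hK
  have e : F' = F := by
    apply cm0_field_ext
    apply CommRing.ext
    · funext x y
      have h1 := @IsVF.add L _ K _ F' O hO x y
      rw [hadd] at h1
      exact h1.symm
    · funext x y
      have h1 := @IsVF.mul L _ K _ F' O hO x y
      rw [hmul] at h1
      exact h1.symm
  subst e
  exact ⟨O, hO, hc⟩

theorem EqCharZeroTheory.charZero {L : FirstOrder.Language.{u, v}} [Sym L]
    {T : L.Theory} (hT : EqCharZeroTheory.{u, v, w} T)
    (K : Type (max u v w)) [L.Structure K] [Field K] (O : ValuationSubring K) [hO : IsVF L K O]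
    (hK : T.Model K) : CharZero (IsLocalRing.ResidueField O) := by
  obtain ⟨O', hO', hc⟩ := hT.exists_valuationSubring K hO.add hO.mul hK
  have e : O' = O := by
    ext x
    rw [← hO'.mem x, ← hO.mem x]
  subst e
  exact hc

end Pool.Agent.HM
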