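import Pool.Agent.HM.Core
import Pool.Agent.HM.Uniq

/-! Row CM-10 of MP_f2b4e1_lc: models of the theory of `(K, O_c)`. -/

universe u v w

namespace Pool.Agent.HM

open FirstOrder FirstOrder.Language

/-- A structure in the language `L_c` is the sum of its reduct and of `O_c`. -/
theorem cm10_struct {L : FirstOrder.Language.{u, v}} {K : Type w} (S : (Lc L).Structure K)
    [Field K] (O : ValuationSubring K)
    (hmem : ∀ x : K, @Structure.RelMap (Lc L) K S 1 (Sum.inr CRel.c) ![x] ↔ x ∈ O) :
    S = @Language.sumStructure L LO K (@LHom.reduct _ _ (LHom.sumInl : L →ᴸ Lc L) K S)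
      (strC O) := by
  refine Language.Structure.ext ?_ ?_
  · funext n f x
    rcases f with f | f
    · rfl
    · exact nomatch f
  · funext n r x
    rcases r with r | r
    · rfl
    · cases r
      have h := hmem (x 0)
      have hx : ![x 0] = x := by
        funext i
        fin_cases i
        rfl
      rw [hx] at h
      exact propext h

theorem cm10_rel {L : FirstOrder.Language.{u, v}} {K : Type w} [L.Structure K]
    (R : L.Relations 1) (x : K) :
    (Relations.boundedFormula₁ (α := Empty) (n := 1) R (&0)).Realize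
      (default : Empty → K) (Fin.snoc (default : Fin 0 → K) x) ↔ Structure.RelMap R ![x] := by
  rw [BoundedFormula.realize_rel₁]
  rfl

/-- `O ⊆ O_c` -/
def cm10_le (L : FirstOrder.Language.{u, v}) [Sym L] : (Lc L).Sentence :=
  ∀' ((Relations.boundedFormula₁ (L := Lc L) (Sum.inl (Sym.O : L.Relations 1)) (&0)).imp
    (Relations.boundedFormula₁ (L := Lc L) (Sum.inr CRel.c) (&0)))

/-- `O_c ≠ K` -/
def cm10_ne (L : FirstOrder.Language.{u, v}) : (Lc L).Sentence :=
  ∃' (Relations.boundedFormula₁ (L := Lc L) (Sum.inr CRel.c) (&0)).not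

theorem cm10_le_iff {L : FirstOrder.Language.{u, v}} [Sym L] {K : Type w}
    [S : (Lc L).Structure K] : K ⊨ cm10_le L ↔
      ∀ x : K, @Structure.RelMap (Lc L) K S 1 (Sum.inl (Sym.O : L.Relations 1)) ![x] →
        @Structure.RelMap (Lc L) K S 1 (Sum.inr CRel.c) ![x] := by
  simp only [cm10_le, Sentence.Realize, Formula.Realize, BoundedFormula.realize_all,
    BoundedFormula.realize_imp]
  exact forall_congr' fun x => imp_congr (cm10_rel _ x) (cm10_rel _ x)

theorem cm10_ne_iff {L : FirstOrder.Language.{u, v}} {K : Type w}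
    [S : (Lc L).Structure K] : K ⊨ cm10_ne L ↔
      ∃ x : K, ¬ @Structure.RelMap (Lc L) K S 1 (Sum.inr CRel.c) ![x] := by
  simp only [cm10_ne, Sentence.Realize, Formula.Realize, BoundedFormula.realize_ex,
    BoundedFormula.realize_not]
  exact exists_congr fun x => not_congr (cm10_rel _ x)

theorem transfer {L : FirstOrder.Language.{u, v}} [Sym L] {T : L.Theory}
    (hT : EqCharZeroTheory.{u, v, w} T)
    (H : ∀ (K : Type (max u v w)) [L.Structure K] [Field K] (O : ValuationSubring K) [IsVF L K O],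
      T.Model K → EqChar O.valuation → ∀ Oc : ValuationSubring K, O ≤ Oc → Oc ≠ ⊤ →
      letI := strC Oc
      ∀ l : K, l ≠ 0 → Oc.valuation l ≤ 1 → ∀ A X : Set K, DefOver (Lc L) Oc l 0 A X →
        ∃ C : Set K, C.Finite ∧ A.Definable₁ (Lc L) C ∧ PrepL Oc.valuation l C X) :
    CoarsMin.{u, v, w} T 0 := by
  intro K _ _ O hVF hK Oc hle hne hchar
  let _ := strC Oc
  intro K' S' F' O' hVF' hK' l hl0 hl A X hX
  let _ := symC L
  -- the given structure
  have hmem : ∀ x : K', @Structure.RelMap (Lc L) K' S' 1 (Sum.inr CRel.c) ![x] ↔ x ∈ O' :=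
    hVF'.mem
  let RL : L.Structure K' := @LHom.reduct _ _ (LHom.sumInl : L →ᴸ Lc L) K' S'
  have hS := cm10_struct S' O' hmem
  -- the reduct is a model of `T`
  have hTK : K' ⊨ (LHom.sumInl : L →ᴸ Lc L).onTheory T := by
    rw [Theory.model_iff]
    intro φ hφ
    refine (Theory.model_iff _).1 hK' φ ?_
    rw [mem_completeTheory]
    exact (Theory.model_iff _).1 ((LHom.onTheory_model (LHom.sumInl : L →ᴸ Lc L) T).2 hK) φ hφ
  have hTK2 : T.Model K' := (LHom.onTheory_model (LHom.sumInl : L →ᴸ Lc L) T).1 hTK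
  obtain ⟨O'', hVF'', hchar''⟩ := hT.exists_valuationSubring K' hVF'.add hVF'.mul hTK2
  have hE := eqChar_of_charZero O'' hchar''
  have hle' : O'' ≤ O' := by
    have h1 : K ⊨ cm10_le L := by
      rw [cm10_le_iff]
      intro x hx
      exact hle ((hVF.mem x).1 hx)
    have h2 : K' ⊨ cm10_le L := (Theory.model_iff _).1 hK' _ h1
    rw [cm10_le_iff] at h2
    intro x hx
    exact (hmem x).1 (h2 x ((hVF''.mem x).2 hx))
  have hne' : O' ≠ ⊤ := by
    have h1 : K ⊨ cm10_ne L := by
      rw [cm10_ne_iff]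
      by_contra hcon
      push Not at hcon
      apply hne
      ext x
      simp only [ValuationSubring.mem_top, iff_true]
      exact hcon x
    have h2 : K' ⊨ cm10_ne L := (Theory.model_iff _).1 hK' _ h1
    rw [cm10_ne_iff] at h2
    obtain ⟨x, hx⟩ := h2
    intro htop
    apply hx
    rw [hmem, htop]
    trivial
  have key := H K' O'' hTK2 hE O' hle' hne' l hl0 hl A X
  rw [hS] at hX ⊢
  exact key hX

end Pool.Agent.HM
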