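import Pool.Agent.HM.Main
import Pool.Agent.HM.CoarsePrep
import Pool.Agent.HM.Compact
import Pool.Agent.HM.Transfer
import Pool.Agent.HM.Reverse

/-! Assembly: 0-h-minimality is equivalent to coarse 0-h-minimality (MP_f2b4e1_lc). -/

universe u v w

namespace Pool.Agent.HM

open FirstOrder FirstOrder.Language

theorem mlProp_all {L : FirstOrder.Language.{u, v}} {K : Type w} [L.Structure K] [Field K]
    [Sym L] {O : ValuationSubring K} [IsVF L K O] (hH : HProp L K O) (hn : EqChar O.valuation)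
    (nt : ∃ π : K, π ≠ 0 ∧ O.valuation π < 1) (m : ℕ) : MLProp L K O m := by
  induction m with
  | zero => exact mlProp_zero hH
  | succ m ih => exact mlProp_succ hH hn nt ih

theorem exists_small_of_ne_top {K : Type w} [Field K] {O : ValuationSubring K} (h : O ≠ ⊤) :
    ∃ π : K, π ≠ 0 ∧ O.valuation π < 1 := by
  have h1 : ∃ x : K, x ∉ O := by
    by_contra hcon
    push Not at hcon
    exact h (top_unique fun x _ => hcon x)
  obtain ⟨x, hx⟩ := h1
  have h2 : 1 < O.valuation x := by
    rw [← not_le]; intro h3; exact hx ((O.valuation_le_one_iff x).1 h3)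
  have hx0 : x ≠ 0 := by rintro rfl; exact hx O.zero_mem
  refine ⟨x⁻¹, inv_ne_zero hx0, ?_⟩
  rw [map_inv₀]
  exact inv_lt_one_of_one_lt₀ h2

theorem main {L : FirstOrder.Language.{u, v}} [Sym L] (T : L.Theory)
    (hT : EqCharZeroTheory.{u, v, w} T) : HMin.{u, v, w} T 0 ↔ CoarsMin.{u, v, w} T 0 := by
  refine ⟨fun h => transfer hT ?_, hmin_of_coarsMin hT⟩
  intro K _ _ O _ hK hn Oc hO hOc l _ hl A X hX
  have hH := hprop_of_hmin hT h K O hK
  have hO1 : O ≠ ⊤ := fun h1 => hOc (top_unique (h1 ▸ hO))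
  exact coarse_prep hn (mlProp_all hH hn (exists_small_of_ne_top hO1)) hO A X l hl hX

end Pool.Agent.HM
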