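import Pool.Agent.HM.Core

/-! The hypotheses of the local theorem for definable families, from (H) (MP_f2b4e1_lc). -/

universe u v w

namespace Pool.Agent.HM

open FirstOrder FirstOrder.Language

private theorem ld_prep_mono {K : Type*} [Field K] {Γ : Type*}
    [LinearOrderedCommGroupWithZero Γ] {v : Valuation K Γ} {C C' X : Set K} (h : Prep v C X)
    (hC : C ⊆ C') : Prep v C' X :=
  fun x x' hx => h x x' fun c hc => hx c (hC hc)

section
variable {L : FirstOrder.Language.{u, v}} {K : Type w} [L.Structure K] [Field K] [Sym L]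
variable {O : ValuationSubring K} [IsVF L K O]

theorem locData (hH : HProp L K O) (hn : EqChar O.valuation)
    (nt : ∃ π : K, π ≠ 0 ∧ O.valuation π < 1) {Γ Δ : Type w} [Tup K Γ] [Tup K Δ]
    {f : Γ → Δ → K → K} (hf : DFun L K (fun p : Γ × Δ × K => f p.1 p.2.1 p.2.2))
    (hinv : ∀ y κ κ', trvEq O κ κ' → f y κ = f y κ')
    {M : ℕ} {E : Γ → Set K} (hE : DSet L K E) (hEM : ∀ y, Small M (E y)) :
    ∃ (N k : ℕ) (D0 D : Γ → Set K), DSet L K D0 ∧ DSet L K D ∧ (∀ y, Small N (D0 y)) ∧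
      (∀ y, Small N (D y)) ∧ (∀ y, E y ⊆ D0 y) ∧
      ∀ y κ, LocFull O.valuation (f y κ) (D0 y) (D y) k := by
  -- P0
  obtain ⟨Na, Ca, hCa, hCas, hCap⟩ := hH Γ (Δ × K × K)
    (fun y e => {z | ∀ a1, rvEq O.valuation e.2.1 a1 →
      rvEq O.valuation (f y e.1 (z + a1) - f y e.1 z) e.2.2}) (by
      show Dfn L K (fun p : Γ × (Δ × K × K) × K => ∀ a1, rvEq O.valuation p.2.1.2.1 a1 →
        rvEq O.valuation (f p.1 p.2.1.1 (p.2.2 + a1) - f p.1 p.2.1.1 p.2.2) p.2.1.2.2)
      apply Dfn.all; apply Dfn.imp; apply Dfn.rvEq; apply DFun.fst'; apply DFun.snd'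
      apply DFun.fst'; apply DFun.snd'; apply DFun.fst; apply DFun.snd; apply Dfn.rvEq
      apply DFun.sub; apply DFun.comp3 hf; apply DFun.fst'; apply DFun.fst; apply DFun.fst'
      apply DFun.fst'; apply DFun.snd'; apply DFun.fst; apply DFun.add; apply DFun.snd'
      apply DFun.snd'; apply DFun.fst; apply DFun.snd; apply DFun.comp3 hf; apply DFun.fst'
      apply DFun.fst; apply DFun.fst'; apply DFun.fst'; apply DFun.snd'; apply DFun.fst
      apply DFun.snd'; apply DFun.snd'; apply DFun.fst; apply DFun.snd'; apply DFun.snd'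
      apply DFun.fst'; apply DFun.snd'; apply DFun.fst) (by
      rintro y ⟨κ, a, h⟩ ⟨κ', a', h'⟩ he x hx a1 ha1
      obtain ⟨h1, h2⟩ := trvEq_prod.1 he
      obtain ⟨h2, h3⟩ := trvEq_prod.1 h2
      rw [trvEq_self] at h2 h3
      simp only at h1 h2 h3 ha1 ⊢
      have h4 := hx a1 (h2.trans ha1)
      simp only at h4
      rw [hinv y κ κ' h1] at h4
      exact h4.trans h3)
  -- P8
  obtain ⟨Nb, Cb, hCb, hCbs, hCbp⟩ := hH Γ (Δ × K × K)
    (fun y e => {z | ∀ b, rvEq O.valuation e.2.1 b →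
      ∃ a, O.valuation a = O.valuation e.2.2 ∧ f y e.1 (z + a) - f y e.1 z = b * a}) (by
      show Dfn L K (fun p : Γ × (Δ × K × K) × K => ∀ b, rvEq O.valuation p.2.1.2.1 b →
        ∃ a, O.valuation a = O.valuation p.2.1.2.2 ∧
          f p.1 p.2.1.1 (p.2.2 + a) - f p.1 p.2.1.1 p.2.2 = b * a)
      apply Dfn.all; apply Dfn.imp; apply Dfn.rvEq; apply DFun.fst'; apply DFun.snd'
      apply DFun.fst'; apply DFun.snd'; apply DFun.fst; apply DFun.snd; apply Dfn.ex
      apply Dfn.and; apply Dfn.veq; apply DFun.snd; apply DFun.snd'; apply DFun.snd'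
      apply DFun.fst'; apply DFun.snd'; apply DFun.fst'; apply DFun.fst; apply Dfn.eq
      apply DFun.sub; apply DFun.comp3 hf; apply DFun.fst'; apply DFun.fst'; apply DFun.fst
      apply DFun.fst'; apply DFun.fst'; apply DFun.snd'; apply DFun.fst'; apply DFun.fst
      apply DFun.add; apply DFun.snd'; apply DFun.snd'; apply DFun.fst'; apply DFun.fst
      apply DFun.snd; apply DFun.comp3 hf; apply DFun.fst'; apply DFun.fst'; apply DFun.fst
      apply DFun.fst'; apply DFun.fst'; apply DFun.snd'; apply DFun.fst'; apply DFun.fst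
      apply DFun.snd'; apply DFun.snd'; apply DFun.fst'; apply DFun.fst; apply DFun.mul
      apply DFun.snd'; apply DFun.fst; apply DFun.snd) (by
      rintro y ⟨κ, β, c⟩ ⟨κ', β', c'⟩ he x hx b hb
      obtain ⟨h1, h2⟩ := trvEq_prod.1 he
      obtain ⟨h2, h3⟩ := trvEq_prod.1 h2
      rw [trvEq_self] at h2 h3
      simp only at h1 h2 h3 hb ⊢
      obtain ⟨a, ha1, ha2⟩ := hx b (h2.trans hb)
      simp only at ha1 ha2
      rw [hinv y κ κ' h1] at ha2
      exact ⟨a, ha1.trans h3.val, ha2⟩)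
  -- A2
  obtain ⟨Nc, Cc, hCc, hCcs, hCcp⟩ := hH (Γ × K × K) (Δ × K)
    (fun y e => {a | rvEq O.valuation ((f y.1 e.1 (y.2.2 + a) - y.2.1 * (y.2.2 + a)) -
      (f y.1 e.1 y.2.2 - y.2.1 * y.2.2)) e.2}) (by
      show Dfn L K (fun p : (Γ × K × K) × (Δ × K) × K =>
        rvEq O.valuation ((f p.1.1 p.2.1.1 (p.1.2.2 + p.2.2) - p.1.2.1 * (p.1.2.2 + p.2.2)) -
          (f p.1.1 p.2.1.1 p.1.2.2 - p.1.2.1 * p.1.2.2)) p.2.1.2)
      apply Dfn.rvEq; apply DFun.sub; apply DFun.sub; apply DFun.comp3 hf; apply DFun.fst'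
      apply DFun.fst; apply DFun.fst'; apply DFun.fst'; apply DFun.snd; apply DFun.add
      apply DFun.snd'; apply DFun.snd'; apply DFun.fst; apply DFun.snd'; apply DFun.snd
      apply DFun.mul; apply DFun.fst'; apply DFun.snd'; apply DFun.fst; apply DFun.add
      apply DFun.snd'; apply DFun.snd'; apply DFun.fst; apply DFun.snd'; apply DFun.snd
      apply DFun.sub; apply DFun.comp3 hf; apply DFun.fst'; apply DFun.fst; apply DFun.fst'
      apply DFun.fst'; apply DFun.snd; apply DFun.snd'; apply DFun.snd'; apply DFun.fst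
      apply DFun.mul; apply DFun.fst'; apply DFun.snd'; apply DFun.fst; apply DFun.snd'
      apply DFun.snd'; apply DFun.fst; apply DFun.snd'; apply DFun.fst'; apply DFun.snd) (by
      rintro ⟨y, b, z⟩ ⟨κ, h⟩ ⟨κ', h'⟩ he x hx
      obtain ⟨h1, h2⟩ := trvEq_prod.1 he
      rw [trvEq_self] at h2
      simp only [Set.mem_setOf_eq] at h1 h2 hx ⊢
      rw [hinv y κ κ' h1] at hx
      exact hx.trans h2)
  -- A3
  obtain ⟨Nd, Cd, hCd, hCds, hCdp⟩ := hH (Γ × K) (Δ × K × K)
    (fun y e => {z | ∀ a1, rvEq O.valuation e.2.1 a1 →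
      rvEq O.valuation ((f y.1 e.1 (z + a1) - y.2 * (z + a1)) - (f y.1 e.1 z - y.2 * z)) e.2.2})
    (by
      show Dfn L K (fun p : (Γ × K) × (Δ × K × K) × K => ∀ a1, rvEq O.valuation p.2.1.2.1 a1 →
        rvEq O.valuation ((f p.1.1 p.2.1.1 (p.2.2 + a1) - p.1.2 * (p.2.2 + a1)) -
          (f p.1.1 p.2.1.1 p.2.2 - p.1.2 * p.2.2)) p.2.1.2.2)
      apply Dfn.all; apply Dfn.imp; apply Dfn.rvEq; apply DFun.fst'; apply DFun.snd'
      apply DFun.fst'; apply DFun.snd'; apply DFun.fst; apply DFun.snd; apply Dfn.rvEq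
      apply DFun.sub; apply DFun.sub; apply DFun.comp3 hf; apply DFun.fst'; apply DFun.fst'
      apply DFun.fst; apply DFun.fst'; apply DFun.fst'; apply DFun.snd'; apply DFun.fst
      apply DFun.add; apply DFun.snd'; apply DFun.snd'; apply DFun.fst; apply DFun.snd
      apply DFun.mul; apply DFun.snd'; apply DFun.fst'; apply DFun.fst; apply DFun.add
      apply DFun.snd'; apply DFun.snd'; apply DFun.fst; apply DFun.snd; apply DFun.sub
      apply DFun.comp3 hf; apply DFun.fst'; apply DFun.fst'; apply DFun.fst; apply DFun.fst'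
      apply DFun.fst'; apply DFun.snd'; apply DFun.fst; apply DFun.snd'; apply DFun.snd'
      apply DFun.fst; apply DFun.mul; apply DFun.snd'; apply DFun.fst'; apply DFun.fst
      apply DFun.snd'; apply DFun.snd'; apply DFun.fst; apply DFun.snd'; apply DFun.snd'
      apply DFun.fst'; apply DFun.snd'; apply DFun.fst) (by
      rintro ⟨y, b⟩ ⟨κ, a, h⟩ ⟨κ', a', h'⟩ he x hx a1 ha1
      obtain ⟨h1, h2⟩ := trvEq_prod.1 he
      obtain ⟨h2, h3⟩ := trvEq_prod.1 h2
      rw [trvEq_self] at h2 h3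
      simp only at h1 h2 h3 ha1 ⊢
      have h4 := hx a1 (h2.trans ha1)
      simp only at h4
      rw [hinv y κ κ' h1] at h4
      exact h4.trans h3)
  -- A7
  obtain ⟨k, Ce, hCe, hCes, hCep⟩ := hH (Γ × K) (Δ × K)
    (fun y e => {b | ∃ a, O.valuation a = O.valuation e.2 ∧
      f y.1 e.1 (y.2 + a) - f y.1 e.1 y.2 = b * a}) (by
      show Dfn L K (fun p : (Γ × K) × (Δ × K) × K =>
        ∃ a, O.valuation a = O.valuation p.2.1.2 ∧
          f p.1.1 p.2.1.1 (p.1.2 + a) - f p.1.1 p.2.1.1 p.1.2 = p.2.2 * a)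
      apply Dfn.ex; apply Dfn.and; apply Dfn.veq; apply DFun.snd; apply DFun.snd'; apply DFun.fst'
      apply DFun.snd'; apply DFun.fst; apply Dfn.eq; apply DFun.sub; apply DFun.comp3 hf
      apply DFun.fst'; apply DFun.fst'; apply DFun.fst; apply DFun.fst'; apply DFun.fst'
      apply DFun.snd'; apply DFun.fst; apply DFun.add; apply DFun.snd'; apply DFun.fst'
      apply DFun.fst; apply DFun.snd; apply DFun.comp3 hf; apply DFun.fst'; apply DFun.fst'
      apply DFun.fst; apply DFun.fst'; apply DFun.fst'; apply DFun.snd'; apply DFun.fst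
      apply DFun.snd'; apply DFun.fst'; apply DFun.fst; apply DFun.mul; apply DFun.snd'
      apply DFun.snd'; apply DFun.fst; apply DFun.snd) (by
      rintro ⟨y, z⟩ ⟨κ, c⟩ ⟨κ', c'⟩ he x ⟨a, ha1, ha2⟩
      obtain ⟨h1, h2⟩ := trvEq_prod.1 he
      rw [trvEq_self] at h2
      simp only at h1 h2 ha1 ha2 ⊢
      rw [hinv y κ κ' h1] at ha2
      exact ⟨a, ha1.trans h2.val, ha2⟩)
  -- PD
  obtain ⟨Nf, Cf, hCf, hCfs, hCfp⟩ := hH (Γ × K) (Δ × K)
    (fun y e => {x' | ∃ x, rvEq O.valuation e.2 (x - y.2) ∧ f y.1 e.1 x = x'}) (by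
      show Dfn L K (fun p : (Γ × K) × (Δ × K) × K =>
        ∃ x, rvEq O.valuation p.2.1.2 (x - p.1.2) ∧ f p.1.1 p.2.1.1 x = p.2.2)
      apply Dfn.ex; apply Dfn.and; apply Dfn.rvEq; apply DFun.snd'; apply DFun.fst'
      apply DFun.snd'; apply DFun.fst; apply DFun.sub; apply DFun.snd; apply DFun.snd'
      apply DFun.fst'; apply DFun.fst; apply Dfn.eq; apply DFun.comp3 hf; apply DFun.fst'
      apply DFun.fst'; apply DFun.fst; apply DFun.fst'; apply DFun.fst'; apply DFun.snd'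
      apply DFun.fst; apply DFun.snd; apply DFun.snd'; apply DFun.snd'; apply DFun.fst) (by
      rintro ⟨y, d⟩ ⟨κ, e⟩ ⟨κ', e'⟩ he x ⟨x0, hx1, hx2⟩
      obtain ⟨h1, h2⟩ := trvEq_prod.1 he
      rw [trvEq_self] at h2
      simp only at h1 h2 hx1 hx2 ⊢
      rw [hinv y κ κ' h1] at hx2
      exact ⟨x0, h2.symm.trans hx1, hx2⟩)
  set D0 : Γ → Set K := fun y => (E y ∪ {x | x = 0}) ∪ (Ca y ∪ Cb y) with hD0
  set D : Γ → Set K := fun y => ⋃ d ∈ D0 y, Cf (y, d) with hD
  have hD0d : DSet L K D0 := by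
    refine DSet.union (DSet.union hE ?_) (DSet.union hCa hCb)
    exact DSet.of (P := fun _ x => x = 0) (Dfn.eq DFun.snd DFun.zero)
  have hD0s : ∀ y, Small ((M + 1) + (Na + Nb)) (D0 y) := fun y =>
    ((hEM y).union (Small.singleton (0 : K))).union ((hCas y).union (hCbs y))
  have hDd : DSet L K D := DSet.biUnion hD0d hCf
  have hDs : ∀ y, Small (((M + 1) + (Na + Nb)) * Nf) (D y) := fun y =>
    (hD0s y).biUnion fun c _ => hCfs (y, c)
  refine ⟨((M + 1) + (Na + Nb)) + ((M + 1) + (Na + Nb)) * Nf, k, D0, D, hD0d, hDd,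
    fun y => (hD0s y).le (Nat.le_add_right _ _), fun y => (hDs y).le (Nat.le_add_left _ _),
    fun y => (Set.subset_union_left.trans Set.subset_union_left), fun y κ => ?_⟩
  have hsub1 : Ca y ⊆ D0 y := Set.subset_union_left.trans Set.subset_union_right
  have hsub2 : Cb y ⊆ D0 y := Set.subset_union_right.trans Set.subset_union_right
  exact
    { hn := hn
      P0 := fun a h => ld_prep_mono (hCap y (κ, a, h)) hsub1
      A2 := fun b z => ⟨Cc (y, b, z), (hCcs _).finite, fun h => hCcp (y, b, z) (κ, h)⟩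
      nt := nt
      A3 := fun b => ⟨Cd (y, b), (hCds _).finite, fun a h => hCdp (y, b) (κ, a, h)⟩
      P8 := fun β c => ld_prep_mono (hCbp y (κ, β, c)) hsub2
      D0fin := (hD0s y).finite
      Dfin := (hDs y).finite
      zero_mem := Or.inl (Or.inr rfl)
      A7 := fun z => ⟨Ce (y, z), hCes _, fun c => hCep (y, z) (κ, c)⟩
      PD := fun d hd e => ld_prep_mono (hCfp (y, d) (κ, e)) (Set.subset_biUnion_of_mem
        (u := fun d => Cf (y, d)) hd) }

end

end Pool.Agent.HM
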