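import Pool.Agent.HM.Basic

/-! The local theorem: functions on balls next to a preparing set (for MP_f2b4e1_lc). -/

namespace Pool.Agent.HM

variable {K : Type*} [Field K] {Γ : Type*} [LinearOrderedCommGroupWithZero Γ]
variable {v : Valuation K Γ}

/-- the direction of `a` is good for `g` at `z` -/
def Good (v : Valuation K Γ) (g : K → K) (z a : K) : Prop :=
  ∃ h, ∀ a1, rvEq v a a1 → rvEq v (g (z + a1) - g z) h

/-- residue characteristic zero -/
def EqChar (v : Valuation K Γ) : Prop := ∀ n : ℕ, n ≠ 0 → v (n : K) = 1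

theorem EqChar.ne (hn : EqChar v) {n : ℕ} (h : n ≠ 0) : (n : K) ≠ 0 := by
  intro h0
  have := hn n h
  rw [h0, map_zero] at this
  exact zero_ne_one this

theorem EqChar.val_sub (hn : EqChar v) {m n : ℕ} (h : m ≠ n) : v ((m : K) - n) = 1 := by
  rcases lt_or_gt_of_ne h with h | h
  · have : ((m : K) - n) = -((n - m : ℕ) : K) := by
      rw [Nat.cast_sub h.le]; ring
    rw [this, Valuation.map_neg, hn _ (by omega)]
  · have : ((m : K) - n) = ((m - n : ℕ) : K) := by
      rw [Nat.cast_sub h.le]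
    rw [this, hn _ (by omega)]

theorem EqChar.val_div (hn : EqChar v) {n : ℕ} (h : n ≠ 0) (a : K) : v (a / n) = v a := by
  rw [map_div₀, hn n h, div_one]

theorem EqChar.val_mul (hn : EqChar v) {n : ℕ} (h : n ≠ 0) (a : K) : v (n * a) = v a := by
  rw [map_mul, hn n h, one_mul]

theorem EqChar.val_mul_le (hn : EqChar v) (n : ℕ) (a : K) : v (n * a) ≤ v a := by
  by_cases h : n = 0
  · simp [h]
  · rw [hn.val_mul h]

/-- multiples `n a` with distinct `n` have distinct leading terms -/
theorem EqChar.mul_inj (hn : EqChar v) {a : K} (ha : a ≠ 0) {m n : ℕ}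
    (h : rvEq v (m * a) (n * a)) (hm : m ≠ 0) : m = n := by
  by_contra hne
  rcases h with h | h
  · have := mul_right_cancel₀ ha h
    have h1 := hn.val_sub hne
    rw [this, sub_self, map_zero] at h1
    exact zero_ne_one h1
  · rw [← sub_mul, map_mul, hn.val_sub hne, hn.val_mul hm, one_mul] at h
    exact lt_irrefl _ h

theorem good_of_not_mem {g : K → K} {z a : K} {C : Set K}
    (hC : ∀ h, Prep v C {a | rvEq v (g (z + a) - g z) h}) (ha : ∀ c ∈ C, ¬ rvEq v a c) :
    ∀ a1, rvEq v a a1 → rvEq v (g (z + a1) - g z) (g (z + a) - g z) := by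
  intro a1 h1
  exact (hC (g (z + a) - g z) a a1 (rvEq_of_class ha h1)).1 (rvEq.refl _)

/-- infinitely many directions cannot all be bad -/
theorem exists_good_mul (hn : EqChar v) {C : Set K} (hC : C.Finite) {a : K} (ha : a ≠ 0) :
    ∃ n : ℕ, n ≠ 0 ∧ ∀ c ∈ C, ¬ rvEq v (n * a) c := by
  by_contra hcon
  push Not at hcon
  have : ∀ n : ℕ, ∃ c ∈ C, rvEq v (((n + 1 : ℕ) : K) * a) c := fun n => hcon (n + 1) (by omega)
  choose c hcC hc using this
  have hinf : Set.InjOn c Set.univ := by
    intro m _ n _ hmn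
    have h1 := (hc m).trans (hmn ▸ (hc n).symm)
    have := hn.mul_inj ha h1 (by omega)
    omega
  exact (Set.infinite_univ (α := ℕ)).mono (Set.subset_univ _) |>.image hinf
    |>.mono (Set.image_subset_iff.2 fun n _ => hcC n) |> fun h => h hC

theorem exists_good_div (hn : EqChar v) {C : Set K} (hC : C.Finite) {a : K} (ha : a ≠ 0) :
    ∃ n : ℕ, n ≠ 0 ∧ ∀ c ∈ C, ¬ rvEq v (a / n) c := by
  by_contra hcon
  push Not at hcon
  have : ∀ n : ℕ, ∃ c ∈ C, rvEq v (a / ((n + 1 : ℕ) : K)) c := fun n => hcon (n + 1) (by omega)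
  choose c hcC hc using this
  have hinf : Set.InjOn c Set.univ := by
    intro m _ n _ hmn
    have h1 := (hc m).trans (hmn ▸ (hc n).symm)
    have hm0 := hn.ne (n := m + 1) (by omega)
    have hn0 := hn.ne (n := n + 1) (by omega)
    have h2 := h1.mul_left (((m + 1 : ℕ) : K) * ((n + 1 : ℕ) : K))
    have e1 : (((m + 1 : ℕ) : K) * ((n + 1 : ℕ) : K)) * (a / ((m + 1 : ℕ) : K)) = ((n + 1 : ℕ) : K) * a := by
      field_simp
    have e2 : (((m + 1 : ℕ) : K) * ((n + 1 : ℕ) : K)) * (a / ((n + 1 : ℕ) : K)) = ((m + 1 : ℕ) : K) * a := by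
      field_simp
    rw [e1, e2] at h2
    have := hn.mul_inj ha h2 (by omega)
    omega
  exact (Set.infinite_univ (α := ℕ)).mono (Set.subset_univ _) |>.image hinf
    |>.mono (Set.image_subset_iff.2 fun n _ => hcC n) |> fun h => h hC

/-- telescoping -/
theorem telescope (g : K → K) (z a : K) (n : ℕ) :
    g (z + n * a) - g z = ∑ i ∈ Finset.range n, (g (z + (i : ℕ) * a + a) - g (z + (i : ℕ) * a)) := by
  induction n with
  | zero => simp
  | succ n ih =>
    rw [Finset.sum_range_succ, ← ih]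
    have : z + ((n + 1 : ℕ) : K) * a = z + n * a + a := by push_cast; ring
    rw [this]; ring

/-- Step 1 -/
theorem stepJ (hn : EqChar v) {g : K → K} {E : Set K}
    (hE : ∀ a h, Prep v E {z | ∀ a1, rvEq v a a1 → rvEq v (g (z + a1) - g z) h})
    (hC : ∀ z, ∃ C : Set K, C.Finite ∧ ∀ h, Prep v C {a | rvEq v (g (z + a) - g z) h})
    {z z' a a' : K} (hz : Near v E z (z' - z)) (ha : Near v E z a) (haa : rvEq v a a') :
    rvEq v (g (z + a) - g z) (g (z' + a') - g z') := by
  by_cases ha0 : a = 0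
  · subst ha0
    rw [haa.zero_left]; simp only [add_zero, sub_self]; exact rvEq.refl _
  -- goodness of `a` at `z`
  have key : ∃ h, ∀ a1, rvEq v a a1 → rvEq v (g (z + a1) - g z) h := by
    obtain ⟨C, hCf, hCP⟩ := hC z
    obtain ⟨n, hn0, hnC⟩ := exists_good_div hn hCf ha0
    have hg := good_of_not_mem hCP hnC
    set h := g (z + a / n) - g z with hh
    refine ⟨n * h, ?_⟩
    intro a1 h1
    have hn' := hn.ne hn0
    have e : z + a1 = z + n * (a1 / n) := by field_simp
    rw [e, telescope g z (a1 / n) n]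
    apply rvEq_sum hn
    intro i hi
    -- the point `z + i (a1/n)` lies in the ball
    have hnear : Near v E z ((z + (i : ℕ) * (a1 / n)) - z) := by
      apply ha.of_le
      rw [add_sub_cancel_left]
      refine (hn.val_mul_le _ _).trans ?_
      rw [hn.val_div hn0, h1.val]
    have := ((hE (a / n) h).iff_near hnear).1 (by
      intro a2 h2; exact hg a2 h2)
    apply this
    have := h1.mul_left ((n : K)⁻¹)
    rw [div_eq_inv_mul, div_eq_inv_mul]; exact this
  obtain ⟨h, hh⟩ := key
  have h2 := ((hE a h).iff_near hz).1 hh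
  exact (hh a (rvEq.refl _)).trans (h2 a' haa).symm

end Pool.Agent.HM
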