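import Pool.Agent.HM.Core

/-! The local theorem, part 3: finitely many slopes. -/

namespace Pool.Agent.HM

variable {K : Type*} [Field K] {Γ : Type*} [LinearOrderedCommGroupWithZero Γ]
variable {v : Valuation K Γ}

/-- a zero direction kills all smaller directions -/
theorem stepJ_zero (hn : EqChar v) {g : K → K} {E : Set K}
    (hE : ∀ a h, Prep v E {z | ∀ a1, rvEq v a a1 → rvEq v (g (z + a1) - g z) h})
    (hC : ∀ z, ∃ C : Set K, C.Finite ∧ ∀ h, Prep v C {a | rvEq v (g (z + a) - g z) h})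
    {z a a' : K} (ha : Near v E z a) (h0 : g (z + a) - g z = 0) (hlt : v a' < v a) :
    g (z + a') - g z = 0 := by
  have h1 : g (z + (a + a')) - g z = 0 := by
    have := stepJ hn hE hC (z := z) (z' := z) (a := a) (a' := a + a')
      (ha.of_le (by simp)) ha (rvEq_add_of_lt hlt)
    rw [h0] at this
    exact this.zero_left
  have h2 := stepJ hn hE hC (z := z) (z' := z + a) (a := a') (a' := a')
      (ha.of_le (by simp)) (ha.of_le hlt.le) (rvEq.refl _)
  have h3 : g (z + a + a') - g (z + a) = 0 := by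
    have : g (z + a + a') = g (z + (a + a')) := by rw [add_assoc]
    rw [this]
    have e : g (z + (a + a')) = g z := sub_eq_zero.1 h1
    have e' : g (z + a) = g z := sub_eq_zero.1 h0
    rw [e, e', sub_self]
  rw [h3] at h2
  exact h2.zero_right

theorem Loc.zero {f : K → K} {D0 : Set K} (L : Loc v f D0) {z a a' : K}
    (ha : Near v D0 z a) (h0 : f (z + a) - f z = 0) (hlt : v a' < v a) :
    f (z + a') - f z = 0 := stepJ_zero L.hn L.P0 L.A1 ha h0 hlt

theorem Loc.mono {f : K → K} {D0 : Set K} (L : Loc v f D0) {z a a' : K}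
    (ha : Near v D0 z a) (h0 : f (z + a) - f z ≠ 0) (hlt : v a' < v a) :
    v (f (z + a') - f z) < v (f (z + a) - f z) := by
  have h1 := L.J0 ha (rvEq_add_of_lt hlt)
  have h2 := L.J1 (z := z) (z' := z + a) (a := a') (ha.of_le (by simp)) (ha.of_le hlt.le)
  rw [h2.val]
  have e : f (z + a + a') - f (z + a) = (f (z + (a + a')) - f z) - (f (z + a) - f z) := by
    rw [add_assoc]; ring
  rw [e]
  exact h1.symm.sub_lt (rvEq.refl _) h0

theorem Loc.ne_zero {f : K → K} {z a : K} (h : f (z + a) - f z ≠ 0) : a ≠ 0 := by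
  intro h0; apply h; rw [h0]; simp

/-- a smaller radius with the same slope -/
theorem Loc.smaller {f : K → K} {D0 : Set K} (L : Loc v f D0) (hnt : ∃ π : K, π ≠ 0 ∧ v π < 1)
    {z a0 : K} (ha0 : Near v D0 z a0) (hne : f (z + a0) - f z ≠ 0) :
    ∃ c, c ≠ 0 ∧ v c < v a0 ∧ ∀ a', v a' = v c →
      rvEq v (f (z + a') - f z) (((f (z + a0) - f z) / a0) * a') := by
  obtain ⟨t, ht, H⟩ := L.slope ha0 hne
  obtain ⟨π, hπ0, hπ⟩ := hnt
  have ha := Loc.ne_zero hne
  by_cases ht0 : t = 0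
  · refine ⟨π * a0, mul_ne_zero hπ0 ha, ?_, ?_⟩
    · rw [map_mul]
      exact mul_lt_of_lt_one_left (zero_lt_iff.2 ((Valuation.ne_zero_iff v).2 ha)) hπ
    · intro a' ha'
      have h1 : v a' ≠ 0 := by rw [ha']; exact (Valuation.ne_zero_iff v).2 (mul_ne_zero hπ0 ha)
      refine H a' ((Valuation.ne_zero_iff v).1 h1) ?_ ?_
      · rw [ht0, map_zero]; exact zero_le
      · rw [ha', map_mul]
        exact mul_lt_of_lt_one_left (zero_lt_iff.2 ((Valuation.ne_zero_iff v).2 ha)) hπ
  · refine ⟨t, ht0, ht, ?_⟩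
    intro a' ha'
    have h1 : v a' ≠ 0 := by rw [ha']; exact (Valuation.ne_zero_iff v).2 ht0
    exact H a' ((Valuation.ne_zero_iff v).1 h1) ha'.ge (by rw [ha']; exact ht)

/-- whether `f (z+a) = f z` depends only on the radius -/
theorem Loc.radius {f : K → K} {D0 : Set K} (L : Loc v f D0) (hnt : ∃ π : K, π ≠ 0 ∧ v π < 1)
    {z a0 a1 : K} (ha0 : Near v D0 z a0) (hne : f (z + a0) - f z ≠ 0) (h : v a1 = v a0) :
    f (z + a1) - f z ≠ 0 := by
  intro h0
  obtain ⟨c, hc0, hc, H⟩ := L.smaller hnt ha0 hne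
  have h1 := L.zero (a' := c) (ha0.of_le h.le) h0 (by rw [h]; exact hc)
  have h2 := H c rfl
  rw [h1] at h2
  have h3 := h2.zero_left
  rcases mul_eq_zero.1 h3 with h3 | h3
  · rcases div_eq_zero_iff.1 h3 with h3 | h3
    · exact hne h3
    · exact Loc.ne_zero hne h3
  · exact hc0 h3

/-- the slope depends only on the radius -/
theorem Loc.slope_eq {f : K → K} {D0 : Set K} (L : Loc v f D0)
    (hnt : ∃ π : K, π ≠ 0 ∧ v π < 1)
    {z a0 a1 : K} (ha0 : Near v D0 z a0) (hne : f (z + a0) - f z ≠ 0) (h : v a1 = v a0) :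
    rvEq v ((f (z + a1) - f z) / a1) ((f (z + a0) - f z) / a0) := by
  have hne1 := L.radius hnt ha0 hne h
  have ha1 : Near v D0 z a1 := ha0.of_le h.le
  obtain ⟨t0, ht0, H0⟩ := L.slope ha0 hne
  obtain ⟨t1, ht1, H1⟩ := L.slope ha1 hne1
  obtain ⟨π, hπ0, hπ⟩ := hnt
  have ha := Loc.ne_zero hne
  have hπa : v (π * a0) < v a0 := by
    rw [map_mul]
    exact mul_lt_of_lt_one_left (zero_lt_iff.2 ((Valuation.ne_zero_iff v).2 ha)) hπ
  -- a common radius
  obtain ⟨c, hc0, hc, hct0, hct1⟩ : ∃ c, c ≠ 0 ∧ v c < v a0 ∧ v t0 ≤ v c ∧ v t1 ≤ v c := by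
    rcases le_total (v t0) (v t1) with h01 | h01
    · by_cases hz : t1 = 0
      · refine ⟨π * a0, mul_ne_zero hπ0 ha, hπa, ?_, ?_⟩
        · refine h01.trans ?_; rw [hz, map_zero]; exact zero_le
        · rw [hz, map_zero]; exact zero_le
      · exact ⟨t1, hz, by rw [← h]; exact ht1, h01, le_rfl⟩
    · by_cases hz : t0 = 0
      · refine ⟨π * a0, mul_ne_zero hπ0 ha, hπa, ?_, ?_⟩
        · rw [hz, map_zero]; exact zero_le
        · refine h01.trans ?_; rw [hz, map_zero]; exact zero_le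
      · exact ⟨t0, hz, ht0, le_rfl, h01⟩
  have h0 := H0 c hc0 hct0 hc
  have h1 := H1 c hc0 hct1 (by rw [h]; exact hc)
  have h2 := (h1.symm.trans h0).mul_right c⁻¹
  simpa [mul_assoc, hc0] using h2

theorem exists_far (hn : EqChar v) {C : Set K} (hC : C.Finite) {a : K} (ha : a ≠ 0) (z : K) :
    ∃ n : ℕ, ∀ c ∈ C, v a ≤ v (z + n * a - c) := by
  by_contra hcon
  push Not at hcon
  choose c hcC hc using hcon
  have hinf : Set.InjOn c Set.univ := by
    intro m _ n _ hmn
    by_contra hne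
    have h1 := hc m
    have h2 := hc n
    rw [← hmn] at h2
    have h3 : v ((z + m * a - c m) - (z + n * a - c m)) < v a := by
      rw [sub_eq_add_neg]
      exact Valuation.map_add_lt v h1 (by rw [Valuation.map_neg]; exact h2)
    have e : (z + m * a - c m) - (z + n * a - c m) = ((m : K) - n) * a := by ring
    rw [e, map_mul, hn.val_sub hne, one_mul] at h3
    exact lt_irrefl _ h3
  exact (Set.infinite_univ (α := ℕ)).mono (Set.subset_univ _) |>.image hinf
    |>.mono (Set.image_subset_iff.2 fun n _ => hcC n) |> fun h => h hC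

/-- Step 3: the slope meets the set preparing the difference quotients -/
theorem Loc2.fin {f : K → K} {D0 : Set K} (L : Loc2 v f D0) {z a0 : K}
    (ha0 : Near v D0 z a0) (hne : f (z + a0) - f z ≠ 0) {C : Set K}
    (hC : ∀ c, Prep v C {b | ∃ a, v a = v c ∧ f (z + a) - f z = b * a}) :
    ∃ c ∈ C, rvEq v ((f (z + a0) - f z) / a0) c := by
  by_contra hcon
  push Not at hcon
  have ha := Loc.ne_zero hne
  set b := (f (z + a0) - f z) / a0 with hb
  have hb0 : b ≠ 0 := div_ne_zero hne ha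
  obtain ⟨c, hc0, hc, H⟩ := L.toLoc.smaller L.nt ha0 hne
  rw [← hb] at H
  -- the class of `b` is contained in the set of difference quotients of radius `c`
  have hmem : ∀ b1, rvEq v b b1 → ∃ a, v a = v c ∧ f (z + a) - f z = b1 * a := by
    have hb' : rvEq v ((f (z + c) - f z) / c) b := by
      have := (H c rfl).mul_right c⁻¹
      rw [mul_assoc, mul_inv_cancel₀ hc0, mul_one] at this
      rw [div_eq_mul_inv]; exact this
    have h0 : ((f (z + c) - f z) / c) ∈ {b | ∃ a, v a = v c ∧ f (z + a) - f z = b * a} :=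
      ⟨c, rfl, by field_simp⟩
    intro b1 hb1
    refine (hC c _ b1 (rvEq_of_class ?_ (hb'.trans hb1))).1 h0
    intro c' hc' h'
    exact hcon c' hc' (hb'.symm.trans h')
  obtain ⟨π, hπ0, hπ⟩ := L.nt
  obtain ⟨E1, hE1f, hE1⟩ := L.A3 b
  set b2 := b + π * b with hb2
  obtain ⟨E2, hE2f, hE2⟩ := L.A3 b2
  have hbb2 : rvEq v b b2 := by
    apply rvEq_add_of_lt
    rw [map_mul]
    exact mul_lt_of_lt_one_left (zero_lt_iff.2 ((Valuation.ne_zero_iff v).2 hb0)) hπ
  obtain ⟨n, hn⟩ := exists_far L.hn (hE1f.union hE2f) ha z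
  set z1 := z + n * a0 with hz1
  have hz1near : Near v D0 z (z1 - z) := by
    apply ha0.of_le; rw [hz1, add_sub_cancel_left]; exact L.hn.val_mul_le _ _
  have hmem1 := ((L.P8 b c).iff_near hz1near).1 hmem
  -- linearity with slope `b'` below radius `c`
  have lin : ∀ b', rvEq v b b' → ∀ E : Set K, (∀ d ∈ E, v a0 ≤ v (z1 - d)) →
      (∀ a h, Prep v E {z | ∀ a1, rvEq v a a1 →
        rvEq v ((f (z + a1) - b' * (z + a1)) - (f z - b' * z)) h}) →
      f (z1 + π * c) - f z1 = b' * (π * c) := by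
    intro b' hb' E hfar hE
    obtain ⟨a1, ha1, ha1'⟩ := hmem1 b' hb'
    have hnear : Near v E z1 a1 := by
      intro d hd
      rw [ha1]; exact lt_of_lt_of_le hc (hfar d hd)
    have h0 := stepJ_zero L.hn (g := fun x => f x - b' * x) hE (L.A2 b') hnear
      (a' := π * c) (by
        have : f (z1 + a1) - b' * (z1 + a1) - (f z1 - b' * z1) = (f (z1 + a1) - f z1) - b' * a1 := by
          ring
        rw [this, ha1', sub_self])
      (by
        rw [ha1, map_mul]
        exact mul_lt_of_lt_one_left (zero_lt_iff.2 ((Valuation.ne_zero_iff v).2 hc0)) hπ)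
    linear_combination h0
  have l1 := lin b (rvEq.refl _) E1 (fun d hd => hn d (Or.inl hd)) hE1
  have l2 := lin b2 hbb2 E2 (fun d hd => hn d (Or.inr hd)) hE2
  rw [l1] at l2
  have h3 := mul_right_cancel₀ (mul_ne_zero hπ0 hc0) l2
  rw [hb2] at h3
  have h4 : π * b = 0 := by linear_combination -h3
  rcases mul_eq_zero.1 h4 with h4 | h4
  · exact hπ0 h4
  · exact hb0 h4

end Pool.Agent.HM
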