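import Pool.Agent.HM.Local3

/-! The local theorem, part 4 (MP_f2b4e1_lc). -/

namespace Pool.Agent.HM

variable {K : Type*} [Field K] {Γ : Type*} [LinearOrderedCommGroupWithZero Γ]
variable {v : Valuation K Γ}

/-- a nonzero element smaller than finitely many nonzero elements -/
theorem exists_small (hnt : ∃ π : K, π ≠ 0 ∧ v π < 1) {S : Set K} (hS : S.Finite)
    (h0 : (0 : K) ∉ S) : ∃ t : K, t ≠ 0 ∧ ∀ s ∈ S, v t < v s := by
  obtain ⟨π, hπ0, hπ⟩ := hnt
  rcases S.eq_empty_or_nonempty with rfl | hne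
  · exact ⟨1, one_ne_zero, by simp⟩
  · obtain ⟨s, hs, hmin⟩ := Set.exists_min_image S v hS hne
    have hs0 : s ≠ 0 := ne_of_mem_of_not_mem hs h0
    refine ⟨π * s, mul_ne_zero hπ0 hs0, fun s' hs' => ?_⟩
    rw [map_mul]
    exact lt_of_lt_of_le
      (mul_lt_of_lt_one_left (zero_lt_iff.2 ((Valuation.ne_zero_iff v).2 hs0)) hπ) (hmin s' hs')

theorem LocFull.concl {f : K → K} {D0 D : Set K} {k : ℕ} (L : LocFull v f D0 D k) {z0 : K}
    (hz : z0 ∉ D0) : LocConcl v f D0 D k z0 := by
  have L1 : Loc v f D0 := L.toLoc2.toLoc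
  -- the nearest point
  obtain ⟨d0, hd0, hmin⟩ := Set.exists_min_image D0 (fun d => v (z0 - d)) L.D0fin ⟨0, L.zero_mem⟩
  have hne : ∀ d ∈ D0, z0 - d ≠ 0 := fun d hd h => hz (sub_eq_zero.1 h ▸ hd)
  have hpos : ∀ d ∈ D0, 0 < v (z0 - d) := fun d hd =>
    zero_lt_iff.2 ((Valuation.ne_zero_iff v).2 (hne d hd))
  have near_iff : ∀ a, Near v D0 z0 a ↔ v a < v (z0 - d0) :=
    fun a => ⟨fun h => h d0 hd0, fun h d hd => lt_of_lt_of_le h (hmin d hd)⟩
  have near0 : Near v D0 z0 0 := (near_iff 0).2 (by rw [map_zero]; exact hpos d0 hd0)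
  have near_self : Near v D0 z0 (z0 - z0) := by rw [sub_self]; exact near0
  -- the image of the ball is prepared
  have hY : Prep v D {y | ∃ x, Near v D0 z0 (x - z0) ∧ f x = y} := by
    have h1 := L.PD d0 hd0 (z0 - d0)
    have e : {y | ∃ x, rvEq v (z0 - d0) (x - d0) ∧ f x = y}
        = {y | ∃ x, Near v D0 z0 (x - z0) ∧ f x = y} := by
      ext y
      refine exists_congr fun x => and_congr_left fun _ => ?_
      rw [near_iff]
      constructor
      · rintro (h | h)
        · have : x - z0 = 0 := by linear_combination -h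
          rw [this, map_zero]; exact hpos d0 hd0
        · rw [Valuation.map_sub_swap]
          convert h using 2; ring
      · intro h
        right
        rw [Valuation.map_sub_swap] at h
        convert h using 2; ring
    rwa [e] at h1
  by_cases hconst : ∀ a, Near v D0 z0 a → f (z0 + a) - f z0 = 0
  · -- constant case
    left
    refine ⟨f z0, ?_, fun a ha => sub_eq_zero.1 (hconst a ha)⟩
    by_contra hw
    obtain ⟨t, ht0, ht⟩ := exists_small L.nt (L.Dfin.image fun d => f z0 - d)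
      (by rintro ⟨d, hd, h⟩; exact hw (sub_eq_zero.1 h ▸ hd))
    have h1 : f z0 + t ∈ {y | ∃ x, Near v D0 z0 (x - z0) ∧ f x = y} := by
      refine (hY (f z0) (f z0 + t) fun d hd => ?_).1 ⟨z0, near_self, rfl⟩
      right
      have : f z0 - d - (f z0 + t - d) = -t := by ring
      rw [this, Valuation.map_neg]
      exact ht _ ⟨d, hd, rfl⟩
    obtain ⟨x, hx, hfx⟩ := h1
    have h2 := hconst (x - z0) hx
    rw [add_sub_cancel, hfx] at h2
    exact ht0 (by linear_combination h2)
  right
  push Not at hconst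
  obtain ⟨a0, ha0, hne0⟩ := hconst
  -- injectivity
  have hinj : ∀ a1, Near v D0 z0 a1 → a1 ≠ 0 → f (z0 + a1) - f z0 ≠ 0 := by
    intro a1 ha1 ha10 h0
    have key : ∀ a, Near v D0 z0 a → f (z0 + a) - f z0 ≠ 0 → v a1 < v a := by
      intro a ha hfa
      by_contra hcon
      rcases lt_or_eq_of_le (not_lt.1 hcon) with h | h
      · exact hfa (L1.zero ha1 h0 h)
      · exact L1.radius L.nt ha hfa h.symm h0
    obtain ⟨C, hCs, hCP⟩ := L.A7 z0
    -- a value outside `D`
    have hex : ∃ n : ℕ, n ≠ 0 ∧ f (z0 + n * a0) ∉ D := by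
      by_contra hcon
      push Not at hcon
      have hinjN : Function.Injective fun n : ℕ => f (z0 + ((n + 1 : ℕ) : K) * a0) := by
        intro m n hmn
        have h1 := L1.mul ha0 (m + 1)
        have h2 := L1.mul ha0 (n + 1)
        simp only at hmn
        rw [hmn] at h1
        have := L.hn.mul_inj hne0 (h1.symm.trans h2) (by omega)
        omega
      exact (Set.infinite_range_of_injective hinjN) (L.Dfin.subset (by
        rintro _ ⟨n, rfl⟩; exact hcon (n + 1) (by omega)))
    obtain ⟨n, hn0, hnD⟩ := hex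
    set z1 := z0 + n * a0 with hz1
    have hz1near : Near v D0 z0 (z1 - z0) := by
      apply ha0.of_le; rw [hz1, add_sub_cancel_left]; exact L.hn.val_mul_le _ _
    have hfin : ((fun d => f z1 - d) '' D ∪ (fun c => c * a1) '' (C \ {0})).Finite :=
      (L.Dfin.image _).union ((hCs.finite.subset Set.sdiff_subset).image _)
    obtain ⟨t, ht0, ht⟩ := exists_small L.nt hfin (by
      rintro (⟨d, hd, h⟩ | ⟨c, hc, h⟩)
      · exact hnD (sub_eq_zero.1 h ▸ hd)
      · exact (mul_ne_zero hc.2 ha10) h)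
    have h1 : f z1 + t ∈ {y | ∃ x, Near v D0 z0 (x - z0) ∧ f x = y} := by
      refine (hY (f z1) (f z1 + t) fun d hd => ?_).1 ⟨z1, hz1near, rfl⟩
      right
      have : f z1 - d - (f z1 + t - d) = -t := by ring
      rw [this, Valuation.map_neg]
      exact ht _ (Or.inl ⟨d, hd, rfl⟩)
    obtain ⟨x, hx, hfx⟩ := h1
    have hanear : Near v D0 z0 (x - z1) := by
      have : x - z1 = (x - z0) + -(z1 - z0) := by ring
      rw [this]; exact hx.add hz1near.neg
    have hJ := L1.J1 hz1near hanear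
    rw [add_sub_cancel, hfx, add_sub_cancel_left] at hJ
    have hne1 : f (z0 + (x - z1)) - f z0 ≠ 0 := by
      intro h; rw [h] at hJ; exact ht0 hJ.zero_left
    have hlt := key _ hanear hne1
    obtain ⟨c, hc, hcr⟩ := L.toLoc2.fin hanear hne1 hCP
    have ha' := Loc.ne_zero hne1
    have hc0 : c ≠ 0 := by
      rintro rfl
      exact (div_ne_zero hne1 ha') hcr.zero_right
    have h3 := ht _ (Or.inr ⟨c, ⟨hc, hc0⟩, rfl⟩)
    have h4 := hcr.val
    rw [map_div₀, hJ.val] at h4
    have h5 : v t = v c * v (x - z1) := by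
      rw [← h4, div_mul_cancel₀]
      exact (Valuation.ne_zero_iff v).2 ha'
    simp only [map_mul] at h3
    rw [h5] at h3
    exact absurd h3 (not_lt.2 (mul_le_mul_right hlt.le _))
  refine ⟨?_, ?_, ?_⟩
  · intro z a hzz ha n hn0
    have h1 := (L1.mul (hzz.move ha) n).val
    rw [h1, L.hn.val_mul hn0]
    exact (L1.J1 hzz ha).val.symm
  · intro a ha ha0' x hx d hd
    obtain ⟨z1, hz1, hfz1⟩ := hx
    suffices h : ∃ d' ∈ D, v (x - d') * v a ^ k ≤ v (f (z0 + a) - f z0) * v (z0 - d0) ^ k by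
      obtain ⟨d', hd', h⟩ := h
      refine ⟨d', hd', h.trans ?_⟩
      gcongr
      exact hmin d hd
    by_contra hcon
    push Not at hcon
    have hJ := L1.J1 hz1 ha
    set s := f (z1 + a) - f z1 with hs
    have hs0 : s ≠ 0 := by
      intro h; rw [h] at hJ; exact hinj a ha ha0' hJ.zero_right
    have hva0 : v a ≠ 0 := (Valuation.ne_zero_iff v).2 ha0'
    have hvs0 : 0 < v s := zero_lt_iff.2 ((Valuation.ne_zero_iff v).2 hs0)
    set l := (z0 - d0) / a with hl
    have hvl : v l = v (z0 - d0) / v a := by rw [hl, map_div₀]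
    have hl1 : 1 < v l := by
      rw [hvl]
      exact (one_lt_div₀ (zero_lt_iff.2 hva0)).2 ((near_iff a).1 ha)
    have hbound : ∀ d' ∈ D, v s * v l ^ k < v (x - d') := by
      intro d' hd'
      have h := hcon d' hd'
      rw [hJ.val] at h
      rw [hvl, div_pow, ← mul_div_assoc]
      rwa [div_lt_iff₀ (pow_pos (zero_lt_iff.2 hva0) k)]
    -- the points `y_j`
    have hpt : ∀ j : Fin (k + 1), ∃ x', Near v D0 z0 (x' - z0) ∧ f x' = x + s * l ^ (j : ℕ) := by
      intro j
      refine (hY x (x + s * l ^ (j : ℕ)) fun d' hd' => ?_).1 ⟨z1, hz1, hfz1⟩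
      right
      have : x - d' - (x + s * l ^ (j : ℕ) - d') = -(s * l ^ (j : ℕ)) := by ring
      rw [this, Valuation.map_neg, map_mul, map_pow]
      refine lt_of_le_of_lt ?_ (hbound d' hd')
      gcongr
      · exact hl1.le
      · omega
    choose X hX1 hX2 using hpt
    obtain ⟨C, hCs, hCP⟩ := L.A7 z1
    obtain ⟨tt, htt⟩ := hCs
    have hdiff : ∀ j, f (z1 + (X j - z1)) - f z1 = s * l ^ (j : ℕ) := by
      intro j
      rw [add_sub_cancel, hX2, hfz1, add_sub_cancel_left]
    have hl0 : l ≠ 0 := by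
      intro h; rw [h, map_zero] at hl1; exact absurd hl1 (not_lt.2 zero_le)
    have hdne : ∀ j, f (z1 + (X j - z1)) - f z1 ≠ 0 := by
      intro j; rw [hdiff]; exact mul_ne_zero hs0 (pow_ne_zero _ hl0)
    have hXnear0 : ∀ j, Near v D0 z0 (X j - z1) := by
      intro j
      have : X j - z1 = (X j - z0) + -(z1 - z0) := by ring
      rw [this]; exact (hX1 j).add hz1.neg
    have hXnear : ∀ j, Near v D0 z1 (X j - z1) := fun j => hz1.move (hXnear0 j)
    have hcj : ∀ j, ∃ i : Fin k, rvEq v ((f (z1 + (X j - z1)) - f z1) / (X j - z1)) (tt i) := by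
      intro j
      obtain ⟨c, hc, hcr⟩ := L.toLoc2.fin (hXnear j) (hdne j) hCP
      obtain ⟨i, hi⟩ := htt c hc
      exact ⟨i, hi ▸ hcr⟩
    choose I hI using hcj
    obtain ⟨j, j', hjj, hIj⟩ := Fintype.exists_ne_map_eq_of_card_lt I (by simp)
    have hage : ∀ j, v a ≤ v (X j - z1) := by
      intro j
      by_contra hlt
      have h1 := L1.mono (hz1.move ha) (hs ▸ hs0) (not_le.1 hlt)
      rw [hdiff, ← hs, map_mul, map_pow] at h1
      exact absurd h1 (not_lt.2 (le_mul_of_one_le_right zero_le (one_le_pow₀ hl1.le)))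
    -- the final contradiction
    have fin : ∀ j j' : Fin (k + 1), (j : ℕ) < j' → I j = I j' → False := by
      intro j j' hlt hIe
      have h1 := (hI j).val.trans ((hIe ▸ (hI j').val).symm)
      rw [hdiff, hdiff, map_div₀, map_div₀, map_mul, map_mul, map_pow, map_pow] at h1
      have hXj : v (X j - z1) ≠ 0 := (Valuation.ne_zero_iff v).2 (Loc.ne_zero (hdne j))
      have hXj' : v (X j' - z1) ≠ 0 := (Valuation.ne_zero_iff v).2 (Loc.ne_zero (hdne j'))
      rw [div_eq_div_iff hXj hXj'] at h1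
      obtain ⟨m, hm⟩ := Nat.exists_eq_add_of_lt hlt
      have e1 : v l ^ (j' : ℕ) = v l ^ (j : ℕ) * (v l ^ m * v l) := by
        rw [hm, pow_succ, pow_add, mul_assoc]
      rw [e1] at h1
      have hvl0 : v l ≠ 0 := (Valuation.ne_zero_iff v).2 hl0
      have h2 : v (X j' - z1) = (v l ^ m * v l) * v (X j - z1) := by
        have h3 : (v s * v l ^ (j : ℕ)) * v (X j' - z1)
            = (v s * v l ^ (j : ℕ)) * ((v l ^ m * v l) * v (X j - z1)) := by
          rw [h1]; simp only [mul_assoc]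
        exact mul_left_cancel₀ (mul_ne_zero hvs0.ne' (pow_ne_zero _ hvl0)) h3
      have h4 : v (X j' - z1) < v (z0 - d0) := (near_iff _).1 (hXnear0 j')
      rw [h2] at h4
      have h5 : v (z0 - d0) = v l * v a := by rw [hvl, div_mul_cancel₀ _ hva0]
      rw [h5] at h4
      refine absurd h4 (not_lt.2 ?_)
      refine mul_le_mul' ?_ (hage j)
      exact le_mul_of_one_le_left zero_le (one_le_pow₀ hl1.le)
    rcases lt_or_gt_of_ne (fun h => hjj (Fin.ext h) : (j : ℕ) ≠ j') with h | h
    · exact fin j j' h hIj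
    · exact fin j' j h hIj.symm
  · intro x hx z hzz
    by_contra hcon
    push Not at hcon
    apply hx
    exact (hY x (f z) fun d' hd' => Or.inr (by
      have : x - d' - (f z - d') = x - f z := by ring
      rw [this]; exact hcon d' hd')).2 ⟨z, hzz, rfl⟩

end Pool.Agent.HM
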