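import Pool.Agent.HM.Core
import Pool.Agent.HM.LocalThm

/-! The pure valued field part of the main lemma (for MP_f2b4e1_lc). -/

universe u v w

namespace Pool.Agent.HM

section

variable {K : Type w} [Field K] {O : ValuationSubring K}

/-- `rvlEq` at a finer level implies `rvlEq` at a coarser level -/
theorem ma_rvlEq_of_le {K : Type*} [Field K] {Γ : Type*} [LinearOrderedCommGroupWithZero Γ]
    {v : Valuation K Γ} {l l' x y : K} (h : rvlEq v l x y) (hl : v l ≤ v l') :
    rvlEq v l' x y := by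
  rcases h with h | h
  · exact Or.inl h
  · exact Or.inr (h.trans_le (mul_le_mul_left hl _))

/-- the main step, with the conclusion of the local theorem as a hypothesis -/
theorem main_arith_aux {K : Type*} [Field K] {Γ : Type*} [LinearOrderedCommGroupWithZero Γ]
    {v : Valuation K Γ} (hn : EqChar v) {M1 N1 k : ℕ} {D0 D : Set K} {Cf : K → Set K}
    (hC : ∀ z, Small M1 (Cf z)) {Δ : Type*} (F : Δ → K → K)
    (hF : ∀ z, ∀ s ∈ Cf z, ∃ κ, F κ z = s)
    (hfin : D0.Finite) (h0 : (0 : K) ∈ D0)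
    (hL : ∀ κ, ∀ z0 ∉ D0, LocConcl v (F κ) D0 D k z0)
    (hE1 : ∀ κ, Prep v D0 {z | F κ z ∈ Cf z})
    (hE2 : ∀ κ κ', Prep v D0 {z | F κ z = F κ' z})
    {l x x' z : K} (hl0 : l ≠ 0) (hl : v l < 1)
    (hD : ∀ d ∈ D, rvlEq v (l ^ (N1 + 2 * k)) (x - d) (x' - d))
    (hD0 : ∀ d ∈ D0, ∀ c ∈ Cf d, rvlEq v (l ^ (N1 + 2 * k)) (x - c) (x' - c)) :
    ∃ z', rvlEq v l z z' ∧
      ∀ c ∈ Cf z', rvlEq v (l ^ N1) (x - c) (x' - c) := by
  classical
  have hvl0 : 0 < v l := zero_lt_iff.2 ((Valuation.ne_zero_iff v).2 hl0)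
  have hpow : v (l ^ (N1 + 2 * k)) ≤ v (l ^ N1) := by
    rw [map_pow, map_pow, pow_add]
    exact mul_le_of_le_one_right' (pow_le_one₀ zero_le hl.le)
  by_cases hxx : x = x'
  · exact ⟨z, Or.inl rfl, fun c _ => Or.inl (by rw [hxx])⟩
  -- closeness to the points of `D`
  have hDlt : ∀ d ∈ D, v (x - x') < v (l ^ (N1 + 2 * k)) * v (x - d) := by
    intro d hd
    rcases hD d hd with h | h
    · exact absurd (sub_left_injective h) hxx
    · have e : x - d - (x' - d) = x - x' := by ring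
      rwa [e] at h
  by_cases hA : ∃ d ∈ D0, rvlEq v l z d
  · obtain ⟨d, hd, hzd⟩ := hA
    exact ⟨d, hzd, fun c hc => ma_rvlEq_of_le (hD0 d hd c hc) hpow⟩
  push Not at hA
  have hz : z ∉ D0 := fun h => hA z h (Or.inl rfl)
  have hzd : ∀ d ∈ D0, v l * v z ≤ v (z - d) := by
    intro d hd
    have := hA d hd
    unfold rvlEq at this
    push Not at this
    exact this.2
  have hz0 : z ≠ 0 := fun h => hz (h ▸ h0)
  -- the nearest point
  obtain ⟨ds, hds, hmin⟩ := hfin.exists_minimalFor (fun d => v (z - d)) D0 ⟨0, h0⟩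
  have hmin' : ∀ d ∈ D0, v (z - ds) ≤ v (z - d) := by
    intro d hd
    rcases le_total (v (z - ds)) (v (z - d)) with h | h
    · exact h
    · exact hmin hd h
  have hρ : v (z - ds) ≠ 0 := (Valuation.ne_zero_iff v).2 (sub_ne_zero.2 fun h => hz (h ▸ hds))
  have hρpos : 0 < v (z - ds) := zero_lt_iff.2 hρ
  have hρz : v (z - ds) ≤ v z := by simpa using hmin' 0 h0
  set a : K := l ^ 2 * (z - ds) with ha
  have hva : v a = v l ^ 2 * v (z - ds) := by rw [ha, map_mul, map_pow]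
  have ha0 : a ≠ 0 := mul_ne_zero (pow_ne_zero _ hl0) (sub_ne_zero.2 fun h => hz (h ▸ hds))
  have hl2 : v l ^ 2 < 1 := pow_lt_one₀ zero_le hl two_ne_zero
  have haρ : v a < v (z - ds) := by
    rw [hva]
    exact mul_lt_of_lt_one_left hρpos hl2
  have hna : ∀ n : ℕ, Near v D0 z (n * a) := by
    intro n d hd
    exact (hn.val_mul_le n a).trans_lt (haρ.trans_le (hmin' d hd))
  have hneara : Near v D0 z a := by simpa using hna 1
  have hzn : ∀ n : ℕ, rvlEq v l z (z + n * a) := by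
    intro n
    right
    have e : z - (z + n * a) = -(n * a) := by ring
    rw [e, Valuation.map_neg]
    refine (hn.val_mul_le n a).trans_lt ?_
    rw [hva]
    calc v l ^ 2 * v (z - ds) ≤ v l ^ 2 * v z := mul_le_mul_right hρz _
      _ = v l * (v l * v z) := by rw [pow_two, mul_assoc]
      _ < v l * (1 * v z) := by
          refine mul_lt_mul_of_pos_left ?_ hvl0
          exact mul_lt_mul_of_pos_right hl (zero_lt_iff.2 ((Valuation.ne_zero_iff v).2 hz0))
      _ = v l * v z := by rw [one_mul]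
  by_contra hcon
  push Not at hcon
  -- bad points `c n` for each `n`
  have hbad : ∀ n : ℕ, ∃ κ, F κ (z + n * a) ∈ Cf (z + n * a) ∧
      v (l ^ N1) * v (x - F κ (z + n * a)) ≤ v (x - x') := by
    intro n
    obtain ⟨c, hc, hnc⟩ := hcon (z + n * a) (hzn n)
    obtain ⟨κ, rfl⟩ := hF _ c hc
    refine ⟨κ, hc, ?_⟩
    unfold rvlEq at hnc
    push Not at hnc
    have e : x - F κ (z + n * a) - (x' - F κ (z + n * a)) = x - x' := by ring
    rw [e] at hnc
    exact hnc.2
  choose κ hκ1 hκ2 using hbad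
  have hnear : ∀ n : ℕ, Near v D0 z ((z + n * a) - z) := by
    intro n
    rw [add_sub_cancel_left]
    exact hna n
  have hmem : ∀ n : ℕ, F (κ n) z ∈ Cf z := fun n =>
    ((hE1 (κ n)).iff_near (hnear n)).2 (hκ1 n)
  -- pigeonhole
  obtain ⟨t, ht⟩ := hC z
  choose i hi using fun n : ℕ => ht _ (hmem n)
  obtain ⟨n, n', hlt, heq⟩ : ∃ n n' : ℕ, n < n' ∧ F (κ n) z = F (κ n') z := by
    obtain ⟨p, q, hpq, he⟩ := Fintype.exists_ne_map_eq_of_card_lt
      (fun n : Fin (M1 + 1) => i n) (by simp)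
    have he' : F (κ p) z = F (κ q) z := by rw [← hi p, ← hi q]; exact congrArg t he
    rcases lt_or_gt_of_ne (fun h => hpq (Fin.ext h) : (p : ℕ) ≠ q) with h | h
    · exact ⟨p, q, h, he'⟩
    · exact ⟨q, p, h, he'.symm⟩
  have heq' : F (κ n) (z + n' * a) = F (κ n') (z + n' * a) :=
    ((hE2 (κ n) (κ n')).iff_near (hnear n')).1 heq
  have hb1 := hκ2 n
  have hb2 := hκ2 n'
  rw [← heq'] at hb2
  have hvpos : 0 < v (l ^ N1) := zero_lt_iff.2 ((Valuation.ne_zero_iff v).2 (pow_ne_zero _ hl0))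
  rcases hL (κ n) z hz with ⟨w, hw, hconst⟩ | ⟨hJ, hstar, hstar2⟩
  · have h1 := hconst (n * a) (hna n)
    rw [h1] at hb1
    exact absurd (hDlt w hw) (not_lt.2 ((mul_le_mul_left hpow _).trans hb1))
  · -- `s = v (c' - c)`
    have hs : v (F (κ n) (z + a) - F (κ n) z) = v (F (κ n) (z + n' * a) - F (κ n) (z + n * a)) := by
      have h1 := hJ (z + n * a) a (hnear n) hneara (n' - n) (by omega)
      have e : z + n * a + ((n' - n : ℕ) : K) * a = z + n' * a := by
        rw [Nat.cast_sub hlt.le]; ring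
      rw [e] at h1
      exact h1.symm
    have hsle : v (l ^ N1) * v (F (κ n) (z + a) - F (κ n) z) ≤ v (x - x') := by
      rw [hs]
      have e : F (κ n) (z + n' * a) - F (κ n) (z + n * a) =
          (x - F (κ n) (z + n * a)) - (x - F (κ n) (z + n' * a)) := by ring
      rw [e]
      rcases le_total (v (x - F (κ n) (z + n * a))) (v (x - F (κ n) (z + n' * a))) with h | h
      · refine le_trans (mul_le_mul_right ?_ _) hb2
        exact (Valuation.map_sub v _ _).trans (max_le h le_rfl)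
      · refine le_trans (mul_le_mul_right ?_ _) hb1
        exact (Valuation.map_sub v _ _).trans (max_le le_rfl h)
    by_cases hx : ∃ z', Near v D0 z (z' - z) ∧ F (κ n) z' = x
    · obtain ⟨d', hd', hle⟩ := hstar a hneara ha0 x hx ds hds
      have h1 : v (x - d') * v l ^ (2 * k) ≤ v (F (κ n) (z + a) - F (κ n) z) := by
        rw [hva, mul_pow, ← mul_assoc, ← pow_mul] at hle
        exact le_of_mul_le_mul_right hle (pow_pos hρpos k)
      have h2 := hDlt d' hd'
      have h3 : v (l ^ (N1 + 2 * k)) * v (x - d') ≤ v (x - x') := by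
        refine le_trans (le_trans (le_of_eq ?_) (mul_le_mul_right h1 (v (l ^ N1)))) hsle
        rw [map_pow, map_pow, pow_add, mul_assoc, mul_comm (v l ^ (2 * k))]
      exact absurd h2 (not_lt.2 h3)
    · obtain ⟨d', hd', hle⟩ := hstar2 x hx (z + n * a) (hnear n)
      have h2 := hDlt d' hd'
      have h3 : v (l ^ (N1 + 2 * k)) * v (x - d') ≤ v (x - x') :=
        le_trans (mul_le_mul' hpow hle) hb1
      exact absurd h2 (not_lt.2 h3)

theorem main_arith (hn : EqChar O.valuation) {M1 N1 k : ℕ} {D0 D : Set K} {Cf : K → Set K}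
    (hC : ∀ z, Small M1 (Cf z)) {Δ : Type*} (F : Δ → K → K)
    (hF : ∀ z, ∀ s ∈ Cf z, ∃ κ, F κ z = s)
    (hL : ∀ κ, LocFull O.valuation (F κ) D0 D k)
    (hE1 : ∀ κ, Prep O.valuation D0 {z | F κ z ∈ Cf z})
    (hE2 : ∀ κ κ', Prep O.valuation D0 {z | F κ z = F κ' z})
    {l x x' z : K} (hl0 : l ≠ 0) (hl : O.valuation l < 1)
    (hD : ∀ d ∈ D, rvlEq O.valuation (l ^ (N1 + 2 * k)) (x - d) (x' - d))
    (hD0 : ∀ d ∈ D0, ∀ c ∈ Cf d, rvlEq O.valuation (l ^ (N1 + 2 * k)) (x - c) (x' - c)) :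
    ∃ z', rvlEq O.valuation l z z' ∧
      ∀ c ∈ Cf z', rvlEq O.valuation (l ^ N1) (x - c) (x' - c) := by
  by_cases hΔ : Nonempty Δ
  · obtain ⟨κ0⟩ := hΔ
    exact main_arith_aux hn hC F hF (hL κ0).D0fin (hL κ0).zero_mem
      (fun κ z0 hz => (hL κ).concl hz) hE1 hE2 hl0 hl hD hD0
  · -- no codes: all `Cf z` are empty
    refine ⟨z, Or.inl rfl, fun c hc => ?_⟩
    obtain ⟨κ, _⟩ := hF z c hc
    exact absurd ⟨κ⟩ hΔ

end

end Pool.Agent.HM
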