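import Pool.Agent.HM.Core
import Pool.Agent.HM.Codes
import Pool.Agent.HM.LocData
import Pool.Agent.HM.MainArith

/-! MP_f2b4e1_lc: the main lemma, `m = 0` and `m → m + 1`. -/

universe u v w

namespace Pool.Agent.HM

open FirstOrder FirstOrder.Language

section
variable {L : FirstOrder.Language.{u, v}} {K : Type w} [L.Structure K] [Field K] [Sym L]
variable {O : ValuationSubring K} [IsVF L K O]

omit [L.Structure K] [Sym L] [IsVF L K O] in
theorem cm4_rvlEq_refl (l x : K) : rvlEq O.valuation l x x := Or.inl rfl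

omit [L.Structure K] [Sym L] [IsVF L K O] in
theorem cm4_rvlEq_one {l x y : K} (hl : O.valuation l = 1) :
    rvlEq O.valuation l x y ↔ rvEq O.valuation x y := by
  unfold rvlEq rvEq
  rw [hl, one_mul]

omit [L.Structure K] [Sym L] [IsVF L K O] in
theorem cm4_prep_mono {C D X : Set K} (h : Prep O.valuation C X) (hCD : C ⊆ D) :
    Prep O.valuation D X := fun x x' hx => h x x' fun c hc => hx c (hCD hc)

include O in
theorem cm4_dfn_ne {Γ : Type w} [Tup K Γ] {f : Γ → K} (hf : DFun L K f) :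
    Dfn L K (fun g => f g ≠ 0) := (Dfn.eq hf (DFun.zero (O := O))).not

omit [Field K] [Sym L] in
/-- the empty tuple is definable -/
theorem cm4_empty {Γ : Type w} [Tup K Γ] (e : Fin 0 → K) : DFun L K (fun _ : Γ => e) :=
  DFun.pi fun i => i.elim0

omit [Field K] [Sym L] in
/-- `Fin.snoc` is definable -/
theorem cm4_snoc {Γ : Type w} [Tup K Γ] {m : ℕ} {f : Γ → (Fin m → K)} {h : Γ → K}
    (hf : DFun L K f) (hh : DFun L K h) :
    DFun L K (fun g => (Fin.snoc (f g) (h g) : Fin (m + 1) → K)) := by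
  refine DFun.pi fun i => ?_
  refine Fin.lastCases ?_ (fun j => ?_) i
  · exact hh.congr fun g => (Fin.snoc_last (α := fun _ => K) _ _).symm
  · exact (hf.apply j).congr fun g => (Fin.snoc_castSucc (α := fun _ => K) _ _ j).symm

theorem mlProp_zero (hH : HProp L K O) : MLProp L K O 0 := by
  intro Γ _ X hX hinv
  obtain ⟨M, C, hC, hM, hP⟩ := hH Γ K
    (fun y l => {x | (l ≠ 0 ∧ O.valuation l ≤ 1) ∧ x ∈ X y (fun i => i.elim0) l}) (by
      refine Dfn.and (Dfn.and ?_ ?_) ?_
      · exact cm4_dfn_ne (O := O) DFun.snd.fst'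
      · exact Dfn.vle_one DFun.snd.fst'
      · exact Dfn.comp4 (P := fun y e l x => x ∈ X y e l) hX DFun.fst (cm4_empty _)
          DFun.snd.fst' DFun.snd.snd') (by
      intro y l l' hl x hx
      have hl' : rvEq O.valuation l l' := trvEq_self.1 hl
      refine ⟨⟨?_, ?_⟩, ?_⟩
      · intro h0
        rw [h0] at hl'
        exact hx.1.1 hl'.zero_right
      · rw [← hl'.val]
        exact hx.1.2
      · exact hinv y _ _ l l' hx.1.1 hx.1.2 hl'.val (fun i => i.elim0) x hx.2)
  refine ⟨0, M, C, hC, hM, ?_⟩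
  intro y e l hl0 hl x x' hx
  have he : e = fun i => i.elim0 := Subsingleton.elim _ _
  have h1 := hP y l x x' fun c hc => by
    have := hx c hc
    rwa [pow_zero, cm4_rvlEq_one (map_one _)] at this
  rw [he]
  constructor
  · intro h
    exact (h1.1 ⟨⟨hl0, hl⟩, h⟩).2
  · intro h
    exact (h1.2 ⟨⟨hl0, hl⟩, h⟩).2

theorem mlProp_succ (hH : HProp L K O) (hn : EqChar O.valuation)
    (nt : ∃ π : K, π ≠ 0 ∧ O.valuation π < 1) {m : ℕ} (hm : MLProp L K O m) :
    MLProp L K O (m + 1) := by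
  intro Γ _ X hX hinv
  -- the family with the last parameter moved
  have hsn : ∀ (e0 e0' : Fin m → K) (z z' l : K), (∀ i, rvlEq O.valuation l (e0 i) (e0' i)) →
      rvlEq O.valuation l z z' → ∀ i, rvlEq O.valuation l
        ((Fin.snoc e0 z : Fin (m + 1) → K) i) ((Fin.snoc e0' z' : Fin (m + 1) → K) i) := by
    intro e0 e0' z z' l h1 h2 i
    refine Fin.lastCases ?_ (fun j => ?_) i
    · rw [Fin.snoc_last (α := fun _ => K), Fin.snoc_last (α := fun _ => K)]
      exact h2
    · rw [Fin.snoc_castSucc (α := fun _ => K), Fin.snoc_castSucc (α := fun _ => K)]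
      exact h1 j
  obtain ⟨N1, M1, C1, hC1, hM1, hP1⟩ := hm (Γ × K)
    (fun p e0 l => X p.1 (Fin.snoc e0 p.2 : Fin (m + 1) → K) l)
    (Dfn.comp4 (P := fun y e l x => x ∈ X y e l) hX DFun.fst.fst'
      (cm4_snoc DFun.snd.fst' DFun.fst.snd') DFun.snd.snd'.fst' DFun.snd.snd'.snd')
    (by
      intro p e e' l l' hl0 hl hll he x hx
      exact hinv p.1 _ _ l l' hl0 hl hll (hsn e e' p.2 p.2 l he (cm4_rvlEq_refl _ _)) x hx)
  obtain ⟨r, f, hf, hfi, hfc⟩ := codes hn hC1 hM1
  have hF : DFun L K (fun p : Γ × (Fin r → K) × K => f (p.1, p.2.2) p.2.1) :=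
    DFun.comp2 (F := fun q κ => f q κ) hf (DFun.fst.prodMk DFun.snd.snd') DFun.snd.fst'
  obtain ⟨M2, E1, hE1, hME1, hPE1⟩ := hH Γ (Fin r → K)
    (fun y κ => {z | f (y, z) κ ∈ C1 (y, z)})
    (Dfn.mem hC1 (DFun.fst.prodMk DFun.snd.snd') hF)
    (by
      intro y κ κ' hκ z hz
      show f (y, z) κ' ∈ C1 (y, z)
      rw [← hfi (y, z) κ κ' hκ]
      exact hz)
  obtain ⟨M3, E2, hE2, hME2, hPE2⟩ := hH Γ ((Fin r → K) × (Fin r → K))
    (fun y κ => {z | f (y, z) κ.1 = f (y, z) κ.2})
    (Dfn.eq (DFun.comp2 (F := fun q κ => f q κ) hf (DFun.fst.prodMk DFun.snd.snd')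
        DFun.snd.fst'.fst')
      (DFun.comp2 (F := fun q κ => f q κ) hf (DFun.fst.prodMk DFun.snd.snd') DFun.snd.fst'.snd'))
    (by
      intro y κ κ' hκ z hz
      show f (y, z) κ'.1 = f (y, z) κ'.2
      rw [← hfi (y, z) κ.1 κ'.1 (trvEq_prod.1 hκ).1, ← hfi (y, z) κ.2 κ'.2 (trvEq_prod.1 hκ).2]
      exact hz)
  obtain ⟨N, k, D0, D, hD0, hD, hND0, hND, hED, hloc⟩ := locData hH hn nt
    (f := fun y κ z => f (y, z) κ) hF (fun y κ κ' hκ => funext fun z => hfi (y, z) κ κ' hκ)
    (hE1.union hE2) (fun y => (hME1 y).union (hME2 y))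
  obtain ⟨M4, X1, hX1, hMX1, hPX1⟩ := hH Γ (Fin (m + 1) → K) (fun y e => X y e 1)
    (Dfn.comp4 (P := fun y e l x => x ∈ X y e l) hX DFun.fst DFun.snd.fst' DFun.one
      DFun.snd.snd')
    (by
      intro y e e' he x hx
      exact hinv y e e' 1 1 one_ne_zero (le_of_eq (map_one _)) rfl
        (fun i => (cm4_rvlEq_one (map_one _)).2 (trvEq_pi.1 he i)) x hx)
  refine ⟨N1 + 2 * k, N + N * M1 + M4,
    fun y => (D y ∪ ⋃ d ∈ D0 y, C1 (y, d)) ∪ X1 y,
    (hD.union (hD0.biUnion hC1)).union hX1,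
    fun y => ((hND y).union ((hND0 y).biUnion fun c _ => hM1 (y, c))).union (hMX1 y), ?_⟩
  intro y e l hl0 hl x x' hx
  rcases eq_or_lt_of_le hl with hl1 | hl1
  · -- `|l| = 1`
    have hX1' : ∀ x, x ∈ X y e l ↔ x ∈ X y e 1 := fun x =>
      ⟨fun h => hinv y e e l 1 hl0 hl (hl1.trans (map_one _).symm)
          (fun i => cm4_rvlEq_refl _ _) x h,
        fun h => hinv y e e 1 l one_ne_zero (le_of_eq (map_one _)) ((map_one _).trans hl1.symm)
          (fun i => cm4_rvlEq_refl _ _) x h⟩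
    rw [hX1', hX1']
    refine hPX1 y e x x' fun c hc => ?_
    have h1 := hx c (Or.inr hc)
    rwa [cm4_rvlEq_one (by rw [map_pow, hl1, one_pow])] at h1
  · -- `|l| < 1`
    obtain ⟨z', hz', hc'⟩ := main_arith hn (M1 := M1) (N1 := N1) (k := k) (D0 := D0 y)
      (D := D y) (Cf := fun z => C1 (y, z)) (fun z => hM1 (y, z)) (fun κ z => f (y, z) κ)
      (fun z s hs => hfc (y, z) s hs) (hloc y)
      (fun κ => cm4_prep_mono (hPE1 y κ) (Set.subset_union_left.trans (hED y)))
      (fun κ κ' => cm4_prep_mono (hPE2 y (κ, κ')) (Set.subset_union_right.trans (hED y)))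
      (l := l) (x := x) (x' := x') (z := e (Fin.last m)) hl0 hl1
      (fun d hd => hx d (Or.inl (Or.inl hd)))
      (fun d hd c hc => hx c (Or.inl (Or.inr (Set.mem_biUnion hd hc))))
    have he : e = (Fin.snoc (Fin.init e) (e (Fin.last m)) : Fin (m + 1) → K) :=
      (Fin.snoc_init_self (α := fun _ => K) e).symm
    have hmove : ∀ x, x ∈ X y e l ↔
        x ∈ X y (Fin.snoc (Fin.init e) z' : Fin (m + 1) → K) l := by
      intro x
      have hz'' : rvlEq O.valuation l z' (e (Fin.last m)) := by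
        rcases hz' with h | h
        · exact Or.inl h.symm
        · have h2 : rvEq O.valuation (e (Fin.last m)) z' := by
            right
            refine lt_of_lt_of_le h ?_
            exact mul_le_of_le_one_left zero_le hl
          right
          rw [Valuation.map_sub_swap, ← h2.val]
          exact h
      constructor
      · intro h
        rw [he] at h
        exact hinv y _ _ l l hl0 hl rfl (hsn _ _ _ _ l (fun i => cm4_rvlEq_refl _ _) hz') x h
      · intro h
        rw [he]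
        exact hinv y _ _ l l hl0 hl rfl (hsn _ _ _ _ l (fun i => cm4_rvlEq_refl _ _) hz'') x h
    rw [hmove, hmove]
    exact hP1 (y, z') (Fin.init e) l hl0 hl x x' hc'

end

end Pool.Agent.HM
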