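import Pool.Agent.HM.Basic

/-! Definitions for the statement of MP_f2b4e1_lc: `ℓ`-h-minimality, coarse `ℓ`-h-minimality. -/

universe u v w

namespace Pool.Agent.HM

open FirstOrder FirstOrder.Language

/-- The language `L` expands `L_val = {+, ·, 𝒪}`: two chosen binary function symbols and one
chosen unary relation symbol. -/
class Sym (L : FirstOrder.Language.{u, v}) where
  add : L.Functions 2
  mul : L.Functions 2
  O : L.Relations 1

/-- In the `L`-structure `K` the three symbols are interpreted by the addition and the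
multiplication of the field `K` and by the valuation ring `O`. -/
class IsVF (L : FirstOrder.Language.{u, v}) [s : Sym L] (K : Type w) [L.Structure K] [Field K]
    (O : outParam (ValuationSubring K)) : Prop where
  add : ∀ x y : K, Structure.funMap s.add ![x, y] = x + y
  mul : ∀ x y : K, Structure.funMap s.mul ![x, y] = x * y
  mem : ∀ x : K, Structure.RelMap s.O ![x] ↔ x ∈ O

/-- All models of `T` are (with the interpretation of the three symbols) valued fields whose
residue field has characteristic zero (so they are of equicharacteristic zero). -/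
def EqCharZeroTheory {L : FirstOrder.Language.{u, v}} [Sym L] (T : L.Theory) : Prop :=
  ∀ (K : Type (max u v w)) [L.Structure K] [Nonempty K], T.Model K →
    ∃ (_ : Field K) (O : ValuationSubring K),
      IsVF L K O ∧ CharZero (IsLocalRing.ResidueField O)

/-- `rv_λ(x) = rv_λ(y)` for `λ = |l| ≤ 1`: `x = y` or `|x - y| < λ |x|`. -/
def rvlEq {K : Type*} [Field K] {Γ : Type*} [LinearOrderedCommGroupWithZero Γ]
    (v : Valuation K Γ) (l x y : K) : Prop :=
  x = y ∨ v (x - y) < v l * v x

/-- `C` `λ`-prepares `X`, `λ = |l|`. -/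
def PrepL {K : Type*} [Field K] {Γ : Type*} [LinearOrderedCommGroupWithZero Γ]
    (v : Valuation K Γ) (l : K) (C X : Set K) : Prop :=
  ∀ x x' : K, (∀ c ∈ C, rvlEq v l (x - c) (x' - c)) → (x ∈ X ↔ x' ∈ X)

/-- `X` is `(A ∪ RV ∪ A')`-definable for some `A' ⊆ RV_λ` with at most `ℓ` elements, `λ = |l|`:
there are tuples `z` (representing elements of `RV`) and `w` (representing elements of `RV_λ`)
and an `A`-definable `Z` such that, for all representatives `z'`, `w'` of the same elements of
`RV` and `RV_λ`, `X` is the fibre of `Z` over `(z', w')`. -/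
def DefOver (L : FirstOrder.Language.{u, v}) {K : Type w} [L.Structure K] [Field K]
    (O : ValuationSubring K) (l : K) (ℓ : ℕ) (A X : Set K) : Prop :=
  ∃ (n : ℕ) (z : Fin n → K) (w : Fin ℓ → K) (Z : Set (Fin 1 ⊕ (Fin n ⊕ Fin ℓ) → K)),
    A.Definable L Z ∧
    ∀ (z' : Fin n → K) (w' : Fin ℓ → K),
      (∀ i, rvlEq O.valuation 1 (z i) (z' i)) → (∀ j, rvlEq O.valuation l (w j) (w' j)) →
      ∀ x, x ∈ X ↔ Sum.elim ![x] (Sum.elim z' w') ∈ Z

/-- `ℓ`-h-minimality of a theory `T` of valued fields of equicharacteristic zero. The universe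
parameter `w` allows models in arbitrarily large universes. -/
def HMin {L : FirstOrder.Language.{u, v}} [Sym L] (T : L.Theory) (ℓ : ℕ) : Prop :=
  ∀ (K : Type (max u v w)) [L.Structure K] [Field K] (O : ValuationSubring K) [IsVF L K O],
    T.Model K → ∀ l : K, l ≠ 0 → O.valuation l ≤ 1 → ∀ A X : Set K,
      DefOver L O l ℓ A X → ∃ C : Set K, C.Finite ∧ A.Definable₁ L C ∧ PrepL O.valuation l C X

/-- The relation symbol of the language `{O_c}`. -/
inductive CRel : ℕ → Type
  | c : CRel 1

/-- The language with one unary relation symbol `O_c`. -/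
def LO : FirstOrder.Language.{0, 0} := ⟨fun _ => Empty, CRel⟩

/-- `L_c = L ∪ {O_c}`. -/
abbrev Lc (L : FirstOrder.Language.{u, v}) : FirstOrder.Language.{u, v} := L.sum LO

/-- In `L_c` the valuation ring is named by the new symbol. -/
@[reducible] def symC (L : FirstOrder.Language.{u, v}) [s : Sym L] : Sym (Lc L) where
  add := Sum.inl s.add
  mul := Sum.inl s.mul
  O := Sum.inr CRel.c

/-- `O_c` is interpreted by `Oc`. -/
@[reducible] def strC {K : Type w} [Field K] (Oc : ValuationSubring K) : LO.Structure K where
  funMap := fun f => nomatch f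
  RelMap := fun {n} r => match n, r with
    | _, CRel.c => fun x => x 0 ∈ Oc

/-- coarse `ℓ`-h-minimality -/
def CoarsMin {L : FirstOrder.Language.{u, v}} [Sym L] (T : L.Theory) (ℓ : ℕ) : Prop :=
  ∀ (K : Type (max u v w)) [L.Structure K] [Field K] (O : ValuationSubring K) [IsVF L K O],
    T.Model K → ∀ Oc : ValuationSubring K, O ≤ Oc → Oc ≠ ⊤ →
      CharZero (IsLocalRing.ResidueField Oc) →
      letI := strC Oc
      @HMin.{u, v, w} (Lc L) (symC L) ((Lc L).completeTheory K) ℓ

end Pool.Agent.HM
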